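import Pool.Agent.Q295.LQG.Est

/-!
# The good configurations have a probability bounded below, uniformly in the number of parts
-/

set_option autoImplicit false

namespace Pool.Agent.Q295.LQG

open MeasureTheory ProbabilityTheory Real Filter Topology Pool.Agent.Y980 Pool.Agent.Y980.DSquare

variable {Ω : Type*} [MeasurableSpace Ω]

/-- the index of a square -/
noncomputable def sqi (S : DSquare) : Set.Ioi (0 : ℝ) × ℂ := ⟨⟨S.side / 2, half_pos' S⟩, S.center⟩

/-- the residual field after subtraction of `c_S Z` -/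
noncomputable def resid (h : ℝ → ℂ → Ω → ℝ) (c : DSquare → ℝ) (Z : Ω → ℝ) (ω : Ω) (S : DSquare) : ℝ :=
  sqv h S ω - c S * Z ω

/-- the drifted form of a family of averages -/
noncomputable def dr (Q : ℝ) (w : DSquare → ℝ) (S : DSquare) : ℝ := w S - Q * S.n * log 2

omit [MeasurableSpace Ω] in
theorem dr_resid (Q : ℝ) (h : ℝ → ℂ → Ω → ℝ) (c : DSquare → ℝ) (Z : Ω → ℝ) (ω : Ω) (S : DSquare) :
    dr Q (resid h c Z ω) S = fld Q h ω S - c S * Z ω := by
  unfold dr resid fld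
  ring

theorem measurable_dr (Q : ℝ) : Measurable (dr Q) := by
  refine measurable_pi_lambda _ fun S => ?_
  unfold dr
  exact (measurable_pi_apply S).sub measurable_const

theorem measurable_resid {P : Measure Ω} {h : ℝ → ℂ → Ω → ℝ} (hh : IsGFF P h) (c : DSquare → ℝ)
    {Z : Ω → ℝ} (hZ : Measurable Z) : Measurable (resid h c Z) := by
  refine measurable_pi_lambda _ fun S => ?_
  unfold resid
  exact (measurable_sqv hh S).sub (hZ.const_mul _)

theorem indep_zz {P : Measure Ω} {h : ℝ → ℂ → Ω → ℝ} (hh : IsGFF P h) :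
    IndepFun (resid h (fun S => kap S / log 2) (zz h)) (zz h) P := by
  have hm : ∀ t : Set.Ioi (0 : ℝ) × ℂ, Measurable (h t.1 t.2) :=
    fun t => hh.measurable _ _ t.1.2
  refine indep_resid (g := fun p : Set.Ioi (0 : ℝ) × ℂ => h p.1 p.2) hh.gaussian hm sqi
    (fun S => kap S / log 2) (Z := zz h)
    (Finsupp.single ((⟨⟨1 / 20, by norm_num⟩, z0⟩ : Set.Ioi (0 : ℝ) × ℂ)) (1 : ℝ) +
      Finsupp.single ((⟨⟨1 / 10, by norm_num⟩, z0⟩ : Set.Ioi (0 : ℝ) × ℂ)) (-1 : ℝ)) ?_ ?_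
  · intro ω
    rw [lin_add, lin_single, lin_single]
    unfold zz
    ring
  · intro S
    have h1 := cov_zz hh S
    rw [var_zz hh, div_mul_cancel₀ _ log_two_pos.ne']
    exact h1

theorem indep_big {P : Measure Ω} {h : ℝ → ℂ → Ω → ℝ} (hh : IsGFF P h) {n : ℕ} (hn : 0 < n) :
    IndepFun (resid h (fun S => cov[sqv h S, big n h; P] / (n * log 2)) (big n h)) (big n h) P := by
  have hm : ∀ t : Set.Ioi (0 : ℝ) × ℂ, Measurable (h t.1 t.2) :=
    fun t => hh.measurable _ _ t.1.2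
  have hn' : (0 : ℝ) < n := by exact_mod_cast hn
  have hpos : (0 : ℝ) < n * log 2 := mul_pos hn' log_two_pos
  refine indep_resid (g := fun p : Set.Ioi (0 : ℝ) × ℂ => h p.1 p.2) hh.gaussian hm sqi
    (fun S => cov[sqv h S, big n h; P] / (n * log 2)) (Z := big n h)
    (Finsupp.single ((⟨⟨(2 : ℝ) ^ (n : ℤ), two_zpow_pos n⟩, 0⟩ : Set.Ioi (0 : ℝ) × ℂ)) (1 : ℝ))
    ?_ ?_
  · intro ω
    rw [lin_single]
    unfold big
    ring
  · intro S
    rw [var_big hh, div_mul_cancel₀ _ hpos.ne']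
    rfl

theorem mean_zz {P : Measure Ω} {h : ℝ → ℂ → Ω → ℝ} (hh : IsGFF P h) : ∫ ω, zz h ω ∂P = 0 := by
  have hp := hh.gaussian.isProbabilityMeasure
  have i1 := (memLp_gff hh (show (0 : ℝ) < 1 / 20 by norm_num) z0).integrable (by norm_num)
  have i2 := (memLp_gff hh (show (0 : ℝ) < 1 / 10 by norm_num) z0).integrable (by norm_num)
  have e := integral_sub i1 i2
  rw [hh.mean _ _ (by norm_num), hh.mean _ _ (by norm_num), sub_zero] at e
  exact e

theorem law_zz {P : Measure Ω} {h : ℝ → ℂ → Ω → ℝ} (hh : IsGFF P h) : HasGaussianLaw (zz h) P := by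
  have h1 := hh.gaussian.hasGaussianLaw_fun_sub
    (s := (⟨⟨1 / 20, by norm_num⟩, z0⟩ : Set.Ioi (0 : ℝ) × ℂ))
    (t := (⟨⟨1 / 10, by norm_num⟩, z0⟩ : Set.Ioi (0 : ℝ) × ℂ))
  exact h1

theorem measurable_zz {P : Measure Ω} {h : ℝ → ℂ → Ω → ℝ} (hh : IsGFF P h) :
    Measurable (zz h) := (hh.measurable _ _ (by norm_num)).sub (hh.measurable _ _ (by norm_num))

/-- the second moment bound for all levels together -/
theorem surv_all {P : Measure Ω} [IsProbabilityMeasure P] {D : ℕ → Finset (ℤ × ℤ)} {d C Q p : ℝ}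
    (hD : Fam D d) {m K : ℕ} {h : ℝ → ℂ → Ω → ℝ} (hh : IsGFF P h)
    (hp : ∀ n, m ≤ n → ENNReal.ofReal p ≤ P {ω | K ≤ (surv D C m n (fld Q h ω)).card}) :
    ENNReal.ofReal p ≤ P {ω | ∀ n, m ≤ n → K ≤ (surv D C m n (fld Q h ω)).card} := by
  set A : ℕ → Set Ω := fun j => {ω | K ≤ (surv D C m (m + j) (fld Q h ω)).card} with hA
  have hAm : ∀ j, MeasurableSet (A j) := fun j =>
    (measurable_surv D C m (m + j) K).preimage (measurable_fld hh Q)
  have hanti : Antitone A := by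
    intro i j hij ω hω
    exact le_trans hω (Finset.card_le_card (surv_anti hD (Nat.le_add_right _ _) (by omega)))
  have e : {ω | ∀ n, m ≤ n → K ≤ (surv D C m n (fld Q h ω)).card} = ⋂ j, A j := by
    ext ω
    simp only [Set.mem_iInter, Set.mem_ofPred_eq, hA]
    constructor
    · intro h j
      exact h _ (Nat.le_add_right _ _)
    · intro h n hn
      obtain ⟨j, rfl⟩ := Nat.exists_eq_add_of_le hn
      exact h j
  rw [e, hanti.measure_iInter (fun j => (hAm j).nullMeasurableSet) ⟨0, measure_ne_top _ _⟩]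
  exact le_iInf fun j => hp _ (Nat.le_add_right _ _)

/-- the part of the good set which does not involve the root -/
def Rest (C δ : ℝ) (m N K : ℕ) : Set (DSquare → ℝ) :=
  {x | (∀ k : ℕ, 0 < k → -C + δ * (k + 1) < x ⟨-(k : ℤ), 0, 0⟩) ∧
    (∀ n, m ≤ n → K ≤ (surv D2 (C - δ) m n x).card) ∧
    LineLow x (-C - 1 - δ) m N ∧
    ∀ m' : ℕ, ∃ N', m' ≤ N' ∧ LineLow x (-C - 1 - δ) m' N'}

theorem measurable_Rest (C δ : ℝ) (m N K : ℕ) : MeasurableSet (Rest C δ m N K) := by
  unfold Rest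
  refine measurableSet_setOfPred.2 ?_
  refine (Measurable.and ?_ (Measurable.and ?_ (Measurable.and ?_ ?_)))
  · refine Measurable.forall fun k => Measurable.imp measurable_const ?_
    exact measurableSet_setOfPred.1 (measurableSet_lt measurable_const (measurable_pi_apply _))
  · refine Measurable.forall fun n => Measurable.imp measurable_const ?_
    exact measurableSet_setOfPred.1 (measurable_surv D2 (C - δ) m n K)
  · exact measurableSet_setOfPred.1 (measurable_lineLow _ _ _)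
  · refine Measurable.forall fun m' => Measurable.exists fun N' =>
      Measurable.and measurable_const ?_
    exact measurableSet_setOfPred.1 (measurable_lineLow _ _ _)

theorem mem_GS_iff {C δ : ℝ} {m N K : ℕ} {x : DSquare → ℝ} :
    x ∈ GS C δ m N K ↔ x ⟨0, 0, 0⟩ ≤ -C - 1 - δ ∧ x ∈ Rest C δ m N K := Iff.rfl

/-- `Rest` only depends on the values at the ancestors and inside `[1,2] × [0,1]` -/
theorem Rest.congr {C δ : ℝ} {m N K : ℕ} {x y : DSquare → ℝ} (hx : x ∈ Rest C δ m N K)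
    (h1 : ∀ k : ℕ, 0 < k → x ⟨-(k : ℤ), 0, 0⟩ = y ⟨-(k : ℤ), 0, 0⟩)
    (h2 : ∀ N i j, InB N i j → x ⟨N, i, j⟩ = y ⟨N, i, j⟩) : y ∈ Rest C δ m N K := by
  obtain ⟨a2, a3, a4, a5⟩ := hx
  have hll : ∀ m' N', LineLow x (-C - 1 - δ) m' N' → LineLow y (-C - 1 - δ) m' N' := by
    intro m' N' h i j hin hbd
    rw [← h2 N' i j hin]
    exact h i j hin hbd
  refine ⟨?_, ?_, hll _ _ a4, fun m' => ?_⟩
  · intro k hk
    rw [← h1 k hk]
    exact a2 k hk
  · intro n hn
    refine (a3 n hn).trans (Finset.card_le_card ?_)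
    refine surv_le (e := 0) (fun s hs => mem_D2.1 hs) (by linarith) fun N i j hin => ?_
    rw [h2 N i j hin]
    linarith
  · obtain ⟨N', hN', h⟩ := a5 m'
    exact ⟨N', hN', hll _ _ h⟩

theorem var_resid_le {P : Measure Ω} {h : ℝ → ℂ → Ω → ℝ} (hh : IsGFF P h) :
    Var[fun ω => resid h (fun S => kap S / log 2) (zz h) ω ⟨0, 0, 0⟩; P] ≤ 2 := by
  have hp := hh.gaussian.isProbabilityMeasure
  set S : DSquare := ⟨0, 0, 0⟩ with hS
  have m1 := memLp_gff hh (half_pos' S) S.center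
  have m2 : MemLp (zz h) 2 P := (law_zz hh).memLp_two
  set c := kap S / log 2 with hc
  have e : Var[fun ω => resid h (fun S => kap S / log 2) (zz h) ω S; P] =
      Var[sqv h S; P] - 2 * cov[sqv h S, fun ω => c * zz h ω; P] + Var[fun ω => c * zz h ω; P] :=
    variance_fun_sub m1 (m2.const_mul c)
  rw [e, covariance_const_mul_right, variance_const_mul, cov_zz hh, var_zz hh]
  have h1 : kap S = c * log 2 := by
    rw [hc, div_mul_cancel₀ _ log_two_pos.ne']
  rw [h1]
  have h2 := var_quad hh (S := S) (Or.inl rfl) (Or.inl rfl)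
  have h3 : |((S.n : ℤ) : ℝ)| = 0 := by rw [hS]; simp
  rw [h3, zero_add] at h2
  have h4 := log_two_lt
  have h5 := log_two_pos
  nlinarith [mul_nonneg (sq_nonneg c) h5.le]

theorem mean_resid {P : Measure Ω} {h : ℝ → ℂ → Ω → ℝ} (hh : IsGFF P h) (c : DSquare → ℝ)
    (S : DSquare) : ∫ ω, resid h c (zz h) ω S ∂P = 0 := by
  have hp := hh.gaussian.isProbabilityMeasure
  have m1 := (memLp_gff hh (half_pos' S) S.center).integrable (by norm_num)
  have m2 := ((law_zz hh).memLp_two.const_mul (c S)).integrable (by norm_num)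
  have e := integral_sub m1 m2
  rw [hh.mean _ _ (half_pos' S), integral_const_mul, mean_zz hh, mul_zero, sub_zero] at e
  exact e

theorem base_prob (P : Measure Ω) {Q : ℝ} (hQ : 0 < Q) (hQ2 : 2 ≤ Q ^ 2) (hQ4 : Q < 2) :
    ∃ C δ p₀ : ℝ, 0 < δ ∧ 0 < p₀ ∧ ∀ K : ℕ, ∃ m N : ℕ, m ≤ N ∧ ∀ h : ℝ → ℂ → Ω → ℝ, IsGFF P h →
      ENNReal.ofReal p₀ ≤ P {ω | fld Q h ω ∈ GS C δ m N K} := by
  have hl := log_two_pos
  obtain ⟨C₀, p, hp0, hsurv⟩ := surv_prob' P fam_D2 hQ (show Q ^ 2 / 2 < 2 by nlinarith)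
  obtain ⟨C₁, hC₁⟩ := anc_drift P hQ (show 0 < p / 8 by positivity)
  set δ := Q * log 2 / 4 with hδ
  have hδ0 : 0 < δ := by positivity
  set C := max (C₀ + δ + 1) C₁ with hC
  have hC0 : C₀ < C - δ := by
    have := le_max_left (C₀ + δ + 1) C₁
    linarith
  set L := √(16 / p) with hL
  have hL0 : 0 < L := Real.sqrt_pos.2 (by positivity)
  have hL2 : (2 : ℝ) / L ^ 2 = p / 8 := by
    rw [hL, Real.sq_sqrt (by positivity)]
    field_simp
    norm_num
  set c := kap ⟨0, 0, 0⟩ / log 2 with hc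
  have hc0 : 0 < c := div_pos kap_root hl
  set t := -((C + 1 + δ + L) / c) with ht
  set pz := (√(2 * π * log 2))⁻¹ * exp (-(|t| + 2) ^ 2 / (2 * log 2)) with hpz
  have hpz0 : 0 < pz := by positivity
  refine ⟨C, δ, p / 2 * pz, hδ0, by positivity, fun K => ?_⟩
  obtain ⟨m, hm⟩ := hsurv (C - δ) hC0 K
  obtain ⟨N, hmN, hN⟩ := lineLow_prob P hQ hQ2 (-C - 1 - δ) m (show 0 < p / 8 by positivity)
  refine ⟨m, N, hmN, fun h hh => ?_⟩
  have hP := hh.gaussian.isProbabilityMeasure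
  set W := resid h (fun S => kap S / log 2) (zz h) with hW
  have hWm : Measurable W := measurable_resid hh _ (measurable_zz hh)
  set F : Set (DSquare → ℝ) := {w | w ⟨0, 0, 0⟩ ≤ L ∧ dr Q w ∈ Rest C δ m N K} with hF
  have hFm : MeasurableSet F := by
    refine MeasurableSet.inter (measurableSet_le (measurable_pi_apply _) measurable_const) ?_
    exact (measurable_dr Q) (measurable_Rest C δ m N K)
  -- inclusion
  have hsub : W ⁻¹' F ∩ (zz h) ⁻¹' (Set.Iic t) ⊆ {ω | fld Q h ω ∈ GS C δ m N K} := by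
    rintro ω ⟨⟨h1, h2⟩, h3⟩
    rw [Set.mem_preimage, Set.mem_Iic] at h3
    simp only [Set.mem_ofPred_eq]
    rw [mem_GS_iff]
    constructor
    · have e : fld Q h ω ⟨0, 0, 0⟩ = W ω ⟨0, 0, 0⟩ + c * zz h ω := by
        rw [hW]
        unfold resid fld
        simp only
        rw [← hc]
        push_cast
        ring
      rw [e]
      have h4 : c * zz h ω ≤ c * t := mul_le_mul_of_nonneg_left h3 hc0.le
      have h5 : c * t = -(C + 1 + δ + L) := by
        rw [ht, mul_neg, mul_div_cancel₀ _ hc0.ne']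
      linarith
    · refine Rest.congr h2 ?_ ?_
      · intro k hk
        rw [hW, dr_resid]
        simp only [kap_anc hk, zero_div, zero_mul, sub_zero]
      · intro N' i j hin
        rw [hW, dr_resid]
        simp only [kap_inB hin, zero_div, zero_mul, sub_zero]
  -- the probability of `F`
  have hPF : ENNReal.ofReal (p / 2) ≤ P (W ⁻¹' F) := by
    have h1 := surv_all fam_D2 (C := C - δ) (Q := Q) (K := K) hh (hm h hh)
    have hcover : {ω | ∀ n, m ≤ n → K ≤ (surv D2 (C - δ) m n (fld Q h ω)).card} ⊆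
        W ⁻¹' F ∪ ({ω | L ≤ |W ω ⟨0, 0, 0⟩|} ∪ {ω | ∃ k : ℕ, fld Q h ω ⟨-(k : ℤ), 0, 0⟩ ≤
          -C + δ * (k + 1)} ∪ {ω | ¬ LineLow (fld Q h ω) (-C - 1 - δ) m N} ∪
          {ω | ¬ ∀ m' : ℕ, ∃ N', m' ≤ N' ∧ LineLow (fld Q h ω) (-C - 1 - δ) m' N'}) := by
      intro ω hω
      by_cases b1 : L ≤ |W ω ⟨0, 0, 0⟩|
      · exact Or.inr (Or.inl (Or.inl (Or.inl b1)))
      by_cases b2 : ∃ k : ℕ, fld Q h ω ⟨-(k : ℤ), 0, 0⟩ ≤ -C + δ * (k + 1)
      · exact Or.inr (Or.inl (Or.inl (Or.inr b2)))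
      by_cases b3 : ¬ LineLow (fld Q h ω) (-C - 1 - δ) m N
      · exact Or.inr (Or.inl (Or.inr b3))
      by_cases b4 : ¬ ∀ m' : ℕ, ∃ N', m' ≤ N' ∧ LineLow (fld Q h ω) (-C - 1 - δ) m' N'
      · exact Or.inr (Or.inr b4)
      left
      push Not at b1 b2
      refine ⟨(le_abs_self _).trans b1.le, ?_⟩
      have hr : fld Q h ω ∈ Rest C δ m N K :=
        ⟨fun k _ => b2 k, hω, not_not.1 b3, not_not.1 b4⟩
      refine Rest.congr hr ?_ ?_
      · intro k hk
        rw [hW, dr_resid]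
        simp only [kap_anc hk, zero_div, zero_mul, sub_zero]
      · intro N' i j hin
        rw [hW, dr_resid]
        simp only [kap_inB hin, zero_div, zero_mul, sub_zero]
    have e1 : P {ω | L ≤ |W ω ⟨0, 0, 0⟩|} ≤ ENNReal.ofReal (p / 8) := by
      have hmem : MemLp (fun ω => W ω ⟨0, 0, 0⟩) 2 P :=
        (memLp_gff hh (half_pos' ⟨0, 0, 0⟩) _).sub ((law_zz hh).memLp_two.const_mul _)
      have := gauss_cheb hmem (mean_resid hh _ _) (var_resid_le hh) hL0
      rwa [hL2] at this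
    have e2 := hC₁ C (le_max_right _ _) δ hδ0.le le_rfl h hh 0 0 (Or.inl rfl) (Or.inl rfl)
    have e3 := hN h hh
    have e4 : P {ω | ¬ ∀ m' : ℕ, ∃ N', m' ≤ N' ∧
        LineLow (fld Q h ω) (-C - 1 - δ) m' N'} = 0 := lineLow_ae hh hQ hQ2 _
    have h2 := h1.trans ((measure_mono hcover).trans (measure_union_le _ _))
    have h3 : P ({ω | L ≤ |W ω ⟨0, 0, 0⟩|} ∪ {ω | ∃ k : ℕ, fld Q h ω ⟨-(k : ℤ), 0, 0⟩ ≤
          -C + δ * (k + 1)} ∪ {ω | ¬ LineLow (fld Q h ω) (-C - 1 - δ) m N} ∪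
          {ω | ¬ ∀ m' : ℕ, ∃ N', m' ≤ N' ∧ LineLow (fld Q h ω) (-C - 1 - δ) m' N'}) ≤
          ENNReal.ofReal (p / 2) := by
      refine (measure_union_le _ _).trans ?_
      rw [e4, add_zero]
      refine (measure_union_le _ _).trans ((add_le_add (measure_union_le _ _) le_rfl).trans ?_)
      refine (add_le_add (add_le_add e1 e2) e3).trans ?_
      rw [← ENNReal.ofReal_add (by positivity) (by positivity),
        ← ENNReal.ofReal_add (by positivity) (by positivity)]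
      apply ENNReal.ofReal_le_ofReal
      linarith
    have h4 : ENNReal.ofReal (p / 2) + ENNReal.ofReal (p / 2) ≤
        P (W ⁻¹' F) + ENNReal.ofReal (p / 2) := by
      rw [← ENNReal.ofReal_add (by positivity) (by positivity), add_halves]
      exact h2.trans (add_le_add le_rfl h3)
    exact (ENNReal.add_le_add_iff_right ENNReal.ofReal_ne_top).1 h4
  refine le_trans ?_ (measure_mono hsub)
  rw [(indep_zz hh).measure_inter_preimage_eq_mul _ _ hFm measurableSet_Iic,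
    ENNReal.ofReal_mul (by positivity)]
  exact mul_le_mul' hPF (gauss_pos (law_zz hh) (measurable_zz hh) (mean_zz hh) (var_zz hh) hl t)

end Pool.Agent.Q295.LQG
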