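import Pool.Agent.Q295.LQG.Indep

/-!
# Covariances with a local bump and with the large scale
-/

set_option autoImplicit false

namespace Pool.Agent.Q295.LQG

open MeasureTheory ProbabilityTheory Real Pool.Agent.Y980 Pool.Agent.Y980.DSquare

variable {Ω : Type*} [MeasurableSpace Ω] {P : Measure Ω} {h : ℝ → ℂ → Ω → ℝ}

/-- the point `i / 2` -/
noncomputable def z0 : ℂ := ⟨0, 1 / 2⟩

/-- the bump variable -/
noncomputable def zz (h : ℝ → ℂ → Ω → ℝ) (ω : Ω) : ℝ := h (1 / 20) z0 ω - h (1 / 10) z0 ω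

theorem cN_z0 {r : ℝ} (hr : 0 < r) (hr' : r ≤ 1 / 10) : cN r z0 = 0 := by
  apply le_antisymm _ (cN_nonneg _ _)
  refine cN_le le_rfl fun x hx => ?_
  rw [mem_sphere_iff_norm, abs_of_pos hr] at hx
  rw [exp_zero]
  have h1 : ‖z0‖ ≤ 1 / 2 := by
    apply norm_le_of_sq (by norm_num)
    simp only [z0]
    norm_num
  calc ‖x‖ = ‖(x - z0) + z0‖ := by rw [sub_add_cancel]
    _ ≤ ‖x - z0‖ + ‖z0‖ := norm_add_le _ _
    _ ≤ 1 := by rw [hx]; linarith

/-- covariance of the bump with the average over a square -/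
noncomputable def kap (S : DSquare) : ℝ :=
  cA (S.side / 2) S.center (1 / 10) z0 - cA (S.side / 2) S.center (1 / 20) z0

theorem cov_zz (hh : IsGFF P h) (S : DSquare) : cov[sqv h S, zz h; P] = kap S := by
  have hp := hh.gaussian.isProbabilityMeasure
  have m1 := memLp_gff hh (half_pos' S) S.center
  have m2 := memLp_gff hh (show (0 : ℝ) < 1 / 20 by norm_num) z0
  have m3 := memLp_gff hh (show (0 : ℝ) < 1 / 10 by norm_num) z0
  have e : cov[sqv h S, zz h; P] = cov[h (S.side / 2) S.center, h (1 / 20) z0; P] -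
      cov[h (S.side / 2) S.center, h (1 / 10) z0; P] := covariance_fun_sub_right m1 m2 m3
  rw [e, cov_gff hh (half_pos' S) (by norm_num), cov_gff hh (half_pos' S) (by norm_num),
    cN_z0 (by norm_num) (by norm_num), cN_z0 (by norm_num) (by norm_num)]
  unfold kap
  ring

theorem var_zz (hh : IsGFF P h) : Var[zz h; P] = log 2 := by
  have hp := hh.gaussian.isProbabilityMeasure
  have m2 := memLp_gff hh (show (0 : ℝ) < 1 / 20 by norm_num) z0
  have m3 := memLp_gff hh (show (0 : ℝ) < 1 / 10 by norm_num) z0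
  have hm : Measurable (zz h) :=
    (hh.measurable _ _ (by norm_num)).sub (hh.measurable _ _ (by norm_num))
  have e : cov[zz h, zz h; P] = cov[h (1 / 20) z0, h (1 / 20) z0; P] -
      cov[h (1 / 20) z0, h (1 / 10) z0; P] - cov[h (1 / 10) z0, h (1 / 20) z0; P] +
      cov[h (1 / 10) z0, h (1 / 10) z0; P] := covariance_fun_sub_fun_sub m2 m3 m2 m3
  have h1 : cA (1 / 20) z0 (1 / 10) z0 = log (1 / 10) := by
    unfold cA
    have : Set.EqOn (fun x : ℂ => log (max (1 / 10) ‖x - z0‖)) (fun _ => log (1 / 10))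
        (Metric.sphere z0 |(1 / 20 : ℝ)|) := by
      intro x hx
      rw [mem_sphere_iff_norm, abs_of_pos (by norm_num)] at hx
      simp only
      rw [hx, max_eq_left (by norm_num)]
    rw [circleAverage_congr_sphere this, circleAverage_const]
  rw [← covariance_self hm.aemeasurable, e, covariance_comm (h (1 / 10) z0) (h (1 / 20) z0),
    cov_gff hh (by norm_num) (by norm_num), cov_gff hh (by norm_num) (by norm_num),
    cov_gff hh (by norm_num) (by norm_num), cN_z0 (by norm_num) (by norm_num),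
    cN_z0 (by norm_num) (by norm_num), h1, cA_self (by norm_num), cA_self (by norm_num)]
  have h2 : (1 / 10 : ℝ) = 2 * (1 / 20) := by norm_num
  rw [h2, log_mul (by norm_num) (by norm_num)]
  ring

theorem kap_eq_zero {S : DSquare} (hS : ∀ x ∈ Metric.sphere S.center |S.side / 2|,
    1 / 10 ≤ ‖x - z0‖) : kap S = 0 := by
  unfold kap cA
  have : Set.EqOn (fun x : ℂ => log (max (1 / 10) ‖x - z0‖)) (fun x => log (max (1 / 20) ‖x - z0‖))
      (Metric.sphere S.center |S.side / 2|) := by
    intro x hx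
    have h1 := hS x hx
    simp only
    rw [max_eq_right h1, max_eq_right (by linarith)]
  rw [circleAverage_congr_sphere this, sub_self]

theorem kap_inB {n : ℕ} {i j : ℤ} (hin : InB n i j) : kap ⟨n, i, j⟩ = 0 := by
  apply kap_eq_zero
  intro x hx
  obtain ⟨h1, h2, h3, h4⟩ := inB_subset hin (sphere_coord hx)
  refine le_trans ?_ (Complex.abs_re_le_norm _)
  rw [Complex.sub_re]
  refine le_trans ?_ (le_abs_self _)
  simp only [z0]
  linarith

theorem kap_anc {k : ℕ} (hk : 0 < k) : kap ⟨-(k : ℤ), 0, 0⟩ = 0 := by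
  apply kap_eq_zero
  intro x hx
  set S : DSquare := ⟨-(k : ℤ), 0, 0⟩ with hS
  set ρ := S.side / 2 with hρ
  have hρ1 : 1 ≤ ρ := by
    have h1 : S.side = 2 ^ k := by
      rw [hS]
      simp only [side, neg_neg, zpow_natCast]
    have h2 : (2 : ℝ) ^ 1 ≤ 2 ^ k := pow_le_pow_right₀ (by norm_num) hk
    rw [hρ, h1]
    linarith
  rw [mem_sphere_iff_norm, abs_of_pos (by linarith)] at hx
  have hc : S.center = ⟨ρ, ρ⟩ := by
    rw [hS]
    simp only [center]
    rw [← hS, hρ]
    apply Complex.ext <;> · simp only; push_cast; ring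
  have h1 : ρ + 1 / 10 ≤ ‖S.center - z0‖ := by
    have h2 : ‖S.center - z0‖ ^ 2 = ρ ^ 2 + (ρ - 1 / 2) ^ 2 := by
      rw [Complex.sq_norm, Complex.normSq_apply, hc]
      simp only [z0, Complex.sub_re, Complex.sub_im]
      ring
    have h3 : (ρ + 1 / 10) ^ 2 ≤ ‖S.center - z0‖ ^ 2 := by
      rw [h2]
      nlinarith
    exact (abs_le_of_sq_le_sq' h3 (norm_nonneg _)).2
  have h4 : ‖S.center - z0‖ ≤ ‖x - S.center‖ + ‖x - z0‖ := by
    calc ‖S.center - z0‖ = ‖(x - z0) - (x - S.center)‖ := by congr 1; ring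
      _ ≤ ‖x - z0‖ + ‖x - S.center‖ := norm_sub_le _ _
      _ = _ := by ring
  linarith

theorem kap_root : 0 < kap ⟨0, 0, 0⟩ := by
  set S : DSquare := ⟨0, 0, 0⟩ with hS
  have hs : S.side = 1 := by rw [hS]; simp [side]
  have hc : S.center = ⟨1 / 2, 1 / 2⟩ := by
    rw [hS]
    simp only [center]
    rw [← hS, hs]
    apply Complex.ext <;> · simp only; push_cast; ring
  have h1 : kap S = circleAverage (fun x => log (max (1 / 10) ‖x - z0‖) -
      log (max (1 / 20) ‖x - z0‖)) S.center (S.side / 2) := by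
    unfold kap cA
    rw [circleAverage_fun_sub (ci_of_cont (continuous_logmax (by norm_num) _) _ _)
      (ci_of_cont (continuous_logmax (by norm_num) _) _ _)]
  rw [h1]
  have hcont : Continuous (fun x : ℂ => log (max (1 / 10) ‖x - z0‖) -
      log (max (1 / 20) ‖x - z0‖)) :=
    (continuous_logmax (by norm_num) _).sub (continuous_logmax (by norm_num) _)
  refine avg_pos hcont (fun x => ?_) π ⟨pi_pos.le, by linarith [pi_pos]⟩ ?_
  · rw [sub_nonneg]
    exact log_le_log (lt_max_of_lt_left (by norm_num)) (max_le_max_right _ (by norm_num))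
  · have h2 : circleMap S.center (S.side / 2) π = z0 := by
      rw [circleMap, Complex.exp_pi_mul_I, hc, hs]
      apply Complex.ext
      · simp [z0]
      · simp [z0]
    rw [h2, sub_self, norm_zero, sub_pos]
    exact log_lt_log (lt_max_of_lt_left (by norm_num)) (by norm_num)

/-! ### The large scale -/

/-- the variable of the large scale -/
noncomputable def big (n : ℕ) (h : ℝ → ℂ → Ω → ℝ) : Ω → ℝ := h ((2 : ℝ) ^ (n : ℤ)) 0

theorem log_two_zpow (n : ℕ) : log ((2 : ℝ) ^ (n : ℤ)) = n * log 2 := by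
  rw [log_zpow]
  push_cast
  rfl

theorem two_zpow_pos (n : ℕ) : (0 : ℝ) < 2 ^ (n : ℤ) := by positivity

theorem cN_big (n : ℕ) : cN ((2 : ℝ) ^ (n : ℤ)) 0 = n * log 2 := by
  unfold cN
  have h1 : (1 : ℝ) ≤ 2 ^ (n : ℤ) := by
    rw [zpow_natCast]
    exact one_le_pow₀ (by norm_num)
  have : Set.EqOn (fun x : ℂ => log (max ‖x‖ 1)) (fun _ => n * log 2)
      (Metric.sphere 0 |(2 : ℝ) ^ (n : ℤ)|) := by
    intro x hx
    rw [mem_sphere_iff_norm, sub_zero, abs_of_pos (two_zpow_pos n)] at hx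
    simp only
    rw [hx, max_eq_left h1, log_two_zpow]
  rw [circleAverage_congr_sphere this, circleAverage_const]

theorem var_big (hh : IsGFF P h) (n : ℕ) : Var[big n h; P] = n * log 2 := by
  have hp := hh.gaussian.isProbabilityMeasure
  unfold big
  rw [← covariance_self (hh.measurable _ _ (two_zpow_pos n)).aemeasurable, cov_gff hh (two_zpow_pos n) (two_zpow_pos n), cN_big, cA_self (two_zpow_pos n),
    log_two_zpow]
  ring

theorem cov_big (hh : IsGFF P h) (n : ℕ) (S : DSquare) :
    0 ≤ cov[sqv h S, big n h; P] ∧ cov[sqv h S, big n h; P] ≤ sN S := by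
  have e : cov[sqv h S, big n h; P] = sN S + n * log 2 -
      cA (S.side / 2) S.center ((2 : ℝ) ^ (n : ℤ)) 0 := by
    unfold sqv big
    rw [cov_gff hh (half_pos' S) (two_zpow_pos n), cN_big]
    rfl
  have h1 := log_le_cA (r := S.side / 2) (z := S.center) (w := 0) (two_zpow_pos n)
  rw [log_two_zpow] at h1
  have h2 : cA (S.side / 2) S.center ((2 : ℝ) ^ (n : ℤ)) 0 ≤ sN S + n * log 2 := by
    have e2 : sN S + n * log 2 = circleAverage (fun x : ℂ => log (max ‖x‖ 1) + n * log 2)
        S.center (S.side / 2) := by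
      rw [circleAverage_fun_add (ci_of_cont continuous_logmax1 _ _) (circleIntegrable_const _ _ _),
        circleAverage_const]
      rfl
    rw [e2]
    unfold cA
    refine circleAverage_mono (ci_of_cont (continuous_logmax (two_zpow_pos n) _) _ _)
      (ci_of_cont (continuous_logmax1.add continuous_const) _ _) fun x _ => ?_
    rw [sub_zero, ← log_two_zpow, ← log_mul (lt_max_of_lt_right one_pos).ne' (two_zpow_pos n).ne']
    apply log_le_log (lt_max_of_lt_left (two_zpow_pos n))
    have h1 : (1 : ℝ) ≤ 2 ^ (n : ℤ) := by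
      rw [zpow_natCast]
      exact one_le_pow₀ (by norm_num)
    have h3 : (1 : ℝ) ≤ max ‖x‖ 1 := le_max_right _ _
    have h4 : ‖x‖ ≤ max ‖x‖ 1 := le_max_left _ _
    apply max_le
    · nlinarith
    · nlinarith [norm_nonneg x]
  constructor <;> linarith

/-- bounds of the sizes -/
theorem sN_anc (k : ℕ) : sN ⟨-(k : ℤ), 0, 0⟩ ≤ k + 1 := by
  have hl := log_two_lt
  have hl0 := log_two_pos
  have hk : (0 : ℝ) ≤ k := Nat.cast_nonneg k
  refine sN_le (by positivity) fun x hx => ?_
  refine (quad_bound (Or.inl rfl) (Or.inl rfl) hx).trans (exp_le_exp.2 ?_)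
  push_cast
  nlinarith

end Pool.Agent.Q295.LQG
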