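import Pool.Agent.Y980.Many

/-!
# Dyadic tilings: many infinite parts of the tiling graph close to the root
-/

set_option autoImplicit false

namespace Pool.Agent.Q295.LQG

open Pool.Agent.Y980 Pool.Agent.Y980.DSquare

theorem interior_of_not_bd {q : ℕ} {T : DSquare} (h : ¬ Bd q T.i T.j) {z : ℂ}
    (hz : z ∈ T.toSet) :
    ((anc q T).i : ℝ) * (anc q T).side < z.re ∧ z.re < ((anc q T).i + 1) * (anc q T).side ∧
    ((anc q T).j : ℝ) * (anc q T).side < z.im ∧ z.im < ((anc q T).j + 1) * (anc q T).side := by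
  have hs := T.side_pos
  have hq : (0 : ℤ) < 2 ^ q := by positivity
  unfold Bd at h
  push Not at h
  obtain ⟨h1, h2, h3, h4⟩ := h
  rw [side_anc]
  simp only [anc]
  have gen : ∀ a : ℤ, ¬ (2 : ℤ) ^ q ∣ a → ¬ (2 : ℤ) ^ q ∣ a + 1 → ∀ t : ℝ, (a : ℝ) * T.side ≤ t →
      t ≤ (a + 1) * T.side → ((a / 2 ^ q : ℤ) : ℝ) * (2 ^ q * T.side) < t ∧
      t < (((a / 2 ^ q : ℤ) : ℝ) + 1) * (2 ^ q * T.side) := by
    intro a ha ha' t ht ht'
    have a1 := Int.ediv_mul_le a hq.ne'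
    have a2 : a / 2 ^ q * 2 ^ q ≠ a := fun he => ha ⟨a / 2 ^ q, by linarith⟩
    have a3 : a / 2 ^ q * 2 ^ q + 1 ≤ a := by omega
    have b1 := Int.lt_ediv_add_one_mul_self a hq
    have b2 : (a / 2 ^ q + 1) * 2 ^ q ≠ a + 1 := fun he => ha' ⟨a / 2 ^ q + 1, by linarith⟩
    have b3 : a + 1 + 1 ≤ (a / 2 ^ q + 1) * 2 ^ q := by omega
    have a4 : ((a / 2 ^ q : ℤ) : ℝ) * 2 ^ q + 1 ≤ a := by exact_mod_cast a3
    have b4 : (a : ℝ) + 1 + 1 ≤ (((a / 2 ^ q : ℤ) : ℝ) + 1) * 2 ^ q := by exact_mod_cast b3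
    constructor <;> nlinarith
  obtain ⟨z1, z2, z3, z4⟩ := hz
  obtain ⟨c1, c2⟩ := gen T.i h1 h2 z.re z1 z2
  obtain ⟨c3, c4⟩ := gen T.j h3 h4 z.im z3 z4
  exact ⟨c1, c2, c3, c4⟩

theorem nested_of_interior {T U : DSquare} {z : ℂ} (hz : z ∈ T.toSet)
    (h : (U.i : ℝ) * U.side < z.re ∧ z.re < (U.i + 1) * U.side ∧
      (U.j : ℝ) * U.side < z.im ∧ z.im < (U.j + 1) * U.side) :
    (∃ k, U = anc k T) ∨ (∃ k, T = anc k U) := by
  obtain ⟨h1, h2, h3, h4⟩ := h
  have key : ∀ (a b : ℤ) (s t : ℝ), 0 < s → (a : ℝ) * s ≤ t → t ≤ (a + 1) * s → (b : ℝ) * s < t →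
      t < (b + 1) * s → a = b := by
    intro a b s t hs e1 e2 e3 e4
    have c1 : (a : ℝ) < b + 1 := lt_of_mul_lt_mul_right (e1.trans_lt e4) hs.le
    have c2 : (b : ℝ) < a + 1 := lt_of_mul_lt_mul_right (e3.trans_le e2) hs.le
    have c1' : a < b + 1 := by exact_mod_cast c1
    have c2' : b < a + 1 := by exact_mod_cast c2
    omega
  rcases le_total U.n T.n with hn | hn
  · left
    obtain ⟨k, hk⟩ := Int.eq_ofNat_of_zero_le (sub_nonneg.2 hn)
    refine ⟨k, ?_⟩
    have hz' := subset_anc k T hz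
    have hside : (anc k T).side = U.side := by
      simp only [side, anc]
      congr 1
      omega
    simp only [toSet, Set.mem_ofPred_eq] at hz'
    rw [hside] at hz'
    obtain ⟨z1, z2, z3, z4⟩ := hz'
    have hs := U.side_pos
    have e1 := key _ _ _ _ hs z1 z2 h1 h2
    have e2 := key _ _ _ _ hs z3 z4 h3 h4
    ext
    · simp only [anc]; omega
    · exact e1.symm
    · exact e2.symm
  · right
    obtain ⟨k, hk⟩ := Int.eq_ofNat_of_zero_le (sub_nonneg.2 hn)
    refine ⟨k, ?_⟩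
    have hside : (anc k U).side = T.side := by
      simp only [side, anc]
      congr 1
      omega
    have hside' := side_anc k U
    rw [hside] at hside'
    have hs := T.side_pos
    have hsU := U.side_pos
    have f : ∀ a : ℤ, ((a / 2 ^ k : ℤ) : ℝ) * T.side ≤ a * U.side ∧
        ((a : ℝ) + 1) * U.side ≤ (((a / 2 ^ k : ℤ) : ℝ) + 1) * T.side := by
      intro a
      have g1 := ediv_le_real a k
      have g2 := real_lt_ediv a k
      rw [hside']
      constructor <;> nlinarith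
    obtain ⟨z1, z2, z3, z4⟩ := hz
    have e1 := key T.i (U.i / 2 ^ k) _ _ hs z1 z2 ((f U.i).1.trans_lt h1) (h2.trans_le (f U.i).2)
    have e2 := key T.j (U.j / 2 ^ k) _ _ hs z3 z4 ((f U.j).1.trans_lt h3) (h4.trans_le (f U.j).2)
    ext
    · simp only [anc]; omega
    · exact e1
    · exact e2

/-- A tile inside `U` which meets a tile outside of `U` touches the boundary of `U`. -/
theorem bd_of_adj {x : DSquare → ℝ} {u : ℝ} {T T' : DSquare} (hT : T ∈ tiles x u)
    (hT' : T' ∈ tiles x u) {q : ℕ} (hne : ∀ k, anc q T ≠ anc k T') {z : ℂ} (hz : z ∈ T.toSet)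
    (hz' : z ∈ T'.toSet) : Bd q T.i T.j := by
  by_contra hcon
  rcases nested_of_interior hz' (interior_of_not_bd hcon hz) with ⟨k, hk⟩ | ⟨k, hk⟩
  · exact hne k hk
  · rw [anc_anc] at hk
    have : T = T' := tile_unique hT hT' (k := 0) (anc_zero T).symm hk
    exact hne q (by rw [this])

/-- the tiles of level at most `N` in `[1,2] × [0,1]` -/
theorem finite_level (x : DSquare → ℝ) (u : ℝ) (N : ℕ) :
    {T : tiles x u | ∃ l ≤ N, ∃ i j : ℤ, InB l i j ∧ T.1 = ⟨(l : ℕ), i, j⟩}.Finite := by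
  have h1 : (⋃ l ∈ Finset.range (N + 1), (fun s : ℤ × ℤ => (⟨(l : ℕ), s.1, s.2⟩ : DSquare)) ''
      (D2 l : Set (ℤ × ℤ))).Finite := by
    refine Set.Finite.biUnion (Finset.finite_toSet _) fun l _ => ?_
    exact (Finset.finite_toSet _).image _
  refine Set.Finite.of_finite_image (f := Subtype.val) (h1.subset ?_) Subtype.val_injective.injOn
  rintro _ ⟨T, ⟨l, hl, i, j, hin, hT⟩, rfl⟩
  simp only [Set.mem_iUnion]
  exact ⟨l, Finset.mem_coe.2 (Finset.mem_range.2 (by omega)), (i, j),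
    Finset.mem_coe.2 (mem_D2.2 hin), hT.symm⟩

section

variable {x : DSquare → ℝ} {u : ℝ}

/-- the tiles inside the square `⟨m, v⟩` -/
def part (x : DSquare → ℝ) (u : ℝ) (m : ℕ) (v : ℤ × ℤ) : Set (tiles x u) :=
  {T | ∃ q : ℕ, anc q T.1 = ⟨m, v.1, v.2⟩}

theorem part_form {m : ℕ} {v : ℤ × ℤ} (hv : InB m v.1 v.2) {T : tiles x u}
    (hT : T ∈ part x u m v) : ∃ (q : ℕ) (i j : ℤ), InB (m + q) i j ∧ T.1 = ⟨(m + q : ℕ), i, j⟩ ∧
      i / 2 ^ q = v.1 ∧ j / 2 ^ q = v.2 := by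
  obtain ⟨q, hq⟩ := hT
  have h1 := congrArg DSquare.n hq
  have h2 := congrArg DSquare.i hq
  have h3 := congrArg DSquare.j hq
  simp only [anc] at h1 h2 h3
  refine ⟨q, T.1.i, T.1.j, ?_, ?_, h2, h3⟩
  · apply InB.of_ediv
    rw [h2, h3]
    exact hv
  · ext
    · simp only; push_cast; omega
    · rfl
    · rfl

/-- a set of squares in `D2 m` with infinite chains above them -/
def Chain (x : DSquare → ℝ) (u : ℝ) (m : ℕ) (v : ℤ × ℤ) : Prop :=
  InB m v.1 v.2 ∧ ∀ n, m ≤ n → ∃ s : ℤ × ℤ, InB n s.1 s.2 ∧ s.1 / 2 ^ (n - m) = v.1 ∧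
    s.2 / 2 ^ (n - m) = v.2 ∧ ∀ j ≤ n, u < x (ans n s j)

theorem anc_eq_ans {n : ℕ} {s : ℤ × ℤ} {k : ℕ} (hk : k ≤ n) :
    anc k (⟨n, s.1, s.2⟩ : DSquare) = ans n s (n - k) := by
  unfold ans anc
  ext
  · simp only; omega
  · simp only; rw [show n - (n - k) = k by omega]
  · simp only; rw [show n - (n - k) = k by omega]

theorem alive_of_chain (hanc : ∀ k, 0 < k → u < x (anc k ⟨0, 0, 0⟩)) {n : ℕ} {s : ℤ × ℤ}
    (hin : InB n s.1 s.2) (hs : ∀ j ≤ n, u < x (ans n s j)) : Alive x u ⟨n, s.1, s.2⟩ := by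
  intro k
  rcases le_or_gt k n with hk | hk
  · rw [anc_eq_ans hk]
    exact hs _ (by omega)
  · rw [anc_inB hin hk]
    exact hanc _ (by omega)

/-- a tile strictly inside an alive square -/
theorem exists_tile_inside (hanc : ∀ k, 0 < k → u < x (anc k ⟨0, 0, 0⟩)) {n N : ℕ} (hnN : n ≤ N)
    {s : ℤ × ℤ} (hin : InB n s.1 s.2) (hal : Alive x u ⟨n, s.1, s.2⟩) {i j : ℤ}
    (hi : i / 2 ^ (N - n) = s.1) (hj : j / 2 ^ (N - n) = s.2) (hc : ¬ Alive x u ⟨N, i, j⟩) :
    ∃ k, k < N - n ∧ anc k ⟨N, i, j⟩ ∈ tiles x u := by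
  have hinN : InB N i j := by
    have := InB.of_ediv (N := n) (q := N - n) (i := i) (j := j) (by rw [hi, hj]; exact hin)
    rwa [show n + (N - n) = N by omega] at this
  obtain ⟨k, hk, hk'⟩ := exists_tile_inB hanc hinN hc
  refine ⟨k, ?_, hk'⟩
  by_contra hcon
  push Not at hcon
  have h1 : anc k (⟨N, i, j⟩ : DSquare) = anc (k - (N - n)) ⟨n, s.1, s.2⟩ := by
    have h2 : anc (N - n) (⟨N, i, j⟩ : DSquare) = ⟨n, s.1, s.2⟩ := by
      unfold anc
      ext
      · simp only; omega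
      · exact hi
      · exact hj
    rw [← h2, anc_anc]
    congr 1
    omega
  rw [h1] at hk'
  exact (hal.anc _).not_mem hk'

theorem ends_of_chains (hroot : (⟨0, 0, 0⟩ : DSquare) ∈ tiles x u)
    (hno : ∀ m' : ℕ, ∃ N, m' ≤ N ∧ NoAlive x u m' N)
    {m N K : ℕ} (hmN : m ≤ N) (hN : NoAlive x u m N)
    (v : Fin K → ℤ × ℤ) (hinj : Function.Injective v) (hch : ∀ a, Chain x u m (v a))
    (ρ : ℕ) (hρ : 2 ^ (N + 1) ≤ ρ) :
    ∃ f : Fin K → tiles x u, ∀ i, (adjGraph (tiles x u)).Reachable ⟨_, hroot⟩ (f i) ∧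
      (adjGraph (tiles x u)).dist ⟨_, hroot⟩ (f i) = ρ ∧
      ∀ j, i ≠ j → 2 * (ρ - 2 ^ (N + 1)) ≤ (adjGraph (tiles x u)).dist (f i) (f j) := by
  have hanc : ∀ k, 0 < k → u < x (anc k ⟨0, 0, 0⟩) := (mem_tiles.1 hroot).2
  refine ends (fun a => part x u m (v a)) ?_ ?_ ?_ ?_ ?_ ?_ ?_ ρ hρ
  · -- disjoint
    intro a b hab
    rw [Set.disjoint_left]
    rintro T ⟨q, hq⟩ ⟨q', hq'⟩
    have h1 := congrArg DSquare.n hq
    have h1' := congrArg DSquare.n hq'
    simp only [anc] at h1 h1'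
    have h2 : q = q' := by omega
    subst h2
    rw [hq] at hq'
    apply hab
    apply hinj
    have h3 := congrArg DSquare.i hq'
    have h4 := congrArg DSquare.j hq'
    exact Prod.ext h3 h4
  · -- the root
    rintro a ⟨q, hq⟩
    have hv := (hch a).1
    rw [inB_iff] at hv
    have h1 := congrArg DSquare.n hq
    have h2 := congrArg DSquare.i hq
    simp only [anc, Int.zero_ediv] at h1 h2
    have : (0 : ℤ) < 2 ^ m := by positivity
    omega
  · -- gates
    rintro a T hT T' hT' hadj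
    obtain ⟨z, hz, hz'⟩ := nonempty_inter_of_adj hadj
    obtain ⟨q, i, j, hin, hTe, hi, hj⟩ := part_form (hch a).1 hT
    have hancq : anc q T.1 = ⟨m, (v a).1, (v a).2⟩ := by
      rw [hTe]
      unfold anc
      ext
      · simp only; push_cast; ring
      · exact hi
      · exact hj
    have hbd := bd_of_adj T.2 T'.2 (q := q) (fun k hk => hT' ⟨k, by rw [← hk, hancq]⟩) hz hz'
    rw [hTe] at hbd
    have hmem : (⟨(m + q : ℕ), i, j⟩ : DSquare) ∈ tiles x u := hTe ▸ T.2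
    obtain ⟨w, hw⟩ := bd_walk hroot hanc hmN hN hin hbd hmem
    have hTT : T = ⟨_, hmem⟩ := Subtype.ext hTe
    rw [hTT]
    exact ⟨w, hw⟩
  · -- finitely many gates
    intro a
    refine (finite_level x u N).subset ?_
    rintro T ⟨hT, T', hT', hadj⟩
    obtain ⟨z, hz, hz'⟩ := nonempty_inter_of_adj hadj
    obtain ⟨q, i, j, hin, hTe, hi, hj⟩ := part_form (hch a).1 hT
    have hancq : anc q T.1 = ⟨m, (v a).1, (v a).2⟩ := by
      rw [hTe]
      unfold anc
      ext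
      · simp only; push_cast; ring
      · exact hi
      · exact hj
    have hbd := bd_of_adj T.2 T'.2 (q := q) (fun k hk => hT' ⟨k, by rw [← hk, hancq]⟩) hz hz'
    rw [hTe] at hbd
    have hmem : (⟨(m + q : ℕ), i, j⟩ : DSquare) ∈ tiles x u := hTe ▸ T.2
    exact ⟨m + q, level_le_of_bd hmN hN hin hbd hmem, i, j, hin, hTe⟩
  · -- reachable
    intro a T hT
    obtain ⟨q, i, j, hin, hTe, hi, hj⟩ := part_form (hch a).1 hT
    obtain ⟨N', hN', hno'⟩ := hno (m + q)
    have hmem : (⟨(m + q + 0 : ℕ), i, j⟩ : DSquare) ∈ tiles x u := hTe ▸ T.2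
    obtain ⟨w, hw⟩ := bd_walk hroot hanc hN' hno' (q := 0) hin (Or.inl (by simp)) hmem
    have hTT : T = ⟨_, hmem⟩ := Subtype.ext hTe
    rw [hTT]
    exact ⟨w⟩
  · -- infinite
    intro a hfin
    obtain ⟨B, hB⟩ := (hfin.image (fun T => T.1.n)).bddAbove
    obtain ⟨s, hin, hs1, hs2, hs⟩ := (hch a).2 (max m B.toNat) (le_max_left _ _)
    set n := max m B.toNat with hn
    have hal := alive_of_chain hanc hin hs
    obtain ⟨N', hN', hno'⟩ := hno n
    have e1 : s.1 * 2 ^ (N' - n) / 2 ^ (N' - n) = s.1 := ediv_mul_pow _ _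
    have e2 : s.2 * 2 ^ (N' - n) / 2 ^ (N' - n) = s.2 := ediv_mul_pow _ _
    have hinN : InB N' (s.1 * 2 ^ (N' - n)) (s.2 * 2 ^ (N' - n)) := by
      have := InB.of_ediv (N := n) (q := N' - n) (i := s.1 * 2 ^ (N' - n))
        (j := s.2 * 2 ^ (N' - n)) (by rw [e1, e2]; exact hin)
      rwa [show n + (N' - n) = N' by omega] at this
    have hna := hno' _ _ hinN (Or.inl (dvd_mul_left _ _))
    obtain ⟨k, hk, hk'⟩ := exists_tile_inside hanc hN' hin hal e1 e2 hna
    have hmemp : (⟨_, hk'⟩ : tiles x u) ∈ part x u m (v a) := by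
      refine ⟨N' - m - k, ?_⟩
      simp only
      rw [anc_anc]
      have h3 : N' - m - k + k = (n - m) + (N' - n) := by
        have : m ≤ n := le_max_left _ _
        omega
      rw [h3, ← anc_anc]
      have h4 : anc (N' - n) (⟨N', s.1 * 2 ^ (N' - n), s.2 * 2 ^ (N' - n)⟩ : DSquare) =
          ⟨n, s.1, s.2⟩ := by
        unfold anc
        ext
        · simp only; omega
        · exact e1
        · exact e2
      rw [h4]
      unfold anc
      ext
      · simp only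
        have : m ≤ n := le_max_left _ _
        omega
      · exact hs1
      · exact hs2
    have h5 := hB ⟨_, hmemp, rfl⟩
    simp only [anc] at h5
    have h6 : B.toNat ≤ n := le_max_right _ _
    omega
  · -- locally finite
    intro a T hT
    obtain ⟨q, i, j, hin, hTe, hi, hj⟩ := part_form (hch a).1 hT
    obtain ⟨N', hN', hno'⟩ := hno (m + q)
    refine (finite_level x u N').subset ?_
    rintro T' ⟨hT', hadj⟩
    obtain ⟨z, hz, hz'⟩ := nonempty_inter_of_adj hadj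
    obtain ⟨q', i', j', hin', hTe', hi', hj'⟩ := part_form (hch a).1 hT'
    refine ⟨m + q', ?_, i', j', hin', hTe'⟩
    rcases le_or_gt q' q with h | h
    · omega
    · obtain ⟨d, rfl⟩ := Nat.exists_eq_add_of_le h.le
      have hne : ∀ k, anc d T'.1 ≠ anc k T.1 := by
        intro k hk
        have h1 := congrArg DSquare.n hk
        rw [hTe, hTe'] at h1
        simp only [anc] at h1
        have hk0 : k = 0 := by omega
        subst hk0
        rw [anc_zero] at hk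
        have : T'.1 = T.1 := tile_unique T'.2 T.2 (k := 0) (anc_zero _).symm hk.symm
        have h2 := congrArg DSquare.n this
        rw [hTe, hTe'] at h2
        simp only at h2
        omega
      have hbd := bd_of_adj T'.2 T.2 hne hz' hz
      rw [hTe'] at hbd
      have hmem : (⟨(m + q + d : ℕ), i', j'⟩ : DSquare) ∈ tiles x u := by
        have := hTe' ▸ T'.2
        rwa [← add_assoc] at this
      have hin'' : InB (m + q + d) i' j' := by rwa [add_assoc]
      have := level_le_of_bd hN' hno' hin'' hbd hmem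
      omega

end

end Pool.Agent.Q295.LQG
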