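import Pool.Agent.Q295.LQG.Gauss1

/-!
# The ancestors are high, the lines are low
-/

set_option autoImplicit false

namespace Pool.Agent.Q295.LQG

open MeasureTheory ProbabilityTheory Real Pool.Agent.Y980 Pool.Agent.Y980.DSquare

variable {Ω : Type*} [MeasurableSpace Ω]

theorem anc_drift (P : Measure Ω) {Q : ℝ} (hQ : 0 < Q) {η : ℝ} (hη : 0 < η) :
    ∃ C₁ : ℝ, ∀ C, C₁ ≤ C → ∀ δ, 0 ≤ δ → δ ≤ Q * log 2 / 4 → ∀ h : ℝ → ℂ → Ω → ℝ, IsGFF P h →
      ∀ i j : ℤ, Quad i → Quad j →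
      P {ω | ∃ k : ℕ, fld Q h ω ⟨-(k : ℤ), i, j⟩ ≤ -C + δ * (k + 1)} ≤ ENNReal.ofReal η := by
  have hl := log_two_pos
  set r := exp (-(Q ^ 2 * log 2 / 4)) with hr
  have hr0 : 0 < r := exp_pos _
  have hr1 : r < 1 := by
    rw [hr, exp_lt_one_iff]
    have : 0 < Q ^ 2 * log 2 / 4 := by positivity
    linarith
  have h1r : 0 < 1 - r := by linarith
  refine ⟨(5 / 4 * Q ^ 2 * log 2 - log (η * (1 - r))) / Q, ?_⟩
  intro C hC δ hδ0 hδ h hh i j hi hj
  rw [div_le_iff₀ hQ] at hC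
  have hpt : ∀ k : ℕ, P {ω | fld Q h ω ⟨-(k : ℤ), i, j⟩ ≤ -C + δ * (k + 1)} ≤
      ENNReal.ofReal (η * (1 - r) * r ^ k) := by
    intro k
    have h1 := anc_tail hh hQ hi hj k (C - δ * (k + 1))
    have e : -(C - δ * (k + 1)) = -C + δ * (k + 1) := by ring
    rw [e] at h1
    refine h1.trans (ENNReal.ofReal_le_ofReal ?_)
    have e1 : η * (1 - r) * r ^ k = exp (log (η * (1 - r)) + k * -(Q ^ 2 * log 2 / 4)) := by
      rw [exp_add, exp_log (by positivity), hr, exp_nat_mul]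
    rw [e1, ← exp_nat_mul, ← exp_add]
    apply exp_le_exp.2
    have h2 : Q * (δ * (k + 1)) ≤ Q * (Q * log 2 / 4 * (k + 1)) := by
      apply mul_le_mul_of_nonneg_left _ hQ.le
      apply mul_le_mul_of_nonneg_right hδ (by positivity)
    nlinarith
  have h1 : {ω | ∃ k : ℕ, fld Q h ω ⟨-(k : ℤ), i, j⟩ ≤ -C + δ * (k + 1)} =
      ⋃ k : ℕ, {ω | fld Q h ω ⟨-(k : ℤ), i, j⟩ ≤ -C + δ * (k + 1)} := by
    ext ω; simp
  rw [h1]
  refine (measure_iUnion_le _).trans ((ENNReal.tsum_le_tsum hpt).trans ?_)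
  have hs : Summable fun k : ℕ => η * (1 - r) * r ^ k :=
    (summable_geometric_of_lt_one hr0.le hr1).mul_left _
  rw [← ENNReal.ofReal_tsum_of_nonneg (fun k => by positivity) hs]
  apply ENNReal.ofReal_le_ofReal
  rw [tsum_mul_left, tsum_geometric_of_lt_one hr0.le hr1]
  rw [mul_assoc, mul_inv_cancel₀ h1r.ne', mul_one]

/-- the squares of level `N` on the level-`m` grid -/
noncomputable def gridF (m N : ℕ) : Finset (ℤ × ℤ) :=
  (((Finset.Icc ((2 : ℤ) ^ m) (2 ^ (m + 1))).image (fun a => a * 2 ^ (N - m)) ∪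
    (Finset.Icc ((2 : ℤ) ^ m) (2 ^ (m + 1))).image (fun a => a * 2 ^ (N - m) - 1)) ×ˢ
      Finset.Ico (0 : ℤ) (2 ^ N)) ∪
  (Finset.Ico ((2 : ℤ) ^ N) (2 ^ N + 2 ^ N) ×ˢ
    ((Finset.Icc (0 : ℤ) (2 ^ m)).image (fun a => a * 2 ^ (N - m)) ∪
    (Finset.Icc (0 : ℤ) (2 ^ m)).image (fun a => a * 2 ^ (N - m) - 1)))

theorem mem_gridF {m N : ℕ} (hmN : m ≤ N) {i j : ℤ} (hin : InB N i j) (hbd : Bd (N - m) i j) :
    (i, j) ∈ gridF m N := by
  obtain ⟨q, rfl⟩ := Nat.exists_eq_add_of_le hmN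
  rw [Nat.add_sub_cancel_left] at hbd
  obtain ⟨h1, h2, h3, h4⟩ := inB_iff.1 hin
  unfold gridF
  rw [Nat.add_sub_cancel_left]
  have hq : (0 : ℤ) < 2 ^ q := by positivity
  have e : (2 : ℤ) ^ (m + q) = 2 ^ m * 2 ^ q := by rw [pow_add]
  have e2 : (2 : ℤ) ^ (m + 1) = 2 ^ m + 2 ^ m := by rw [pow_succ]; ring
  rw [e] at h1 h2 h4
  simp only [Finset.mem_union, Finset.mem_product, Finset.mem_image, Finset.mem_Icc,
    Finset.mem_Ico]
  rw [e, e2]
  rcases hbd with h | h | h | h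
  · obtain ⟨c, hc⟩ := h
    left
    refine ⟨Or.inl ⟨c, ⟨?_, ?_⟩, by rw [hc]; ring⟩, h3, h4⟩
    · by_contra hcon
      nlinarith
    · by_contra hcon
      nlinarith
  · obtain ⟨c, hc⟩ := h
    left
    refine ⟨Or.inr ⟨c, ⟨?_, ?_⟩, by linarith [mul_comm c (2 ^ q)]⟩, h3, h4⟩
    · by_contra hcon
      nlinarith
    · by_contra hcon
      push Not at hcon
      have : 2 ^ m + 2 ^ m + 1 ≤ c := hcon
      nlinarith
  · obtain ⟨c, hc⟩ := h
    right
    refine ⟨⟨h1, h2⟩, Or.inl ⟨c, ⟨?_, ?_⟩, by rw [hc]; ring⟩⟩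
    · by_contra hcon
      nlinarith
    · by_contra hcon
      nlinarith
  · obtain ⟨c, hc⟩ := h
    right
    refine ⟨⟨h1, h2⟩, Or.inr ⟨c, ⟨?_, ?_⟩, by linarith [mul_comm c (2 ^ q)]⟩⟩
    · by_contra hcon
      nlinarith
    · by_contra hcon
      push Not at hcon
      have : 2 ^ m + 1 ≤ c := hcon
      nlinarith

theorem card_gridF (m N : ℕ) : ((gridF m N).card : ℝ) ≤ 4 * (2 ^ m + 1) * 2 ^ N := by
  have c1 : (Finset.Icc ((2 : ℤ) ^ m) (2 ^ (m + 1))).card = 2 ^ m + 1 := by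
    rw [Int.card_Icc]
    have : (2 : ℤ) ^ (m + 1) + 1 - 2 ^ m = ((2 ^ m + 1 : ℕ) : ℤ) := by push_cast; ring
    rw [this, Int.toNat_natCast]
  have c2 : (Finset.Icc (0 : ℤ) (2 ^ m)).card = 2 ^ m + 1 := by
    rw [Int.card_Icc]
    have : (2 : ℤ) ^ m + 1 - 0 = ((2 ^ m + 1 : ℕ) : ℤ) := by push_cast; ring
    rw [this, Int.toNat_natCast]
  have c3 : (Finset.Ico (0 : ℤ) (2 ^ N)).card = 2 ^ N := by
    rw [Int.card_Ico]
    have : (2 : ℤ) ^ N - 0 = ((2 ^ N : ℕ) : ℤ) := by push_cast; ring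
    rw [this, Int.toNat_natCast]
  have c4 : (Finset.Ico ((2 : ℤ) ^ N) (2 ^ N + 2 ^ N)).card = 2 ^ N := by
    rw [Int.card_Ico]
    have : (2 : ℤ) ^ N + 2 ^ N - 2 ^ N = ((2 ^ N : ℕ) : ℤ) := by push_cast; ring
    rw [this, Int.toNat_natCast]
  have h1 : (gridF m N).card ≤ (2 ^ m + 1 + (2 ^ m + 1)) * 2 ^ N +
      2 ^ N * (2 ^ m + 1 + (2 ^ m + 1)) := by
    unfold gridF
    refine (Finset.card_union_le _ _).trans ?_
    rw [Finset.card_product, Finset.card_product, c3, c4]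
    apply Nat.add_le_add
    · apply Nat.mul_le_mul_right
      refine (Finset.card_union_le _ _).trans (Nat.add_le_add ?_ ?_)
      · exact Finset.card_image_le.trans c1.le
      · exact Finset.card_image_le.trans c1.le
    · apply Nat.mul_le_mul_left
      refine (Finset.card_union_le _ _).trans (Nat.add_le_add ?_ ?_)
      · exact Finset.card_image_le.trans c2.le
      · exact Finset.card_image_le.trans c2.le
  have h2 : ((gridF m N).card : ℝ) ≤ ((2 ^ m + 1 + (2 ^ m + 1)) * 2 ^ N +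
      2 ^ N * (2 ^ m + 1 + (2 ^ m + 1)) : ℕ) := by exact_mod_cast h1
  refine h2.trans (le_of_eq ?_)
  push_cast
  ring

/-- one square is low -/
theorem one_low {P : Measure Ω} {h : ℝ → ℂ → Ω → ℝ} (hh : IsGFF P h) {Q : ℝ} (hQ : 0 < Q)
    (hQ2 : 2 ≤ Q ^ 2) {u : ℝ} {N : ℕ} (hL3 : 3 ≤ N * log 2) (hLu : 2 * |u| ≤ Q * (N * log 2))
    {i j : ℤ} (hin : InB N i j) :
    P {ω | u < fld Q h ω ⟨N, i, j⟩} ≤ ENNReal.ofReal (exp (3 + |u| * Q) * exp (-(N * log 2)) *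
      (4 / (Q * √(N * log 2)))) := by
  set L := N * log 2 with hL
  have hin' : InB (N + 0) i j := hin
  have hc := cov_anc hh hin'
  simp only [pow_zero, Int.ediv_one, add_zero] at hc
  rw [covariance_self (measurable_sqv hh _).aemeasurable, ← hL] at hc
  obtain ⟨hv1, hv2⟩ := hc
  set v := Var[sqv h ⟨N, i, j⟩; P] with hv
  have hv0 : 0 < v := by linarith
  have ha : 0 < u + Q * L := by
    have := neg_abs_le u
    have h3 : 0 < Q * L := by positivity
    linarith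
  have h1 := gauss_mills ((isGaussianProcess_sqv hh).hasGaussianLaw_eval ⟨N, i, j⟩)
    (measurable_sqv hh _) (mean_sqv hh _) hv.symm hv0 ha
  have e : {ω | u < fld Q h ω ⟨N, i, j⟩} = {ω | u + Q * L < sqv h ⟨N, i, j⟩ ω} := by
    ext ω
    simp only [Set.mem_ofPred_eq, fld, Int.cast_natCast]
    rw [hL]
    constructor <;> intro _ <;> linarith
  rw [e]
  refine h1.trans (ENNReal.ofReal_le_ofReal ?_)
  have hL0 : 0 < L := by linarith
  have hsqL : 0 < √L := Real.sqrt_pos.2 hL0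
  -- the exponential
  have e1 : exp (-(u + Q * L) ^ 2 / (2 * v)) ≤ exp (3 + |u| * Q) * exp (-L) := by
    rw [← exp_add]
    apply exp_le_exp.2
    rw [neg_div, neg_le, le_div_iff₀ (by positivity)]
    have h2 : (L - 3 - |u| * Q) * (2 * v) ≤ (u + Q * L) ^ 2 := by
      have hu0 := abs_nonneg u
      have hsq : Q ^ 2 * L ^ 2 - 2 * |u| * Q * L ≤ (u + Q * L) ^ 2 := by
        have := neg_abs_le u
        nlinarith [mul_pos hQ hL0, sq_nonneg u]
      rcases le_or_gt (L - 3 - |u| * Q) 0 with h3 | h3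
      · have : 0 ≤ (u + Q * L) ^ 2 := sq_nonneg _
        nlinarith
      · have h4 : (L - 3 - |u| * Q) * (2 * v) ≤ (L - 3 - |u| * Q) * (2 * (L + 3)) := by
          apply mul_le_mul_of_nonneg_left _ h3.le
          linarith
        have h5 : (L - 3 - |u| * Q) * (2 * (L + 3)) ≤ 2 * L ^ 2 - 2 * |u| * Q * L := by
          have : 0 ≤ |u| * Q := by positivity
          nlinarith
        have h6 : 2 * L ^ 2 ≤ Q ^ 2 * L ^ 2 := by
          apply mul_le_mul_of_nonneg_right hQ2 (by positivity)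
        linarith
    linarith
  -- the prefactor
  have e2 : (√(2 * π * v))⁻¹ * (v / (u + Q * L)) ≤ 4 / (Q * √L) := by
    have h2 : √v ≤ √(2 * π * v) := by
      apply Real.sqrt_le_sqrt
      have := pi_gt_three
      nlinarith
    have h3 : 0 < √v := Real.sqrt_pos.2 hv0
    have h4 : (√(2 * π * v))⁻¹ * v ≤ √v := by
      rw [inv_mul_le_iff₀ (by linarith)]
      have := Real.mul_self_sqrt hv0.le
      nlinarith
    have h5 : √v ≤ 2 * √L := by
      have h6 : v ≤ 2 ^ 2 * L := by linarith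
      have h7 := Real.sqrt_le_sqrt h6
      rwa [Real.sqrt_mul (by norm_num), Real.sqrt_sq (by norm_num)] at h7
    have h6 : Q * L / 2 ≤ u + Q * L := by
      have := neg_abs_le u
      linarith
    rw [← mul_div_assoc, div_le_div_iff₀ ha (by positivity)]
    calc (√(2 * π * v))⁻¹ * v * (Q * √L) ≤ (2 * √L) * (Q * √L) :=
          mul_le_mul_of_nonneg_right (h4.trans h5) (by positivity)
      _ = 2 * Q * (√L * √L) := by ring
      _ = 2 * Q * L := by rw [Real.mul_self_sqrt hL0.le]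
      _ ≤ 4 * (u + Q * L) := by linarith
  calc (√(2 * π * v))⁻¹ * exp (-(u + Q * L) ^ 2 / (2 * v)) * (v / (u + Q * L))
      = exp (-(u + Q * L) ^ 2 / (2 * v)) * ((√(2 * π * v))⁻¹ * (v / (u + Q * L))) := by ring
    _ ≤ (exp (3 + |u| * Q) * exp (-L)) * (4 / (Q * √L)) := by
        apply mul_le_mul e1 e2 _ (by positivity)
        have : 0 ≤ v / (u + Q * L) := by positivity
        positivity

/-- the lines are low -/
theorem lineLow_prob (P : Measure Ω) {Q : ℝ} (hQ : 0 < Q) (hQ2 : 2 ≤ Q ^ 2) (u : ℝ) (m : ℕ)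
    {η : ℝ} (hη : 0 < η) : ∃ N, m ≤ N ∧ ∀ h : ℝ → ℂ → Ω → ℝ, IsGFF P h →
      P {ω | ¬ LineLow (fld Q h ω) u m N} ≤ ENNReal.ofReal η := by
  classical
  have hl := log_two_pos
  set A : ℝ := 4 * (2 ^ m + 1) * exp (3 + |u| * Q) * (4 / Q) with hA
  have hA0 : 0 < A := by positivity
  obtain ⟨N₀, hN₀⟩ := exists_nat_ge ((3 + 2 * |u| / Q + (A / η) ^ 2) / log 2)
  refine ⟨N₀ + m, Nat.le_add_left _ _, fun h hh => ?_⟩
  set N := N₀ + m with hN
  set L := N * log 2 with hL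
  have hLb : 3 + 2 * |u| / Q + (A / η) ^ 2 ≤ L := by
    rw [div_le_iff₀ hl] at hN₀
    have : (N₀ : ℝ) ≤ N := by rw [hN]; push_cast; linarith [Nat.cast_nonneg (α := ℝ) m]
    nlinarith
  have h1 : 0 ≤ 2 * |u| / Q := by positivity
  have h2 : 0 ≤ (A / η) ^ 2 := by positivity
  have hL3 : 3 ≤ L := by linarith
  have hLu : 2 * |u| ≤ Q * L := by
    have h3 : 2 * |u| / Q ≤ L := by linarith
    rw [div_le_iff₀ hQ] at h3
    linarith
  have hLA : A / η ≤ √L := by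
    apply Real.le_sqrt_of_sq_le
    linarith
  have hsq : 0 < √L := Real.sqrt_pos.2 (by linarith)
  have hsub : {ω | ¬ LineLow (fld Q h ω) u m N} ⊆
      ⋃ s ∈ (gridF m N).filter (fun s => InB N s.1 s.2), {ω | u < fld Q h ω ⟨N, s.1, s.2⟩} := by
    intro ω hω
    unfold LineLow at hω
    simp only [Set.mem_ofPred_eq] at hω
    push Not at hω
    obtain ⟨i, j, hin, hbd, hlt⟩ := hω
    simp only [Set.mem_iUnion]
    exact ⟨(i, j), Finset.mem_filter.2 ⟨mem_gridF (Nat.le_add_left _ _) hin hbd, hin⟩, hlt⟩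
  refine (measure_mono hsub).trans ((measure_biUnion_finset_le _ _).trans ?_)
  refine (Finset.sum_le_sum (g := fun _ => ENNReal.ofReal (exp (3 + |u| * Q) * exp (-L) *
    (4 / (Q * √L)))) fun s hs => one_low hh hQ hQ2 hL3 hLu (Finset.mem_filter.1 hs).2).trans ?_
  rw [Finset.sum_const, nsmul_eq_mul]
  have hcard : (((gridF m N).filter (fun s => InB N s.1 s.2)).card : ℝ) ≤ 4 * (2 ^ m + 1) * 2 ^ N :=
    (Nat.cast_le.2 (Finset.card_le_card (Finset.filter_subset _ _))).trans (card_gridF m N)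
  rw [← ENNReal.ofReal_natCast, ← ENNReal.ofReal_mul (Nat.cast_nonneg _)]
  apply ENNReal.ofReal_le_ofReal
  have h2N : (2 : ℝ) ^ N = exp L := by
    rw [hL, exp_nat_mul, exp_log (by norm_num)]
  calc (((gridF m N).filter (fun s => InB N s.1 s.2)).card : ℝ) *
        (exp (3 + |u| * Q) * exp (-L) * (4 / (Q * √L)))
      ≤ (4 * (2 ^ m + 1) * 2 ^ N) * (exp (3 + |u| * Q) * exp (-L) * (4 / (Q * √L))) :=
        mul_le_mul_of_nonneg_right hcard (by positivity)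
    _ = A / √L * (exp L * exp (-L)) := by
        rw [h2N, hA]
        field_simp
    _ = A / √L := by rw [← exp_add, add_neg_cancel, exp_zero, mul_one]
    _ ≤ η := by
        rw [div_le_iff₀ hsq]
        rw [div_le_iff₀ hη] at hLA
        linarith

theorem lineLow_ae {P : Measure Ω} {h : ℝ → ℂ → Ω → ℝ} (hh : IsGFF P h) {Q : ℝ} (hQ : 0 < Q)
    (hQ2 : 2 ≤ Q ^ 2) (u : ℝ) :
    ∀ᵐ ω ∂P, ∀ m' : ℕ, ∃ N', m' ≤ N' ∧ LineLow (fld Q h ω) u m' N' := by
  rw [ae_all_iff]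
  intro m'
  rw [ae_iff]
  refine le_antisymm ?_ bot_le
  refine ENNReal.le_of_forall_pos_le_add fun η hη _ => ?_
  obtain ⟨N, hN, h1⟩ := lineLow_prob P hQ hQ2 u m' (NNReal.coe_pos.2 hη)
  rw [zero_add]
  have h2 := h1 h hh
  rw [ENNReal.ofReal_coe_nnreal] at h2
  refine le_trans (measure_mono ?_) h2
  intro ω hω hcon
  exact hω ⟨N, hN, hcon⟩

end Pool.Agent.Q295.LQG
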