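import Pool.Agent.Q295.LQG.GHP

/-!
# No scaling limit of the dyadic tilings in the local Gromov-Hausdorff-Prokhorov topology
-/

set_option autoImplicit false

namespace Pool.Agent.Q295.LQG

open MeasureTheory ProbabilityTheory Real Filter Topology Pool.Agent.Y980 Pool.Agent.Y980.DSquare

variable {Ω Ω' : Type*} [MeasurableSpace Ω] [MeasurableSpace Ω'] {P : Measure Ω} {P' : Measure Ω'}
  {h : ℝ → ℂ → Ω → ℝ} {Q : ℝ} {a b : ℝ → ℝ} {X : ℝ → Ω → PMMSpace} {Y : Ω' → PMMSpace}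

/-- the base of the thresholds -/
theorem eventually_log_le (u₀ : ℝ) : ∀ᶠ ε in 𝓝[>] (0 : ℝ), 0 < ε ∧ log ε ≤ u₀ := by
  have h1 : ∀ᶠ ε in 𝓝[>] (0 : ℝ), ε < exp u₀ :=
    nhdsWithin_le_nhds (Iio_mem_nhds (exp_pos u₀))
  filter_upwards [h1, self_mem_nhdsWithin] with ε h2 h3
  have h3' : (0 : ℝ) < ε := h3
  exact ⟨h3', (log_le_iff_le_exp h3').2 h2.le⟩

theorem sq_lt_two_of_lt_sqrt (hQ : 0 < Q) (h : Q < √2) : Q ^ 2 < 2 := by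
  have h1 : Q ^ 2 < √2 ^ 2 := by
    apply pow_lt_pow_left₀ h hQ.le (by norm_num)
  rwa [Real.sq_sqrt (by norm_num)] at h1

theorem two_le_sq_of_sqrt_le (h : √2 ≤ Q) : 2 ≤ Q ^ 2 := by
  have h1 : √2 ^ 2 ≤ Q ^ 2 := pow_le_pow_left₀ (Real.sqrt_nonneg _) h 2
  rwa [Real.sq_sqrt (by norm_num)] at h1

/-- For `Q < √2`: infinite degree at the origin, with positive probability. -/
theorem infinite_root (hh : IsGFF P h) (hQ : 0 < Q) (hQ2 : Q < √2) :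
    ∀ᶠ ε in 𝓝[>] (0 : ℝ), ∃ A : Set Ω, 0 < P A ∧ ∀ ω ∈ A, ∃ R : tiling Q h ε ω,
      (0 : ℂ) ∈ R.1.toSet ∧ {T | (adjGraph (tiling Q h ε ω)).Adj R T}.Infinite := by
  obtain ⟨u₀, hu₀⟩ := infinite_prob hQ (sq_lt_two_of_lt_sqrt hQ hQ2) hh
  filter_upwards [eventually_log_le u₀] with ε hε
  obtain ⟨A, hA, hA'⟩ := hu₀ _ hε.2
  refine ⟨A, hA, fun ω hω => ?_⟩
  rw [tiling_eq Q h hε.1 ω]
  exact hA' ω hω

theorem sqrt_two_le (hh : IsGFF P h) (hQ : 0 < Q) (ha : ∀ ε, 0 < ε → 0 < a ε)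
    (hX : ∀ᶠ ε in 𝓝[>] (0 : ℝ), ∀ᵐ ω ∂P, IsRescaled (tiling Q h ε ω) (a ε) (b ε) (X ε ω)) :
    √2 ≤ Q := by
  by_contra hcon
  push Not at hcon
  obtain ⟨u₀, hu₀⟩ := infinite_prob hQ (sq_lt_two_of_lt_sqrt hQ hcon) hh
  obtain ⟨ε, ⟨hε0, hε⟩, hXε⟩ := ((eventually_log_le u₀).and hX).exists
  obtain ⟨A, hA, hA'⟩ := hu₀ _ hε
  have h1 : ∀ᵐ ω ∂P, ω ∉ A := by
    filter_upwards [hXε, fourRoots_ae hh hQ (log ε)] with ω h1 h2 hω
    rw [tiling_eq Q h hε0 ω] at h1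
    obtain ⟨R, hR, hinf⟩ := hA' ω hω
    exact not_rescaled_of_infinite h1 (ha ε hε0) h2 hR hinf
  have h2 : P A = 0 := by
    have := ae_iff.1 h1
    simpa using this
  exact hA.ne' h2

/-- The packing probabilities of the limit. -/
theorem pack_limit [IsProbabilityMeasure P'] (hconv : ConvergesInLaw P X P' Y) {p : ENNReal}
    (hp : 0 < p) (hfreq : ∀ K : ℕ, ∃ᶠ ε in 𝓝[>] (0 : ℝ), p ≤ P {ω | X ε ω ∈ CK K}) : False := by
  have h1 : ∀ K, p ≤ P' {ω | Y ω ∈ CK K} := by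
    intro K
    refine le_trans ?_ (hconv _ (closed_CK K)).2
    exact le_limsup_of_frequently_le (hfreq K)
  have hanti : Antitone (fun K => {ω | Y ω ∈ CK K}) := fun K K' hK ω hω => CK_anti hK hω
  have h2 := hanti.measure_iInter (μ := P') (fun K => (hconv _ (closed_CK K)).1)
    ⟨0, measure_ne_top _ _⟩
  have h3 : ⋂ K, {ω | Y ω ∈ CK K} = (∅ : Set Ω') := by
    rw [Set.eq_empty_iff_forall_notMem]
    intro ω hω
    obtain ⟨K, hK⟩ := not_all_CK (Y ω)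
    exact hK (Set.mem_iInter.1 hω K)
  rw [h3, measure_empty] at h2
  have h4 : p ≤ 0 := by
    rw [h2]
    exact le_iInf h1
  exact absurd h4 (not_le.2 hp)

/-- The constants `a ε` are bounded below. -/
theorem bounded_below [IsProbabilityMeasure P'] (hh : IsGFF P h) (hQ : 0 < Q) (hQ1 : √2 ≤ Q)
    (hQ2 : Q < 2) (ha : ∀ ε, 0 < ε → 0 < a ε)
    (hX : ∀ᶠ ε in 𝓝[>] (0 : ℝ), ∀ᵐ ω ∂P, IsRescaled (tiling Q h ε ω) (a ε) (b ε) (X ε ω))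
    (hconv : ConvergesInLaw P X P' Y) : ∃ c : ℝ, 0 < c ∧ ∀ᶠ ε in 𝓝[>] (0 : ℝ), c ≤ a ε := by
  by_contra hcon
  push Not at hcon
  obtain ⟨C, p₁, hp₁, hK⟩ := main_prob P hQ (two_le_sq_of_sqrt_le hQ1) hQ2
  refine pack_limit hconv (p := ENNReal.ofReal p₁) (by rwa [ENNReal.ofReal_pos]) fun K => ?_
  obtain ⟨m, N, hmN, u₀, hu₀⟩ := hK K
  have hM : (0 : ℝ) < 1 / ((2 ^ (N + 1) : ℕ) + 1) := by positivity
  have h1 := (hcon _ hM).and_eventually ((eventually_log_le u₀).and hX)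
  refine h1.mono fun ε hε => ?_
  obtain ⟨h2, ⟨h3, h4⟩, h5⟩ := hε
  refine (hu₀ _ h4 h hh).trans (measure_mono_ae ?_)
  filter_upwards [h5, fourRoots_ae hh hQ (log ε)] with ω h6 h7 hω
  obtain ⟨n, hn⟩ := Set.mem_iUnion.1 hω
  rw [tiling_eq Q h h3 ω] at h6
  have h8 := far_of_Ev hmN hn
  refine mem_CK_of_far h6 (ha ε h3) h7 (R₀ := ⟨_, root_of_Ev hn⟩)
    (zero_mem.2 ⟨Or.inl rfl, Or.inl rfl⟩) h8 ?_
  rw [lt_div_iff₀ (by positivity)] at h2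
  exact h2.le

theorem limit_sep [IsProbabilityMeasure P'] (hh : IsGFF P h) (ha : ∀ ε, 0 < ε → 0 < a ε)
    (hX : ∀ᶠ ε in 𝓝[>] (0 : ℝ), ∀ᵐ ω ∂P, IsRescaled (tiling Q h ε ω) (a ε) (b ε) (X ε ω))
    (hconv : ConvergesInLaw P X P' Y) {c : ℝ} (hc : ∀ᶠ ε in 𝓝[>] (0 : ℝ), c ≤ a ε) :
    ∀ᵐ ω ∂P', Y ω ∈ Sep c := by
  have hP := hh.gaussian.isProbabilityMeasure
  obtain ⟨h1, h2⟩ := hconv _ (closed_Sep c)
  have h3 : ∀ᶠ ε in 𝓝[>] (0 : ℝ), (1 : ENNReal) ≤ P {ω | X ε ω ∈ Sep c} := by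
    filter_upwards [hX, hc, self_mem_nhdsWithin] with ε e1 e2 e3
    have h4 : ∀ᵐ ω ∂P, ω ∈ {ω | X ε ω ∈ Sep c} := by
      filter_upwards [e1] with ω hω
      exact mem_Sep hω (ha ε e3) e2
    rw [← measure_univ (μ := P)]
    refine measure_mono_ae ?_
    filter_upwards [h4] with ω hω _
    exact hω
  have h5 : (1 : ENNReal) ≤ P' {ω | Y ω ∈ Sep c} :=
    (le_limsup_of_frequently_le h3.frequently).trans h2
  have h6 : P' {ω | Y ω ∈ Sep c} = 1 := le_antisymm prob_le_one h5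
  exact (mem_ae_iff_prob_eq_one₀ h1).2 h6

end Pool.Agent.Q295.LQG
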