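import Pool.Agent.Q295.LQG.Inf

/-!
# Closed sets of the local Gromov-Hausdorff-Prokhorov topology
-/

set_option autoImplicit false

namespace Pool.Agent.Q295.LQG

open MeasureTheory ProbabilityTheory Real Filter Topology Pool.Agent.Y980 Pool.Agent.Y980.DSquare

/-- `K` points of mutual distance at least `1` within distance `4` of the base point -/
def CK (K : ℕ) : Set PMMSpace :=
  {X | ∃ f : Fin K → X.X, (∀ i, dist (f i) X.o ≤ 4) ∧ ∀ i j, i ≠ j → 1 ≤ dist (f i) (f j)}

/-- all the distances are at least `c` -/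
def Sep (c : ℝ) : Set PMMSpace := {X | ∀ p q : X.X, p ≠ q → c ≤ dist p q}

theorem closed_CK (K : ℕ) : IsClosedGHP (CK K) := by
  intro Xs X hXs hlim
  obtain ⟨Z, hZ, hZp, f, g, hf, hg, ho, hH, _⟩ := hlim
  choose F hF1 hF2 using hXs
  set x : ℕ → (Fin K → Z) := fun n i => f n (F n i) with hx
  have hbd : ∀ᶠ n in atTop, x n ∈ Metric.closedBall (fun _ : Fin K => g X.o) 5 := by
    have h1 : ∀ᶠ n in atTop, dist (f n (Xs n).o) (g X.o) < 1 :=
      ho.eventually (Metric.ball_mem_nhds _ one_pos)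
    filter_upwards [h1] with n hn
    rw [Metric.mem_closedBall, dist_pi_le_iff (by norm_num)]
    intro i
    calc dist (x n i) (g X.o) ≤ dist (f n (F n i)) (f n (Xs n).o) + dist (f n (Xs n).o) (g X.o) :=
          dist_triangle _ _ _
      _ ≤ 5 := by rw [(hf n).dist_eq]; linarith [hF1 n i]
  obtain ⟨z, _, φ, hφ, hz⟩ := tendsto_subseq_of_frequently_bounded Metric.isBounded_closedBall
    hbd.frequently
  have hzi : ∀ i, Tendsto (fun n => f (φ n) (F (φ n) i)) atTop (𝓝 (z i)) := fun i =>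
    (tendsto_pi_nhds.1 hz) i
  have hcl : IsClosed (Set.range g) := hg.isClosedEmbedding.isClosed_range
  have hmem : ∀ i, z i ∈ Set.range g := by
    intro i
    rw [← hcl.closure_eq, Metric.mem_closure_iff]
    intro δ hδ
    have h1 : ∀ᶠ n in atTop, dist (f (φ n) (F (φ n) i)) (z i) < δ / 2 :=
      (hzi i).eventually (Metric.ball_mem_nhds _ (by positivity))
    have h2 := hφ.tendsto_atTop.eventually (hH 4 (δ / 2) (by positivity))
    obtain ⟨n, hn1, hn2⟩ := (h1.and h2).exists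
    obtain ⟨y, hy⟩ := hn2.1 (F (φ n) i) (hF1 _ i)
    refine ⟨g y, ⟨y, rfl⟩, ?_⟩
    calc dist (z i) (g y) ≤ dist (z i) (f (φ n) (F (φ n) i)) + dist (f (φ n) (F (φ n) i)) (g y) :=
          dist_triangle _ _ _
      _ < δ / 2 + δ / 2 := by rw [dist_comm (z i)]; exact add_lt_add hn1 hy
      _ = δ := by ring
  choose y hy using hmem
  refine ⟨y, fun i => ?_, fun i j hij => ?_⟩
  · rw [← hg.dist_eq, hy i]
    have h1 : Tendsto (fun n => dist (f (φ n) (F (φ n) i)) (f (φ n) (Xs (φ n)).o)) atTop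
        (𝓝 (dist (z i) (g X.o))) := (hzi i).dist (ho.comp hφ.tendsto_atTop)
    refine le_of_tendsto h1 (Eventually.of_forall fun n => ?_)
    rw [(hf _).dist_eq]
    exact hF1 _ i
  · rw [← hg.dist_eq, hy i, hy j]
    have h1 : Tendsto (fun n => dist (f (φ n) (F (φ n) i)) (f (φ n) (F (φ n) j))) atTop
        (𝓝 (dist (z i) (z j))) := (hzi i).dist (hzi j)
    refine ge_of_tendsto h1 (Eventually.of_forall fun n => ?_)
    rw [(hf _).dist_eq]
    exact hF2 _ i j hij

theorem closed_Sep (c : ℝ) : IsClosedGHP (Sep c) := by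
  intro Xs X hXs hlim
  obtain ⟨Z, hZ, hZp, f, g, hf, hg, ho, hH, _⟩ := hlim
  intro p q hpq
  by_contra hcon
  push Not at hcon
  set d := dist p q with hd
  have hd0 : 0 < d := dist_pos.2 hpq
  set δ := min d (c - d) / 4 with hδ
  have hδ0 : 0 < δ := by
    have : 0 < min d (c - d) := lt_min hd0 (by linarith)
    positivity
  have hδ1 : 4 * δ ≤ d := by
    have := min_le_left d (c - d)
    rw [hδ]; linarith
  have hδ2 : 4 * δ ≤ c - d := by
    have := min_le_right d (c - d)
    rw [hδ]; linarith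
  obtain ⟨n, hn⟩ := (hH (max (dist p X.o) (dist q X.o)) δ hδ0).exists
  obtain ⟨p', hp'⟩ := hn.2 p (le_max_left _ _)
  obtain ⟨q', hq'⟩ := hn.2 q (le_max_right _ _)
  have h1 : dist p' q' = dist (f n p') (f n q') := ((hf n).dist_eq _ _).symm
  have h2 : dist (g p) (g q) = d := hg.dist_eq _ _
  have h3 : dist p' q' ≤ d + 2 * δ := by
    rw [h1]
    calc dist (f n p') (f n q') ≤ dist (f n p') (g p) + dist (g p) (g q) + dist (g q) (f n q') :=
          dist_triangle4 _ _ _ _
      _ ≤ d + 2 * δ := by rw [h2, dist_comm (g q)]; linarith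
  have h4 : d ≤ dist p' q' + 2 * δ := by
    rw [h1, ← h2]
    calc dist (g p) (g q) ≤ dist (g p) (f n p') + dist (f n p') (f n q') + dist (f n q') (g q) :=
          dist_triangle4 _ _ _ _
      _ ≤ _ := by rw [dist_comm (g p)]; linarith
  have hne : p' ≠ q' := by
    intro he
    rw [he, dist_self] at h4
    linarith
  have := hXs n p' q' hne
  linarith

theorem sep_finite {X : Type*} [MetricSpace X] [ProperSpace X] (o : X) (r : ℝ) {c : ℝ}
    (hc : 0 < c) : ∃ n : ℕ, ∀ t : Finset X, (∀ x ∈ t, dist x o ≤ r) →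
      (∀ x ∈ t, ∀ y ∈ t, x ≠ y → c ≤ dist x y) → t.card ≤ n := by
  classical
  obtain ⟨s, hs, hcov⟩ := Metric.totallyBounded_iff.1
    (isCompact_closedBall o r).totallyBounded (c / 2) (by positivity)
  refine ⟨hs.toFinset.card, fun t ht1 ht2 => ?_⟩
  have h1 : ∀ x : X, ∃ y, x ∈ t → y ∈ s ∧ dist x y < c / 2 := by
    intro x
    by_cases hx : x ∈ t
    · have := hcov (Metric.mem_closedBall.2 (ht1 x hx))
      simp only [Set.mem_iUnion, Metric.mem_ball] at this
      obtain ⟨y, hy, hd⟩ := this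
      exact ⟨y, fun _ => ⟨hy, hd⟩⟩
    · exact ⟨x, fun h => absurd h hx⟩
  choose φ hφ using h1
  refine Finset.card_le_card_of_injOn φ (fun x hx => ?_) (fun x hx y hy hxy => ?_)
  · exact (Set.Finite.mem_toFinset _).2 (hφ x hx).1
  · by_contra hne
    have h2 := ht2 x hx y hy hne
    have h3 := (hφ x hx).2
    have h4 := (hφ y hy).2
    rw [← hxy] at h4
    have h5 := dist_triangle_right x y (φ x)
    linarith

theorem not_all_CK (X : PMMSpace) : ∃ K, X ∉ CK K := by
  classical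
  obtain ⟨n, hn⟩ := sep_finite X.o 4 (show (0 : ℝ) < 1 by norm_num)
  refine ⟨n + 1, ?_⟩
  rintro ⟨f, hf1, hf2⟩
  have hinj : Function.Injective f := by
    intro i j hij
    by_contra hne
    have := hf2 i j hne
    rw [hij, dist_self] at this
    linarith
  have h1 := hn (Finset.univ.image f) (fun x hx => by
    obtain ⟨i, _, rfl⟩ := Finset.mem_image.1 hx
    exact hf1 i) (fun x hx y hy hxy => by
    obtain ⟨i, _, rfl⟩ := Finset.mem_image.1 hx
    obtain ⟨j, _, rfl⟩ := Finset.mem_image.1 hy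
    exact hf2 i j (fun h => hxy (by rw [h])))
  rw [Finset.card_image_of_injective _ hinj, Finset.card_univ, Fintype.card_fin] at h1
  omega

theorem CK_anti : Antitone CK := by
  intro K K' hK X hX
  obtain ⟨f, hf1, hf2⟩ := hX
  exact ⟨fun i => f (Fin.castLE hK i), fun i => hf1 _, fun i j hij => hf2 _ _ (fun h =>
    hij (Fin.castLE_injective hK h))⟩

/-! ### The rescaled spaces -/

section

variable {x : DSquare → ℝ} {u a b : ℝ} {X : PMMSpace}

theorem mem_CK_of_far (hX : IsRescaled (tiles x u) a b X) (ha : 0 < a) (hF : FourRoots x u)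
    {R₀ : tiles x u} (hR₀ : (0 : ℂ) ∈ R₀.1.toSet) {K M : ℕ}
    (hfar : Far (adjGraph (tiles x u)) R₀ K M) (haM : a * (M + 1) ≤ 1) : X ∈ CK K := by
  obtain ⟨R, e, hR, heo, hd, _⟩ := hX
  obtain ⟨w, hw⟩ := roots_close hF hR hR₀
  set ρ := ⌊2 / a⌋₊ with hρ
  have h2a : 0 ≤ 2 / a := by positivity
  have hρ1 : (ρ : ℝ) ≤ 2 / a := Nat.floor_le h2a
  have hρ2 : 2 / a < ρ + 1 := Nat.lt_floor_add_one _
  have hM0 : (0 : ℝ) ≤ M := Nat.cast_nonneg M
  have ha1 : a ≤ 1 := by nlinarith
  have hMρ : M ≤ ρ := by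
    apply Nat.le_floor
    rw [le_div_iff₀ ha]
    nlinarith
  rw [le_div_iff₀ ha] at hρ1
  rw [div_lt_iff₀ ha] at hρ2
  obtain ⟨f, hf⟩ := hfar ρ hMρ
  have hreach : ∀ i, (adjGraph (tiles x u)).Reachable R (f i) := fun i =>
    (SimpleGraph.Walk.reachable w).trans (hf i).1
  refine ⟨fun i => e ⟨f i, hreach i⟩, fun i => ?_, fun i j hij => ?_⟩
  · rw [← heo, hd]
    simp only
    have h1 : (adjGraph (tiles x u)).dist (f i) R ≤ ρ + 2 := by
      obtain ⟨w', hw'⟩ := (hf i).1.exists_walk_length_eq_dist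
      rw [SimpleGraph.dist_comm]
      refine (SimpleGraph.dist_le (w.append w')).trans ?_
      rw [SimpleGraph.Walk.length_append, hw', (hf i).2.1]
      omega
    have h2 : ((adjGraph (tiles x u)).dist (f i) R : ℝ) ≤ ρ + 2 := by exact_mod_cast h1
    nlinarith
  · rw [hd]
    simp only
    have h1 := (hf i).2.2 j hij
    have h2 : (2 : ℝ) * (ρ - M) ≤ (adjGraph (tiles x u)).dist (f i) (f j) := by
      rw [← Nat.cast_sub hMρ]
      exact_mod_cast h1
    nlinarith

theorem not_rescaled_of_infinite (hX : IsRescaled (tiles x u) a b X) (ha : 0 < a)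
    (hF : FourRoots x u) {R₀ : tiles x u} (hR₀ : (0 : ℂ) ∈ R₀.1.toSet)
    (hinf : {T | (adjGraph (tiles x u)).Adj R₀ T}.Infinite) : False := by
  classical
  obtain ⟨R, e, hR, heo, hd, _⟩ := hX
  obtain ⟨w, hw⟩ := roots_close hF hR hR₀
  obtain ⟨n, hn⟩ := sep_finite X.o (a * 3) ha
  obtain ⟨t, htsub, htcard⟩ := hinf.exists_subset_card_eq (n + 1)
  have hreach : ∀ T ∈ t, (adjGraph (tiles x u)).Reachable R T := fun T hT =>
    (SimpleGraph.Walk.reachable w).trans (SimpleGraph.Adj.reachable (htsub hT))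
  set g : {T // T ∈ t} → X.X := fun T => e ⟨T.1, hreach T.1 T.2⟩ with hg
  have hginj : Function.Injective g := by
    intro T T' h
    have h1 := e.injective h
    apply Subtype.ext
    exact congrArg (fun y => y.1) h1
  have h1 := hn (Finset.univ.image g) (fun y hy => by
    obtain ⟨T, _, rfl⟩ := Finset.mem_image.1 hy
    rw [← heo, hd]
    simp only
    have h1 : (adjGraph (tiles x u)).dist T.1 R ≤ 3 := by
      rw [SimpleGraph.dist_comm]
      refine (SimpleGraph.dist_le (w.concat (htsub T.2))).trans ?_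
      rw [SimpleGraph.Walk.length_concat]
      omega
    have h2 : ((adjGraph (tiles x u)).dist T.1 R : ℝ) ≤ 3 := by exact_mod_cast h1
    nlinarith) (fun y hy y' hy' hyy => by
    obtain ⟨T, _, rfl⟩ := Finset.mem_image.1 hy
    obtain ⟨T', _, rfl⟩ := Finset.mem_image.1 hy'
    rw [hd]
    simp only
    have h1 : 0 < (adjGraph (tiles x u)).dist T.1 T'.1 := by
      apply SimpleGraph.Reachable.pos_dist_of_ne
      · exact (hreach T.1 T.2).symm.trans (hreach T'.1 T'.2)
      · intro h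
        exact hyy (by rw [Subtype.ext h])
    have h2 : (1 : ℝ) ≤ (adjGraph (tiles x u)).dist T.1 T'.1 := by exact_mod_cast h1
    nlinarith)
  rw [Finset.card_image_of_injective _ hginj, Finset.card_univ, Fintype.card_coe, htcard] at h1
  omega

theorem mem_Sep {𝒯 : Set DSquare} (hX : IsRescaled 𝒯 a b X) (ha : 0 < a) {c : ℝ} (hc : c ≤ a) :
    X ∈ Sep c := by
  obtain ⟨R, e, hR, heo, hd, _⟩ := hX
  intro p q hpq
  obtain ⟨S, rfl⟩ := e.surjective p
  obtain ⟨T, rfl⟩ := e.surjective q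
  rw [hd]
  have h1 : 0 < (adjGraph 𝒯).dist S.1 T.1 := by
    apply SimpleGraph.Reachable.pos_dist_of_ne
    · exact S.2.symm.trans T.2
    · intro h
      exact hpq (by rw [Subtype.ext h])
  have h2 : (1 : ℝ) ≤ (adjGraph 𝒯).dist S.1 T.1 := by exact_mod_cast h1
  nlinarith

end

/-- the tiling in terms of the logarithms of the masses -/
theorem tiling_eq {Ω : Type*} (Q : ℝ) (h : ℝ → ℂ → Ω → ℝ) {ε : ℝ} (hε : 0 < ε) (ω : Ω) :
    tiling Q h ε ω = tiles (fld Q h ω) (log ε) := by
  have hm : ∀ S, mass Q h ω S = exp (fld Q h ω S) := by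
    intro S
    unfold mass fld sqv
    rw [side_eq S, ← exp_mul, ← exp_add]
    congr 1
    rw [← side_eq S]
    ring
  unfold tiling
  ext S
  rw [mem_tiles, mem_tiles]
  simp only [hm]
  rw [le_log_iff_exp_le hε]
  simp only [log_lt_iff_lt_exp hε]

end Pool.Agent.Q295.LQG
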