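import Pool.Agent.Q295.LQG.CovZ

/-!
# Elementary estimates for one Gaussian variable; the uniform form of the second moment bound
-/

set_option autoImplicit false

namespace Pool.Agent.Q295.LQG

open MeasureTheory ProbabilityTheory Real Pool.Agent.Y980 Pool.Agent.Y980.DSquare

variable {Ω : Type*} [MeasurableSpace Ω] {P : Measure Ω}

theorem gauss_law {X : Ω → ℝ} (hX : HasGaussianLaw X P) (hm : Measurable X)
    (h0 : ∫ ω, X ω ∂P = 0) {v : ℝ} (hv : Var[X; P] = v) (hv0 : 0 < v) {s : Set ℝ}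
    (hs : MeasurableSet s) :
    P (X ⁻¹' s) = ∫⁻ x in s, ENNReal.ofReal ((√(2 * π * v))⁻¹ * exp (-x ^ 2 / (2 * v))) := by
  have h1 := hX.map_eq_gaussianReal
  rw [h0, hv] at h1
  have hv1 : v.toNNReal ≠ 0 := by
    rw [Ne, Real.toNNReal_eq_zero, not_le]; exact hv0
  rw [← Measure.map_apply hm hs, h1, gaussianReal_apply _ hv1]
  refine setLIntegral_congr_fun hs fun x _ => ?_
  simp only [gaussianPDF, gaussianPDFReal, Real.coe_toNNReal _ hv0.le, sub_zero]

theorem gauss_window {X : Ω → ℝ} (hX : HasGaussianLaw X P) (hm : Measurable X)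
    (h0 : ∫ ω, X ω ∂P = 0) {v : ℝ} (hv : Var[X; P] = v) (hv0 : 0 < v) {y b : ℝ} (hy : |y| ≤ b) :
    ENNReal.ofReal ((√(2 * π * v))⁻¹ * exp (-(b + 1) ^ 2 / (2 * v))) ≤
      P {ω | X ω ∈ Set.Icc y (y + 1)} := by
  have h1 := gauss_law hX hm h0 hv hv0 (measurableSet_Icc (a := y) (b := y + 1))
  change _ ≤ P (X ⁻¹' Set.Icc y (y + 1))
  rw [h1]
  have h2 : ∫⁻ _ in Set.Icc y (y + 1), ENNReal.ofReal ((√(2 * π * v))⁻¹ *
      exp (-(b + 1) ^ 2 / (2 * v))) = ENNReal.ofReal ((√(2 * π * v))⁻¹ *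
      exp (-(b + 1) ^ 2 / (2 * v))) := by
    rw [setLIntegral_const, Real.volume_Icc, add_sub_cancel_left, ENNReal.ofReal_one, mul_one]
  rw [← h2]
  refine setLIntegral_mono' measurableSet_Icc fun x hx => ?_
  apply ENNReal.ofReal_le_ofReal
  apply mul_le_mul_of_nonneg_left _ (by positivity)
  apply exp_le_exp.2
  rw [abs_le] at hy
  obtain ⟨x1, x2⟩ := hx
  have h3 : x ^ 2 ≤ (b + 1) ^ 2 := sq_le_sq' (by linarith) (by linarith)
  rw [div_le_div_iff_of_pos_right (by positivity)]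
  linarith

theorem gauss_pos {X : Ω → ℝ} (hX : HasGaussianLaw X P) (hm : Measurable X)
    (h0 : ∫ ω, X ω ∂P = 0) {v : ℝ} (hv : Var[X; P] = v) (hv0 : 0 < v) (t : ℝ) :
    ENNReal.ofReal ((√(2 * π * v))⁻¹ * exp (-(|t| + 2) ^ 2 / (2 * v))) ≤
      P {ω | X ω ≤ t} := by
  have h1 := gauss_window (y := t - 1) (b := |t| + 1) hX hm h0 hv hv0 (by
    calc |t - 1| ≤ |t| + |1| := abs_sub _ _
      _ = |t| + 1 := by rw [abs_one])
  rw [add_assoc, one_add_one_eq_two] at h1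
  refine h1.trans (measure_mono fun ω hω => ?_)
  simp only [Set.mem_ofPred_eq, Set.mem_Icc] at hω ⊢
  linarith [hω.2]

/-- Mills' bound -/
theorem gauss_mills {X : Ω → ℝ} (hX : HasGaussianLaw X P) (hm : Measurable X)
    (h0 : ∫ ω, X ω ∂P = 0) {v : ℝ} (hv : Var[X; P] = v) (hv0 : 0 < v) {a : ℝ} (ha : 0 < a) :
    P {ω | a < X ω} ≤
      ENNReal.ofReal ((√(2 * π * v))⁻¹ * exp (-a ^ 2 / (2 * v)) * (v / a)) := by
  have h1 := gauss_law hX hm h0 hv hv0 (measurableSet_Ioi (a := a))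
  change P (X ⁻¹' Set.Ioi a) ≤ _
  rw [h1]
  set c := (√(2 * π * v))⁻¹ * exp (-a ^ 2 / (2 * v)) with hc
  have hc0 : 0 ≤ c := by positivity
  have hneg : -(a / v) < 0 := by
    have : 0 < a / v := by positivity
    linarith
  have h2 : IntegrableOn (fun x : ℝ => c * exp (a ^ 2 / v) * exp (-(a / v) * x)) (Set.Ioi a) :=
    (integrableOn_exp_mul_Ioi hneg a).const_mul _
  have h3 : ∫ x in Set.Ioi a, c * exp (a ^ 2 / v) * exp (-(a / v) * x) = c * (v / a) := by
    rw [integral_const_mul, integral_exp_mul_Ioi hneg]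
    have e : -(a / v) * a = -(a ^ 2 / v) := by ring
    rw [e, exp_neg]
    have := (exp_pos (a ^ 2 / v)).ne'
    field_simp
  rw [← h3, ofReal_integral_eq_lintegral_ofReal h2
    (Filter.Eventually.of_forall fun x => by positivity)]
  refine setLIntegral_mono' measurableSet_Ioi fun x hx => ?_
  apply ENNReal.ofReal_le_ofReal
  have e5 : c * exp (a ^ 2 / v) * exp (-(a / v) * x) =
      (√(2 * π * v))⁻¹ * exp (-a ^ 2 / (2 * v) + (a ^ 2 / v + -(a / v) * x)) := by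
    rw [hc, exp_add, exp_add]
    ring
  rw [e5]
  apply mul_le_mul_of_nonneg_left _ (by positivity)
  apply exp_le_exp.2
  have e : -a ^ 2 / (2 * v) + (a ^ 2 / v + -(a / v) * x) - -x ^ 2 / (2 * v) =
      (x - a) ^ 2 / (2 * v) := by
    field_simp
    ring
  have : 0 ≤ (x - a) ^ 2 / (2 * v) := by positivity
  linarith

/-- Chebyshev -/
theorem gauss_cheb {X : Ω → ℝ} [IsProbabilityMeasure P] (hX : MemLp X 2 P)
    (h0 : ∫ ω, X ω ∂P = 0) {v L : ℝ} (hv : Var[X; P] ≤ v) (hL : 0 < L) :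
    P {ω | L ≤ |X ω|} ≤ ENNReal.ofReal (v / L ^ 2) := by
  have h1 := meas_ge_le_variance_div_sq hX hL
  simp only [h0, sub_zero] at h1
  refine h1.trans (ENNReal.ofReal_le_ofReal ?_)
  exact div_le_div_of_nonneg_right hv (by positivity)

/-- the second moment bound, uniformly in the field -/
theorem surv_prob' (P : Measure Ω) {D : ℕ → Finset (ℤ × ℤ)} {Q d : ℝ} (hD : Fam D d) (hQ : 0 < Q)
    (hd : Q ^ 2 / 2 < d) :
    ∃ C₀ p : ℝ, 0 < p ∧ ∀ C, C₀ < C → ∀ K : ℕ, ∃ m : ℕ, ∀ h : ℝ → ℂ → Ω → ℝ, IsGFF P h →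
      ∀ n, m ≤ n → ENNReal.ofReal p ≤ P {ω | K ≤ (surv D C m n (fld Q h ω)).card} := by
  classical
  obtain ⟨δ, hδ, hγ⟩ := exists_delta hQ hd
  set α := Q + δ with hα
  have hα0 : 0 < α := by positivity
  have hl := log_two_pos
  set r₁ := exp (-(δ ^ 2 / 2 * log 2)) with hr₁
  have hr₁1 : r₁ < 1 := by
    rw [hr₁, exp_lt_one_iff]
    have : 0 < δ ^ 2 / 2 * log 2 := by positivity
    linarith
  set r := exp (-((d - (α ^ 2 / 2 + α * δ)) * log 2)) with hr
  have hr1 : r < 1 := by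
    rw [hr, exp_lt_one_iff]
    have : 0 < (d - (α ^ 2 / 2 + α * δ)) * log 2 := mul_pos (by linarith) hl
    linarith
  have hr0 : 0 < r := exp_pos _
  set C₀ : ℝ := (α * δ * 4 + δ ^ 2 / 2 * 4 - log ((1 - r₁) / 4)) / δ with hC₀
  have hC : 2 * exp (α * δ * 4 + δ ^ 2 / 2 * 4 - δ * C₀) / (1 - r₁) ≤ 1 / 2 := by
    have e1 : δ * C₀ = α * δ * 4 + δ ^ 2 / 2 * 4 - log ((1 - r₁) / 4) := by
      rw [hC₀]; field_simp
    have e2 : α * δ * 4 + δ ^ 2 / 2 * 4 - δ * C₀ = log ((1 - r₁) / 4) := by rw [e1]; ring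
    rw [e2, exp_log (by linarith), div_le_iff₀ (by linarith)]
    linarith
  set C₂ : ℝ := exp (7 / 2 * α ^ 2 * 4 + α * C₀) * (4 / (1 - r)) with hC₂
  have hC₂0 : 0 < C₂ := by
    have : 0 < 1 - r := by linarith
    positivity
  refine ⟨C₀, 1 / (16 * C₂), by positivity, ?_⟩
  intro C hCC K
  obtain ⟨m, hm⟩ : ∃ m : ℕ, (K : ℝ) * (C₂ * r ^ m) ≤ 1 / 16 := by
    obtain ⟨m, hm⟩ := exists_pow_lt_of_lt_one
      (show (0 : ℝ) < 1 / (16 * ((K + 1) * C₂)) by positivity) hr1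
    refine ⟨m, ?_⟩
    have h1 : r ^ m * (16 * ((K + 1) * C₂)) < 1 := by
      rwa [lt_div_iff₀ (by positivity)] at hm
    have h2 : 0 < r ^ m := by positivity
    have h3 : 0 < C₂ * r ^ m := by positivity
    nlinarith
  refine ⟨m, fun h hh n hmn => ?_⟩
  have hg : IsGaussianProcess (sqv h) P := isGaussianProcess_sqv hh
  have h0 : ∀ S, ∫ ω, sqv h S ω ∂P = 0 := mean_sqv hh
  have hm' : ∀ S, Measurable (sqv h S) := measurable_sqv hh
  have key := second_step (K := K) (m₀ := m) hg h0 hm' (tree_of_fam hh hD n) hα0 hδ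
    (by norm_num : (0 : ℝ) < 4) hγ hC (le_refl C₂) hm
    (fun s => (s.1 / 2 ^ (n - m), s.2 / 2 ^ (n - m))) (by
      intro s _ s' _ he
      simp only [Prod.mk.injEq] at he
      have h1 := natAbs_lt_of_ediv he.1
      have h2 := natAbs_lt_of_ediv he.2
      have h3 : Nat.clog 2 (max (s.1 - s'.1).natAbs (s.2 - s'.2).natAbs + 1) ≤ n - m := by
        rw [Nat.clog_le_iff_le_pow (by norm_num)]
        have := max_lt h1 h2
        omega
      unfold lvs
      omega)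
  refine key.trans (measure_mono ?_)
  intro ω hω
  refine le_trans hω (Finset.card_le_card ?_)
  intro v hv
  obtain ⟨s, hs, rfl⟩ := (@Finset.mem_image _ _ (fun a b => Classical.propDecidable (a = b))
    _ _ _).1 hv
  rw [Finset.mem_filter] at hs
  obtain ⟨hs, hgood⟩ := hs
  rw [mem_surv]
  obtain ⟨q, rfl⟩ := Nat.exists_eq_add_of_le hmn
  refine ⟨?_, s, hs, rfl, rfl, ?_⟩
  · rw [Nat.add_sub_cancel_left]
    exact hD.anc m q s hs
  · intro j hj
    have h1 := hgood j hj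
    rw [abs_le] at h1
    unfold fld
    have h2 : (((ans (m + q) s j).n : ℤ) : ℝ) = j := by simp [ans]
    rw [h2]
    have h3 := h1.1
    have h4 : α * j * log 2 = Q * j * log 2 + δ * j * log 2 := by rw [hα]; ring
    linarith

end Pool.Agent.Q295.LQG
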