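import Pool.Agent.Q295.LQG.Scale

/-!
# Residuals of a Gaussian process are independent of the variable
-/

set_option autoImplicit false

namespace Pool.Agent.Q295.LQG

open MeasureTheory ProbabilityTheory Real Pool.Agent.Y980 Pool.Agent.Y980.DSquare

variable {Ω : Type*} [MeasurableSpace Ω] {P : Measure Ω} {h : ℝ → ℂ → Ω → ℝ}

omit [MeasurableSpace Ω] in
theorem lin_smul {T : Type*} {g : T → Ω → ℝ} (c : ℝ) (f : T →₀ ℝ) (ω : Ω) :
    lin g (c • f) ω = c * lin g f ω := by
  unfold lin
  rw [Finsupp.sum_smul_index' (fun t => by simp), Finsupp.mul_sum]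
  simp only [smul_eq_mul, mul_assoc]

theorem measurable_lin {T : Type*} {g : T → Ω → ℝ} (hm : ∀ t, Measurable (g t)) (f : T →₀ ℝ) :
    Measurable (lin g f) := by
  unfold lin Finsupp.sum
  exact Finset.measurable_fun_sum _ fun t _ => (hm t).const_mul _

theorem indep_resid {T : Type*} {g : T → Ω → ℝ} (hg : IsGaussianProcess g P)
    (hm : ∀ t, Measurable (g t)) {ι : Type*} (idx : ι → T) (c : ι → ℝ) {Z : Ω → ℝ} (f0 : T →₀ ℝ)
    (hZ : ∀ ω, Z ω = lin g f0 ω)
    (hcov : ∀ i, cov[g (idx i), Z; P] = c i * Var[Z; P]) :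
    IndepFun (fun ω i => g (idx i) ω - c i * Z ω) Z P := by
  have hp := hg.isProbabilityMeasure
  have hZm : Measurable Z := by
    have : Z = lin g f0 := funext hZ
    rw [this]
    exact measurable_lin hm f0
  have h1 := (isGaussianProcess_lin hg).comp_right
    (Sum.elim (fun i => Finsupp.single (idx i) (1 : ℝ) + (-c i) • f0) (fun _ : Unit => f0))
  have h2 : IsGaussianProcess (Sum.elim (fun i ω => g (idx i) ω - c i * Z ω)
      (fun _ : Unit => Z)) P := by
    refine h1.congr fun s => Filter.Eventually.of_forall fun ω => ?_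
    rcases s with i | _
    · simp only [Function.comp_apply, Sum.elim_inl]
      rw [lin_add, lin_single, lin_smul, hZ]
      ring
    · simp only [Function.comp_apply, Sum.elim_inr]
      exact (hZ ω).symm
  have hL2 : MemLp Z 2 P := by
    have : Z = lin g f0 := funext hZ
    rw [this]
    exact ((isGaussianProcess_lin hg).hasGaussianLaw_eval f0).memLp_two
  have hgL : ∀ t, MemLp (g t) 2 P := fun t => (hg.hasGaussianLaw_eval t).memLp_two
  have h3 := h2.indepFun_of_covariance_eq_zero
    (fun i => ((hm (idx i)).sub (hZm.const_mul (c i))).aemeasurable)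
    (fun _ => hZm.aemeasurable) (by
      intro i _
      have e := covariance_fun_sub_left (μ := P) (hgL (idx i)) (hL2.const_mul (c i)) hL2
      rw [e, covariance_const_mul_left, hcov i, covariance_self hZm.aemeasurable]
      ring)
  have hm1 : Measurable (fun f : Unit → ℝ => f ()) := measurable_pi_apply ()
  exact h3.comp (φ := id) (ψ := fun f : Unit → ℝ => f ()) measurable_id hm1

end Pool.Agent.Q295.LQG
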