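import Pool.Agent.Q295.LQG.Local

/-!
# The root of infinite degree for `Q < √2`; tiles at the origin in all the quadrants
-/

set_option autoImplicit false

namespace Pool.Agent.Q295.LQG

open MeasureTheory ProbabilityTheory Real Filter Topology Pool.Agent.Y980 Pool.Agent.Y980.DSquare

variable {Ω : Type*} [MeasurableSpace Ω]

/-- a null event: infinitely many variables above a threshold with probability tending to `0` -/
theorem ae_exists_le {P : Measure Ω} {A : ℕ → Set Ω} {n : ℕ} {b r : ℝ} (hb : 0 < b) (hr : 0 < r)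
    (h : ∀ N, n ≤ N → P (A N) ≤ ENNReal.ofReal (b * exp (-(r * N)))) :
    ∀ᵐ ω ∂P, ∃ N, n ≤ N ∧ ω ∉ A N := by
  rw [ae_iff]
  refine le_antisymm ?_ bot_le
  refine ENNReal.le_of_forall_pos_le_add fun η hη _ => ?_
  have hη' : (0 : ℝ) < η := NNReal.coe_pos.2 hη
  obtain ⟨N₀, hN₀⟩ := exists_nat_ge (-(log (η / b)) / r)
  have h1 := h (n + N₀) (Nat.le_add_right _ _)
  rw [zero_add]
  refine le_trans (measure_mono (t := A (n + N₀)) ?_) (h1.trans ?_)
  · intro ω hω
    simp only [Set.mem_ofPred_eq, not_exists, not_and, not_not] at hω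
    exact hω _ (Nat.le_add_right _ _)
  · rw [← ENNReal.ofReal_coe_nnreal]
    apply ENNReal.ofReal_le_ofReal
    rw [div_le_iff₀ hr] at hN₀
    have h2 : exp (-(r * ((n + N₀ : ℕ) : ℝ))) ≤ η / b := by
      rw [← exp_log (show (0 : ℝ) < η / b by positivity)]
      apply exp_le_exp.2
      push_cast
      have : 0 ≤ r * n := by positivity
      nlinarith
    calc b * exp (-(r * ((n + N₀ : ℕ) : ℝ))) ≤ b * (η / b) :=
          mul_le_mul_of_nonneg_left h2 hb.le
      _ = η := by field_simp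

/-- the value at one small square is small -/
theorem small_low {P : Measure Ω} {h : ℝ → ℂ → Ω → ℝ} (hh : IsGFF P h) {Q : ℝ} (hQ : 0 < Q)
    (u : ℝ) {N : ℕ} {S : DSquare} (hn : S.n = N) (hv : Var[sqv h S; P] ≤ N * log 2 + 3) :
    P {ω | u < fld Q h ω S} ≤ ENNReal.ofReal (exp (3 / 2 * Q ^ 2 - Q * u) *
      exp (-(Q ^ 2 * log 2 / 2 * N))) := by
  have h1 := gauss_tail ((isGaussianProcess_sqv hh).hasGaussianLaw_eval S) (mean_sqv hh S) hv
    hQ.le (u + Q * N * log 2)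
  have e : {ω | u < fld Q h ω S} ⊆ {ω | u + Q * N * log 2 ≤ sqv h S ω} := by
    intro ω hω
    simp only [Set.mem_ofPred_eq, fld] at hω ⊢
    rw [hn, Int.cast_natCast] at hω
    linarith
  refine (measure_mono e).trans (h1.trans (ENNReal.ofReal_le_ofReal ?_))
  rw [← exp_add]
  apply exp_le_exp.2
  apply le_of_eq
  ring

theorem corner_ae {P : Measure Ω} {h : ℝ → ℂ → Ω → ℝ} (hh : IsGFF P h) {Q : ℝ} (hQ : 0 < Q)
    (u : ℝ) : ∀ᵐ ω ∂P, ∀ n : ℕ, ∀ s : ℤ, InB n (2 ^ n) s →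
      ∃ N, n ≤ N ∧ fld Q h ω ⟨N, 2 ^ N, s * 2 ^ (N - n)⟩ ≤ u := by
  have hl := log_two_pos
  rw [ae_all_iff]
  intro n
  rw [ae_all_iff]
  intro s
  by_cases hin : InB n (2 ^ n) s
  · have h1 := ae_exists_le (P := P) (A := fun N : ℕ =>
      {ω | u < fld Q h ω ⟨N, 2 ^ N, s * 2 ^ (N - n)⟩}) (n := n)
      (b := exp (3 / 2 * Q ^ 2 - Q * u)) (r := Q ^ 2 * log 2 / 2) (exp_pos _) (by positivity) (by
        intro N hN
        apply small_low hh hQ u (S := ⟨N, 2 ^ N, s * 2 ^ (N - n)⟩) rfl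
        have hinN : InB N (2 ^ N) (s * 2 ^ (N - n)) := by
          have e1 : (2 : ℤ) ^ N / 2 ^ (N - n) = 2 ^ n := by
            rw [show N = n + (N - n) by omega, pow_add, Nat.add_sub_cancel_left, ediv_mul_pow]
          have e2 : s * 2 ^ (N - n) / 2 ^ (N - n) = s := ediv_mul_pow _ _
          have := InB.of_ediv (N := n) (q := N - n) (i := 2 ^ N) (j := s * 2 ^ (N - n))
            (by rw [e1, e2]; exact hin)
          rwa [show n + (N - n) = N by omega] at this
        have hin' : InB (N + 0) (2 ^ N) (s * 2 ^ (N - n)) := hinN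
        have hc := cov_anc hh hin'
        simp only [pow_zero, Int.ediv_one, add_zero] at hc
        rw [covariance_self (measurable_sqv hh _).aemeasurable] at hc
        exact hc.2)
    filter_upwards [h1] with ω hω _
    obtain ⟨N, hN, h2⟩ := hω
    simp only [not_lt] at h2
    exact ⟨N, hN, h2⟩
  · exact Eventually.of_forall fun ω h => absurd h hin

/-- there are tiles at the origin in all the quadrants -/
theorem fourRoots_ae {P : Measure Ω} {h : ℝ → ℂ → Ω → ℝ} (hh : IsGFF P h) {Q : ℝ} (hQ : 0 < Q)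
    (u : ℝ) : ∀ᵐ ω ∂P, FourRoots (fld Q h ω) u := by
  have hl := log_two_pos
  have hl2 := log_two_lt
  have key : ∀ i j : ℤ, Quad i → Quad j → ∀ᵐ ω ∂P, ∃ n : ℤ,
      (⟨n, i, j⟩ : DSquare) ∈ tiles (fld Q h ω) u := by
    intro i j hi hj
    have h1 := ae_exists_le (P := P) (A := fun N : ℕ =>
      {ω | u < fld Q h ω ⟨N, i, j⟩}) (n := 0)
      (b := exp (3 / 2 * Q ^ 2 - Q * u)) (r := Q ^ 2 * log 2 / 2) (exp_pos _) (by positivity) (by
        intro N _
        apply small_low hh hQ u (S := ⟨N, i, j⟩) rfl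
        have := var_quad hh (S := ⟨N, i, j⟩) hi hj
        simp only [Int.cast_natCast] at this
        rw [abs_of_nonneg (Nat.cast_nonneg N)] at this
        linarith)
    have h2 : ∀ᵐ ω ∂P, ∃ N : ℕ, 0 ≤ N ∧ ω ∉ {ω | ∃ k : ℕ, N ≤ k ∧
        fld Q h ω ⟨-(k : ℤ), i, j⟩ ≤ u} := by
      have hr1 : exp (-(Q ^ 2 * log 2 / 2)) < 1 := by
        rw [exp_lt_one_iff]
        have : 0 < Q ^ 2 * log 2 / 2 := by positivity
        linarith
      refine ae_exists_le (A := fun N : ℕ => {ω | ∃ k : ℕ, N ≤ k ∧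
        fld Q h ω ⟨-(k : ℤ), i, j⟩ ≤ u}) (n := 0)
        (b := exp (Q ^ 2 * log 2 + Q * u) / (1 - exp (-(Q ^ 2 * log 2 / 2))))
        (r := Q ^ 2 * log 2 / 2) (div_pos (exp_pos _) (by linarith)) (by positivity) ?_
      intro N _
      have h3 := anc_tail_all hh hQ hi hj (-u) N
      rw [neg_neg] at h3
      refine h3.trans (ENNReal.ofReal_le_ofReal (le_of_eq ?_))
      rw [← exp_nat_mul]
      have e : Q ^ 2 * log 2 - Q * -u = Q ^ 2 * log 2 + Q * u := by ring
      have e2 : (N : ℝ) * -(Q ^ 2 * log 2 / 2) = -(Q ^ 2 * log 2 / 2 * N) := by ring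
      rw [e, e2]
      ring
    filter_upwards [h1, h2] with ω hω1 hω2
    obtain ⟨N, _, hN⟩ := hω1
    obtain ⟨M, _, hM⟩ := hω2
    simp only [not_lt, not_exists, not_and, not_le] at hN hM
    have hna : ¬ Alive (fld Q h ω) u ⟨N, i, j⟩ := by
      intro hal
      have := hal 0
      rw [anc_zero] at this
      linarith
    obtain ⟨k, _, hk⟩ := exists_tile hna (N + M) (by
      intro k hk
      rw [anc_quad hi hj]
      have e : ((N : ℤ) - k) = -((k - N : ℕ) : ℤ) := by omega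
      rw [e]
      exact hM _ (by omega))
    rw [anc_quad hi hj] at hk
    exact ⟨_, hk⟩
  have h00 := key 0 0 (Or.inl rfl) (Or.inl rfl)
  have h01 := key 0 (-1) (Or.inl rfl) (Or.inr rfl)
  have h10 := key (-1) 0 (Or.inr rfl) (Or.inl rfl)
  have h11 := key (-1) (-1) (Or.inr rfl) (Or.inr rfl)
  filter_upwards [h00, h01, h10, h11] with ω a b c d
  intro i j hi hj
  rcases hi with rfl | rfl <;> rcases hj with rfl | rfl
  · exact a
  · exact b
  · exact c
  · exact d

/-- for `Q < √2`, the root has infinite degree with positive probability -/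
theorem infinite_prob {P : Measure Ω} {Q : ℝ} (hQ : 0 < Q) (hQ2 : Q ^ 2 < 2)
    {h : ℝ → ℂ → Ω → ℝ} (hh : IsGFF P h) :
    ∃ u₀ : ℝ, ∀ u ≤ u₀, ∃ A : Set Ω, 0 < P A ∧ ∀ ω ∈ A,
      ∃ R : tiles (fld Q h ω) u, (0 : ℂ) ∈ R.1.toSet ∧
        {T | (adjGraph (tiles (fld Q h ω) u)).Adj R T}.Infinite := by
  have hP := hh.gaussian.isProbabilityMeasure
  have hl := log_two_pos
  obtain ⟨C₀, p, hp0, hsurv⟩ := surv_prob' P fam_D1 hQ (show Q ^ 2 / 2 < 1 by linarith)
  obtain ⟨C₁, hC₁⟩ := anc_drift P hQ (show 0 < p / 8 by positivity)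
  set C := max (C₀ + 1) C₁ with hC
  have hC0 : C₀ < C := by
    have := le_max_left (C₀ + 1) C₁
    linarith
  set L := √(16 / p) with hL
  have hL0 : 0 < L := Real.sqrt_pos.2 (by positivity)
  have hL2 : (2 : ℝ) / L ^ 2 = p / 8 := by
    rw [hL, Real.sq_sqrt (by positivity)]
    field_simp
    norm_num
  set c := kap ⟨0, 0, 0⟩ / log 2 with hc
  have hc0 : 0 < c := div_pos kap_root hl
  refine ⟨-C, fun u hu => ?_⟩
  set t := (u - L) / c with ht
  obtain ⟨m, hm⟩ := hsurv C hC0 1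
  set W := resid h (fun S => kap S / log 2) (zz h) with hW
  have hWm : Measurable W := measurable_resid hh _ (measurable_zz hh)
  set R0 : Set (DSquare → ℝ) := {x | (∀ k : ℕ, 0 < k → -C < x ⟨-(k : ℤ), 0, 0⟩) ∧
    (∀ n, m ≤ n → ∃ s ∈ D1 n, ∀ j ≤ n, -C < x (ans n s j)) ∧
    (∀ n : ℕ, ∀ s : ℤ, InB n (2 ^ n) s →
      ∃ N, n ≤ N ∧ x ⟨N, 2 ^ N, s * 2 ^ (N - n)⟩ ≤ u)} with hR0
  have hR0m : MeasurableSet R0 := by
    refine measurableSet_setOfPred.2 ?_
    refine (Measurable.and ?_ (Measurable.and ?_ ?_))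
    · refine Measurable.forall fun k => Measurable.imp measurable_const ?_
      exact measurableSet_setOfPred.1 (measurableSet_lt measurable_const (measurable_pi_apply _))
    · refine Measurable.forall fun n => Measurable.imp measurable_const ?_
      refine Measurable.exists fun s => Measurable.and measurable_const ?_
      refine Measurable.forall fun j => Measurable.imp measurable_const ?_
      exact measurableSet_setOfPred.1 (measurableSet_lt measurable_const (measurable_pi_apply _))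
    · refine Measurable.forall fun n => Measurable.forall fun s =>
        Measurable.imp measurable_const ?_
      refine Measurable.exists fun N => Measurable.and measurable_const ?_
      exact measurableSet_setOfPred.1 (measurableSet_le (measurable_pi_apply _) measurable_const)
  have hcongr : ∀ x y : DSquare → ℝ, x ∈ R0 →
      (∀ k : ℕ, 0 < k → x ⟨-(k : ℤ), 0, 0⟩ = y ⟨-(k : ℤ), 0, 0⟩) →
      (∀ N i j, InB N i j → x ⟨N, i, j⟩ = y ⟨N, i, j⟩) → y ∈ R0 := by
    rintro x y ⟨a1, a2, a3⟩ e1 e2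
    refine ⟨fun k hk => e1 k hk ▸ a1 k hk, fun n hn => ?_, fun n s hs => ?_⟩
    · obtain ⟨s, hs, hs'⟩ := a2 n hn
      refine ⟨s, hs, fun j hj => ?_⟩
      have h5 : InB j (s.1 / 2 ^ (n - j)) (s.2 / 2 ^ (n - j)) := by
        apply InB.ediv
        rw [show j + (n - j) = n by omega]
        exact (mem_D1.1 hs).2
      have h6 := hs' j hj
      unfold ans at h6 ⊢
      rwa [e2 _ _ _ h5] at h6
    · obtain ⟨N, hN, h1⟩ := a3 n s hs
      refine ⟨N, hN, ?_⟩
      have hinN : InB N (2 ^ N) (s * 2 ^ (N - n)) := by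
        have e1 : (2 : ℤ) ^ N / 2 ^ (N - n) = 2 ^ n := by
          rw [show N = n + (N - n) by omega, pow_add, Nat.add_sub_cancel_left, ediv_mul_pow]
        have e2 : s * 2 ^ (N - n) / 2 ^ (N - n) = s := ediv_mul_pow _ _
        have := InB.of_ediv (N := n) (q := N - n) (i := 2 ^ N) (j := s * 2 ^ (N - n))
          (by rw [e1, e2]; exact hs)
        rwa [show n + (N - n) = N by omega] at this
      rwa [← e2 _ _ _ hinN]
  set F : Set (DSquare → ℝ) := {w | w ⟨0, 0, 0⟩ ≤ L ∧ dr Q w ∈ R0} with hF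
  have hFm : MeasurableSet F := by
    refine MeasurableSet.inter (measurableSet_le (measurable_pi_apply _) measurable_const) ?_
    exact (measurable_dr Q) hR0m
  have hdr : ∀ ω, fld Q h ω ∈ R0 ↔ dr Q (W ω) ∈ R0 := by
    intro ω
    constructor
    · intro hx
      refine hcongr _ _ hx ?_ ?_
      · intro k hk
        rw [hW, dr_resid]
        simp only [kap_anc hk, zero_div, zero_mul, sub_zero]
      · intro N' i j hin
        rw [hW, dr_resid]
        simp only [kap_inB hin, zero_div, zero_mul, sub_zero]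
    · intro hx
      refine hcongr _ _ hx ?_ ?_
      · intro k hk
        rw [hW, dr_resid]
        simp only [kap_anc hk, zero_div, zero_mul, sub_zero]
      · intro N' i j hin
        rw [hW, dr_resid]
        simp only [kap_inB hin, zero_div, zero_mul, sub_zero]
  have hPF : ENNReal.ofReal (p / 2) ≤ P (W ⁻¹' F) := by
    have h1 := surv_all fam_D1 (C := C) (Q := Q) (K := 1) hh (hm h hh)
    have hcover : {ω | ∀ n, m ≤ n → 1 ≤ (surv D1 C m n (fld Q h ω)).card} ⊆
        W ⁻¹' F ∪ ({ω | L ≤ |W ω ⟨0, 0, 0⟩|} ∪ {ω | ∃ k : ℕ, fld Q h ω ⟨-(k : ℤ), 0, 0⟩ ≤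
          -C + 0 * (k + 1)} ∪ {ω | ¬ ∀ n : ℕ, ∀ s : ℤ, InB n (2 ^ n) s →
      ∃ N, n ≤ N ∧ fld Q h ω ⟨N, 2 ^ N, s * 2 ^ (N - n)⟩ ≤ u}) := by
      intro ω hω
      by_cases b1 : L ≤ |W ω ⟨0, 0, 0⟩|
      · exact Or.inr (Or.inl (Or.inl b1))
      by_cases b2 : ∃ k : ℕ, fld Q h ω ⟨-(k : ℤ), 0, 0⟩ ≤ -C + 0 * (k + 1)
      · exact Or.inr (Or.inl (Or.inr b2))
      by_cases b4 : ¬ ∀ n : ℕ, ∀ s : ℤ, InB n (2 ^ n) s →
        ∃ N, n ≤ N ∧ fld Q h ω ⟨N, 2 ^ N, s * 2 ^ (N - n)⟩ ≤ u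
      · exact Or.inr (Or.inr b4)
      left
      push Not at b1 b2
      refine ⟨(le_abs_self _).trans b1.le, ?_⟩
      rw [← hdr]
      refine ⟨fun k _ => ?_, fun n hn => ?_, not_not.1 b4⟩
      · have := b2 k
        linarith
      · have h2 := hω n hn
        obtain ⟨v, hv⟩ := Finset.card_pos.1 h2
        obtain ⟨_, s, hs, _, _, h3⟩ := mem_surv.1 hv
        exact ⟨s, hs, h3⟩
    have e1 : P {ω | L ≤ |W ω ⟨0, 0, 0⟩|} ≤ ENNReal.ofReal (p / 8) := by
      have hmem : MemLp (fun ω => W ω ⟨0, 0, 0⟩) 2 P :=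
        (memLp_gff hh (half_pos' ⟨0, 0, 0⟩) _).sub ((law_zz hh).memLp_two.const_mul _)
      have := gauss_cheb hmem (mean_resid hh _ _) (var_resid_le hh) hL0
      rwa [hL2] at this
    have e2 := hC₁ C (le_max_right _ _) 0 le_rfl (by positivity) h hh 0 0 (Or.inl rfl) (Or.inl rfl)
    have e4 : P {ω | ¬ ∀ n : ℕ, ∀ s : ℤ, InB n (2 ^ n) s →
      ∃ N, n ≤ N ∧ fld Q h ω ⟨N, 2 ^ N, s * 2 ^ (N - n)⟩ ≤ u} = 0 := corner_ae hh hQ u
    have h2 := h1.trans ((measure_mono hcover).trans (measure_union_le _ _))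
    have h3 : P ({ω | L ≤ |W ω ⟨0, 0, 0⟩|} ∪ {ω | ∃ k : ℕ, fld Q h ω ⟨-(k : ℤ), 0, 0⟩ ≤
          -C + 0 * (k + 1)} ∪ {ω | ¬ ∀ n : ℕ, ∀ s : ℤ, InB n (2 ^ n) s →
      ∃ N, n ≤ N ∧ fld Q h ω ⟨N, 2 ^ N, s * 2 ^ (N - n)⟩ ≤ u}) ≤ ENNReal.ofReal (p / 2) := by
      refine (measure_union_le _ _).trans ?_
      rw [e4, add_zero]
      refine (measure_union_le _ _).trans ((add_le_add e1 e2).trans ?_)
      rw [← ENNReal.ofReal_add (by positivity) (by positivity)]
      apply ENNReal.ofReal_le_ofReal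
      linarith
    have h4 : ENNReal.ofReal (p / 2) + ENNReal.ofReal (p / 2) ≤
        P (W ⁻¹' F) + ENNReal.ofReal (p / 2) := by
      rw [← ENNReal.ofReal_add (by positivity) (by positivity), add_halves]
      exact h2.trans (add_le_add le_rfl h3)
    exact (ENNReal.add_le_add_iff_right ENNReal.ofReal_ne_top).1 h4
  refine ⟨W ⁻¹' F ∩ (zz h) ⁻¹' (Set.Iic t), ?_, ?_⟩
  · rw [(indep_zz hh).measure_inter_preimage_eq_mul _ _ hFm measurableSet_Iic]
    have h1 : 0 < P (W ⁻¹' F) := lt_of_lt_of_le (by rw [ENNReal.ofReal_pos]; positivity) hPF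
    have h2 : 0 < P (zz h ⁻¹' Set.Iic t) :=
      lt_of_lt_of_le (by rw [ENNReal.ofReal_pos]; positivity)
        (gauss_pos (law_zz hh) (measurable_zz hh) (mean_zz hh) (var_zz hh) hl t)
    exact pos_iff_ne_zero.2 (mul_ne_zero h1.ne' h2.ne')
  · rintro ω ⟨⟨h1, h2⟩, h3⟩
    rw [Set.mem_preimage, Set.mem_Iic] at h3
    rw [← hdr] at h2
    obtain ⟨a1, a2, a3⟩ := h2
    have hr0 : fld Q h ω ⟨0, 0, 0⟩ ≤ u := by
      have e : fld Q h ω ⟨0, 0, 0⟩ = W ω ⟨0, 0, 0⟩ + c * zz h ω := by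
        rw [hW]
        unfold resid fld
        simp only
        rw [← hc]
        push_cast
        ring
      rw [e]
      have h4 : c * zz h ω ≤ c * t := mul_le_mul_of_nonneg_left h3 hc0.le
      have h5 : c * t = u - L := by
        rw [ht, mul_div_cancel₀ _ hc0.ne']
      linarith
    have hroot := root_of_low hr0 (fun k hk => lt_of_le_of_lt hu (a1 k hk))
    refine ⟨⟨_, hroot⟩, zero_mem.2 ⟨Or.inl rfl, Or.inl rfl⟩, ?_⟩
    refine infinite_degree hroot (m := m) (fun n hn => ?_) a3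
    obtain ⟨s, hs, hs'⟩ := a2 n hn
    exact ⟨s, hs, fun j hj => lt_of_le_of_lt hu (hs' j hj)⟩

end Pool.Agent.Q295.LQG
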