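import Pool.Agent.Q295.LQG.Base

/-!
# Good configurations at a prescribed threshold
-/

set_option autoImplicit false

namespace Pool.Agent.Q295.LQG

open MeasureTheory ProbabilityTheory Real Filter Topology Pool.Agent.Y980 Pool.Agent.Y980.DSquare

variable {Ω : Type*} [MeasurableSpace Ω]

theorem measurable_big {P : Measure Ω} {h : ℝ → ℂ → Ω → ℝ} (hh : IsGFF P h) (n : ℕ) :
    Measurable (big n h) := hh.measurable _ _ (two_zpow_pos n)

theorem law_big {P : Measure Ω} {h : ℝ → ℂ → Ω → ℝ} (hh : IsGFF P h) (n : ℕ) :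
    HasGaussianLaw (big n h) P :=
  hh.gaussian.hasGaussianLaw_eval (⟨⟨_, two_zpow_pos n⟩, 0⟩ : Set.Ioi (0 : ℝ) × ℂ)

theorem mean_big {P : Measure Ω} {h : ℝ → ℂ → Ω → ℝ} (hh : IsGFF P h) (n : ℕ) :
    ∫ ω, big n h ω ∂P = 0 := hh.mean _ _ (two_zpow_pos n)

/-- the coefficient of the large scale -/
noncomputable def cb (P : Measure Ω) (h : ℝ → ℂ → Ω → ℝ) (n : ℕ) (S : DSquare) : ℝ :=
  cov[sqv h S, big n h; P] / (n * log 2)

theorem cb_mul_le {P : Measure Ω} {h : ℝ → ℂ → Ω → ℝ} (hh : IsGFF P h) {n : ℕ} (hn : 0 < n)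
    {S : DSquare} {b δ Λ x : ℝ} (hb : sN S ≤ b) (hx : |x| ≤ Λ)
    (hΛ : Λ ≤ δ * (n * log 2)) : |cb P h n S * x| ≤ δ * b := by
  have hn' : (0 : ℝ) < n := by exact_mod_cast hn
  have hpos : (0 : ℝ) < n * log 2 := mul_pos hn' log_two_pos
  obtain ⟨h1, h2⟩ := cov_big hh n S
  have h3 : 0 ≤ cb P h n S := div_nonneg h1 hpos.le
  have hΛ0 : 0 ≤ Λ := (abs_nonneg x).trans hx
  rw [abs_mul, abs_of_nonneg h3]
  have h4 : cb P h n S ≤ b / (n * log 2) := div_le_div_of_nonneg_right (h2.trans hb) hpos.le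
  have h5 : 0 ≤ b := (h1.trans h2).trans hb
  calc cb P h n S * |x| ≤ b / (n * log 2) * Λ :=
        mul_le_mul h4 hx (abs_nonneg _) (by positivity)
    _ ≤ b / (n * log 2) * (δ * (n * log 2)) := by
        apply mul_le_mul_of_nonneg_left hΛ (by positivity)
    _ = δ * b := by field_simp

theorem local_prob (P : Measure Ω) {Q : ℝ} (hQ : 0 < Q) (hQ2 : 2 ≤ Q ^ 2) (hQ4 : Q < 2) :
    ∃ C : ℝ, ∀ L₂ : ℝ, 0 ≤ L₂ → ∃ c₀ : ℝ, 0 < c₀ ∧ ∀ K : ℕ, ∃ m N : ℕ, m ≤ N ∧ ∃ n₀ : ℕ, 0 < n₀ ∧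
      ∀ n, n₀ ≤ n → ∀ h : ℝ → ℂ → Ω → ℝ, IsGFF P h → ∀ y : ℝ, |y| ≤ L₂ * √n →
      ENNReal.ofReal (c₀ / √n) ≤
        P {ω | fld Q h ω ∈ GS C 0 m N K ∧ big n h ω ∈ Set.Icc y (y + 1)} := by
  obtain ⟨C, δ₂, p₀, hδ₂, hp₀, hbase⟩ := base_prob P hQ hQ2 hQ4
  have hl := log_two_pos
  refine ⟨C, fun L₂ hL₂ => ?_⟩
  set c₀ := p₀ / 2 * ((√(2 * π * log 2))⁻¹ * exp (-(L₂ + 1) ^ 2 / (2 * log 2))) with hc₀
  have hc₀0 : 0 < c₀ := by positivity
  refine ⟨c₀, hc₀0, fun K => ?_⟩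
  obtain ⟨m, N, hmN, hGS⟩ := hbase K
  set L₁ := max L₂ √(2 / p₀) with hL₁
  have hL₁0 : 0 < L₁ := lt_max_of_lt_right (Real.sqrt_pos.2 (by positivity))
  have hL₁sq : 2 / p₀ ≤ L₁ ^ 2 := by
    have h1 : √(2 / p₀) ^ 2 ≤ L₁ ^ 2 := by
      apply pow_le_pow_left₀ (Real.sqrt_nonneg _) (le_max_right _ _)
    rwa [Real.sq_sqrt (by positivity)] at h1
  set δ := δ₂ / 2 with hδ
  have hδ0 : 0 < δ := by positivity
  obtain ⟨n₁, hn₁⟩ := exists_nat_ge (((L₁ + 1) / (δ * log 2)) ^ 2)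
  refine ⟨m, N, hmN, n₁ + 1, Nat.succ_pos _, fun n hn h hh y hy => ?_⟩
  have hP := hh.gaussian.isProbabilityMeasure
  have hn0 : 0 < n := by omega
  have hn' : (0 : ℝ) < n := by exact_mod_cast hn0
  have hn1 : (1 : ℝ) ≤ n := by exact_mod_cast hn0
  have hsn : 1 ≤ √(n : ℝ) := Real.one_le_sqrt.2 hn1
  have hsq : √(n : ℝ) * √(n : ℝ) = n := Real.mul_self_sqrt hn'.le
  have hpos : (0 : ℝ) < n * log 2 := mul_pos hn' hl
  set Λ := L₁ * √n + 1 with hΛ
  have hΛ0 : 0 ≤ Λ := by positivity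
  have hΛle : Λ ≤ δ * (n * log 2) := by
    have h1 : (L₁ + 1) / (δ * log 2) ≤ √n := by
      apply Real.le_sqrt_of_sq_le
      have : (n₁ : ℝ) ≤ n := by exact_mod_cast (by omega : n₁ ≤ n)
      linarith
    rw [div_le_iff₀ (by positivity)] at h1
    have h2 : Λ ≤ (L₁ + 1) * √n := by rw [hΛ]; nlinarith
    calc Λ ≤ (L₁ + 1) * √n := h2
      _ ≤ (√n * (δ * log 2)) * √n := mul_le_mul_of_nonneg_right h1 (by positivity)
      _ = δ * ((√n * √n) * log 2) := by ring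
      _ = δ * (n * log 2) := by rw [hsq]
  set W := resid h (cb P h n) (big n h) with hW
  have hWm : Measurable W := measurable_resid hh _ (measurable_big hh n)
  -- closeness
  have hclose : ∀ ω, |big n h ω| ≤ Λ → ∀ S b, sN S ≤ b →
      |fld Q h ω S - dr Q (W ω) S| ≤ δ * b := by
    intro ω hω S b hb
    rw [hW, dr_resid, sub_sub_cancel]
    exact cb_mul_le hh hn0 hb hω hΛle
  have hroot : sN ⟨0, 0, 0⟩ ≤ 1 := by
    have := sN_anc 0
    simpa using this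
  have hp1 : ∀ ω, |big n h ω| ≤ Λ → fld Q h ω ∈ GS C δ₂ m N K → dr Q (W ω) ∈ GS C δ m N K := by
    intro ω hω hx
    have e : δ₂ - δ = δ := by rw [hδ]; ring
    refine GS.perturb hx ?_ ?_ ?_
    · rw [e]; simpa using hclose ω hω _ _ hroot
    · intro k
      rw [e]; exact hclose ω hω _ _ (sN_anc k)
    · intro N i j hin
      rw [e]; simpa using hclose ω hω _ _ (sN_inB hin)
  have hp2 : ∀ ω, |big n h ω| ≤ Λ → dr Q (W ω) ∈ GS C δ m N K → fld Q h ω ∈ GS C 0 m N K := by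
    intro ω hω hx
    refine GS.perturb hx ?_ ?_ ?_
    · rw [sub_zero, abs_sub_comm]; simpa using hclose ω hω _ _ hroot
    · intro k
      rw [sub_zero, abs_sub_comm]; exact hclose ω hω _ _ (sN_anc k)
    · intro N i j hin
      rw [sub_zero, abs_sub_comm]; simpa using hclose ω hω _ _ (sN_inB hin)
  -- the probability of the residual event
  set F : Set (DSquare → ℝ) := dr Q ⁻¹' GS C δ m N K with hF
  have hFm : MeasurableSet F := (measurable_dr Q) (measurable_GS C δ m N K)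
  have hPF : ENNReal.ofReal (p₀ / 2) ≤ P (W ⁻¹' F) := by
    have hcover : {ω | fld Q h ω ∈ GS C δ₂ m N K} ⊆
        W ⁻¹' F ∪ {ω | L₁ * √n ≤ |big n h ω|} := by
      intro ω hω
      by_cases b1 : L₁ * √n ≤ |big n h ω|
      · exact Or.inr b1
      · left
        push Not at b1
        exact hp1 ω (b1.le.trans (by rw [hΛ]; linarith)) hω
    have e1 : P {ω | L₁ * √n ≤ |big n h ω|} ≤ ENNReal.ofReal (p₀ / 2) := by
      have h1 := gauss_cheb (law_big hh n).memLp_two (mean_big hh n) (var_big hh n).le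
        (show 0 < L₁ * √n by positivity)
      refine h1.trans (ENNReal.ofReal_le_ofReal ?_)
      rw [mul_pow, sq (√(n : ℝ)), hsq, div_le_div_iff₀ (by positivity) (by norm_num)]
      have h2 : 2 ≤ L₁ ^ 2 * p₀ := by rwa [div_le_iff₀ hp₀] at hL₁sq
      have h3 := log_two_lt
      nlinarith
    have h2 := (hGS h hh).trans ((measure_mono hcover).trans (measure_union_le _ _))
    have h4 : ENNReal.ofReal (p₀ / 2) + ENNReal.ofReal (p₀ / 2) ≤
        P (W ⁻¹' F) + ENNReal.ofReal (p₀ / 2) := by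
      rw [← ENNReal.ofReal_add (by positivity) (by positivity), add_halves]
      exact h2.trans (add_le_add le_rfl e1)
    exact (ENNReal.add_le_add_iff_right ENNReal.ofReal_ne_top).1 h4
  -- the window
  have hwin : ENNReal.ofReal (1 / √n * ((√(2 * π * log 2))⁻¹ *
      exp (-(L₂ + 1) ^ 2 / (2 * log 2)))) ≤ P (big n h ⁻¹' Set.Icc y (y + 1)) := by
    have h1 := gauss_window (law_big hh n) (measurable_big hh n) (mean_big hh n) (var_big hh n)
      hpos hy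
    refine le_trans (ENNReal.ofReal_le_ofReal ?_) h1
    have e1 : √(2 * π * (n * log 2)) = √n * √(2 * π * log 2) := by
      rw [← Real.sqrt_mul hn'.le]
      congr 1
      ring
    have e3 : ∀ X : ℝ, (√(n : ℝ) * √(2 * π * log 2))⁻¹ * X =
        1 / √(n : ℝ) * ((√(2 * π * log 2))⁻¹ * X) := by
      intro X
      rw [mul_inv]
      ring
    rw [e1, e3]
    apply mul_le_mul_of_nonneg_left _ (by positivity)
    apply mul_le_mul_of_nonneg_left _ (by positivity)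
    apply exp_le_exp.2
    rw [neg_div, neg_div, neg_le_neg_iff, div_le_div_iff₀ (by positivity) (by positivity)]
    have h2 : (L₂ * √n + 1) ^ 2 ≤ (L₂ + 1) ^ 2 * n := by
      have h3 : L₂ * √n + 1 ≤ (L₂ + 1) * √n := by nlinarith
      have h4 : (L₂ * √n + 1) ^ 2 ≤ ((L₂ + 1) * √n) ^ 2 :=
        pow_le_pow_left₀ (by positivity) h3 2
      rwa [mul_pow, sq (√(n : ℝ)), hsq] at h4
    nlinarith
  have hsub : W ⁻¹' F ∩ big n h ⁻¹' Set.Icc y (y + 1) ⊆
      {ω | fld Q h ω ∈ GS C 0 m N K ∧ big n h ω ∈ Set.Icc y (y + 1)} := by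
    rintro ω ⟨h1, h2⟩
    refine ⟨hp2 ω ?_ h1, h2⟩
    rw [Set.mem_preimage, Set.mem_Icc] at h2
    rw [abs_le] at hy
    have h3 : L₂ * √n ≤ L₁ * √n := mul_le_mul_of_nonneg_right (le_max_left _ _) (by positivity)
    rw [abs_le, hΛ]
    constructor <;> linarith [h2.1, h2.2, hy.1, hy.2]
  refine le_trans ?_ (measure_mono hsub)
  have hind : IndepFun W (big n h) P := indep_big hh hn0
  rw [hind.measure_inter_preimage_eq_mul _ _ hFm measurableSet_Icc]
  have e : c₀ / √n = p₀ / 2 * (1 / √n * ((√(2 * π * log 2))⁻¹ *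
      exp (-(L₂ + 1) ^ 2 / (2 * log 2)))) := by
    rw [hc₀]; ring
  rw [e, ENNReal.ofReal_mul (by positivity)]
  exact mul_le_mul' hPF hwin

/-- the event that the tiling at threshold `u` is good at level `n` -/
def Ev (Q : ℝ) (h : ℝ → ℂ → Ω → ℝ) (C : ℝ) (m N K : ℕ) (u : ℝ) (n : ℕ) : Set Ω :=
  {ω | fld Q (hsc n h) ω ∈ GS C 0 m N K ∧ u - drift Q h n ω ∈ Set.Icc (-C - 1) (-C)}

theorem measurable_drift {P : Measure Ω} {h : ℝ → ℂ → Ω → ℝ} (hh : IsGFF P h) (Q : ℝ) (n : ℕ) :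
    Measurable (drift Q h n) :=
  (hh.measurable _ _ (by positivity)).sub measurable_const

theorem measurable_Ev {P : Measure Ω} {h : ℝ → ℂ → Ω → ℝ} (hh : IsGFF P h) (Q C : ℝ) (m N K : ℕ)
    (u : ℝ) (n : ℕ) : MeasurableSet (Ev Q h C m N K u n) := by
  refine MeasurableSet.inter ?_ ?_
  · exact (measurable_fld (isGFF_hsc hh n) Q) (measurable_GS C 0 m N K)
  · exact (measurable_const.sub (measurable_drift hh Q n)) measurableSet_Icc

omit [MeasurableSpace Ω] in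
theorem shift_rel (Q : ℝ) (h : ℝ → ℂ → Ω → ℝ) (n : ℕ) (u : ℝ) (ω : Ω) (S : DSquare) :
    fld Q (hsc n h) ω S - (u - drift Q h n ω) = fld Q h ω (down n S) - u := by
  rw [fld_hsc]; ring

omit [MeasurableSpace Ω] in
theorem root_of_Ev {Q : ℝ} {h : ℝ → ℂ → Ω → ℝ} {C : ℝ} {m N K : ℕ} {u : ℝ} {n : ℕ} {ω : Ω}
    (hω : ω ∈ Ev Q h C m N K u n) : (⟨n, 0, 0⟩ : DSquare) ∈ tiles (fld Q h ω) u := by
  have h1 := GS.root hω.1 hω.2.1 hω.2.2
  have h2 := (mem_tiles_down (shift_rel Q h n u ω)).1 h1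
  have e : down n (⟨0, 0, 0⟩ : DSquare) = ⟨n, 0, 0⟩ := by
    unfold down
    simp
  rwa [e] at h2

omit [MeasurableSpace Ω] in
theorem far_of_Ev {Q : ℝ} {h : ℝ → ℂ → Ω → ℝ} {C : ℝ} {m N K : ℕ} (hmN : m ≤ N) {u : ℝ} {n : ℕ}
    {ω : Ω} (hω : ω ∈ Ev Q h C m N K u n) :
    Far (adjGraph (tiles (fld Q h ω) u)) ⟨_, root_of_Ev hω⟩ K (2 ^ (N + 1)) := by
  have h1 := GS.far hmN hω.1 hω.2.1 hω.2.2
  have h2 := far_iso (downIso (shift_rel Q h n u ω)) h1
  have e : (downIso (shift_rel Q h n u ω)) ⟨_, GS.root hω.1 hω.2.1 hω.2.2⟩ =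
      ⟨_, root_of_Ev hω⟩ := by
    apply Subtype.ext
    change down n (⟨0, 0, 0⟩ : DSquare) = ⟨n, 0, 0⟩
    unfold down
    simp
  rwa [e] at h2

omit [MeasurableSpace Ω] in
theorem disjoint_Ev {Q : ℝ} {h : ℝ → ℂ → Ω → ℝ} {C : ℝ} {m N K : ℕ} {u : ℝ} {n n' : ℕ}
    (hn : n ≠ n') : Disjoint (Ev Q h C m N K u n) (Ev Q h C m N K u n') := by
  rw [Set.disjoint_left]
  intro ω h1 h2
  have key : ∀ a b : ℕ, a < b → (⟨a, 0, 0⟩ : DSquare) ∈ tiles (fld Q h ω) u →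
      (⟨b, 0, 0⟩ : DSquare) ∈ tiles (fld Q h ω) u → False := by
    intro a b hab ha hb
    have e : (⟨a, 0, 0⟩ : DSquare) = anc (b - a) ⟨b, 0, 0⟩ := by
      rw [anc_quad (Or.inl rfl) (Or.inl rfl)]
      ext
      · simp only; omega
      · rfl
      · rfl
    have := tile_unique ha hb e (anc_zero _).symm
    have h3 := congrArg DSquare.n this
    simp only at h3
    omega
  rcases Nat.lt_or_gt_of_ne hn with h3 | h3
  · exact key _ _ h3 (root_of_Ev h1) (root_of_Ev h2)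
  · exact key _ _ h3 (root_of_Ev h2) (root_of_Ev h1)

theorem main_prob (P : Measure Ω) {Q : ℝ} (hQ : 0 < Q) (hQ2 : 2 ≤ Q ^ 2) (hQ4 : Q < 2) :
    ∃ C p₁ : ℝ, 0 < p₁ ∧ ∀ K : ℕ, ∃ m N : ℕ, m ≤ N ∧ ∃ u₀ : ℝ, ∀ u ≤ u₀,
      ∀ h : ℝ → ℂ → Ω → ℝ, IsGFF P h →
      ENNReal.ofReal p₁ ≤ P (⋃ n, Ev Q h C m N K u n) := by
  obtain ⟨C, hC⟩ := local_prob P hQ hQ2 hQ4
  have hl := log_two_pos
  have hql : 0 < Q * log 2 := by positivity
  obtain ⟨c₀, hc₀, hK⟩ := hC (|C| + 1 + 2 * (Q * log 2)) (by positivity)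
  refine ⟨C, c₀ / 3, by positivity, fun K => ?_⟩
  obtain ⟨m, N, hmN, n₀, hn₀, hloc⟩ := hK K
  refine ⟨m, N, hmN, -((n₀ + 1) * (Q * log 2)), fun u hu h hh => ?_⟩
  have hP := hh.gaussian.isProbabilityMeasure
  set a := ⌊-u / (Q * log 2)⌋₊ with ha
  have hu0 : 0 ≤ -u / (Q * log 2) := by
    apply div_nonneg _ hql.le
    have : 0 ≤ ((n₀ : ℝ) + 1) * (Q * log 2) := by positivity
    linarith
  have ha1 : (a : ℝ) * (Q * log 2) ≤ -u := by
    have := Nat.floor_le hu0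
    rwa [le_div_iff₀ hql] at this
  have ha2 : -u < ((a : ℝ) + 1) * (Q * log 2) := by
    have := Nat.lt_floor_add_one (-u / (Q * log 2))
    rwa [div_lt_iff₀ hql] at this
  have ha0 : n₀ ≤ a := by
    apply Nat.le_floor
    rw [le_div_iff₀ hql]
    nlinarith
  set t := Nat.sqrt a with ht
  have ht1 : t * t ≤ a := Nat.sqrt_le a
  have ht2 : a < (t + 1) * (t + 1) := Nat.lt_succ_sqrt a
  have ht0 : 1 ≤ t := by
    rw [ht, Nat.le_sqrt]
    omega
  -- one term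
  have hterm : ∀ n ∈ Finset.Ico a (a + t), ENNReal.ofReal (c₀ / (t + 2)) ≤
      P (Ev Q h C m N K u n) := by
    intro n hn
    rw [Finset.mem_Ico] at hn
    have hnn : n₀ ≤ n := ha0.trans hn.1
    have htn : (t : ℝ) ≤ √n := by
      apply Real.le_sqrt_of_sq_le
      have : t * t ≤ n := ht1.trans hn.1
      rw [sq]
      exact_mod_cast this
    have htn2 : √(n : ℝ) ≤ t + 2 := by
      rw [Real.sqrt_le_left (by positivity)]
      have : n ≤ (t + 2) ^ 2 := by nlinarith [hn.2]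
      exact_mod_cast this
    have hsn0 : 0 < √(n : ℝ) := by
      have : (1 : ℝ) ≤ t := by exact_mod_cast ht0
      linarith
    set y := -C - 1 - u - Q * n * log 2 with hy
    have hyb : |y| ≤ (|C| + 1 + 2 * (Q * log 2)) * √n := by
      have h1 : (a : ℝ) ≤ n := by exact_mod_cast hn.1
      have h2 : (n : ℝ) ≤ a + t := by exact_mod_cast hn.2.le
      have ht1' : (1 : ℝ) ≤ t := by exact_mod_cast ht0
      have h3 : |(-u - Q * n * log 2)| ≤ (t + 1) * (Q * log 2) := by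
        rw [abs_le]
        constructor <;> nlinarith
      have h4 : |y| ≤ |C| + 1 + (t + 1) * (Q * log 2) := by
        have e : y = -C + -1 + (-u - Q * n * log 2) := by rw [hy]; ring
        rw [e]
        refine (abs_add_le _ _).trans (add_le_add ((abs_add_le _ _).trans ?_) h3)
        rw [abs_neg, abs_neg, abs_one]
      have hC0 := abs_nonneg C
      have h5 : (|C| + 1 + 2 * (Q * log 2)) * t ≤ (|C| + 1 + 2 * (Q * log 2)) * √n :=
        mul_le_mul_of_nonneg_left htn (by positivity)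
      nlinarith
    have h1 := hloc n hnn (hsc n h) (isGFF_hsc hh n) y hyb
    have h2 : P {ω | fld Q (hsc n h) ω ∈ GS C 0 m N K ∧ big n (hsc n h) ω ∈ Set.Icc y (y + 1)} ≤
        P (Ev Q h C m N K u n) := by
      apply measure_mono_ae
      filter_upwards [drift_eq hh Q n] with ω hω h3
      refine ⟨h3.1, ?_⟩
      have h4 := h3.2
      rw [Set.mem_Icc] at h4 ⊢
      rw [hω]
      unfold big at h4
      rw [hy] at h4
      constructor <;> linarith [h4.1, h4.2]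
    refine le_trans (ENNReal.ofReal_le_ofReal ?_) (h1.trans h2)
    exact div_le_div_of_nonneg_left hc₀.le hsn0 htn2
  have hsum : P (⋃ n ∈ Finset.Ico a (a + t), Ev Q h C m N K u n) =
      ∑ n ∈ Finset.Ico a (a + t), P (Ev Q h C m N K u n) :=
    measure_biUnion_finset (fun i _ j _ hij => disjoint_Ev hij)
      (fun n _ => measurable_Ev hh Q C m N K u n)
  have h1 : ENNReal.ofReal (c₀ / 3) ≤ ∑ n ∈ Finset.Ico a (a + t), P (Ev Q h C m N K u n) := by
    refine le_trans ?_ (Finset.sum_le_sum hterm)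
    rw [Finset.sum_const, Nat.card_Ico, Nat.add_sub_cancel_left, nsmul_eq_mul,
      ← ENNReal.ofReal_natCast, ← ENNReal.ofReal_mul (Nat.cast_nonneg _)]
    apply ENNReal.ofReal_le_ofReal
    have ht1' : (1 : ℝ) ≤ t := by exact_mod_cast ht0
    rw [mul_div_assoc', div_le_div_iff₀ (by norm_num) (by positivity)]
    nlinarith
  rw [← hsum] at h1
  refine h1.trans (measure_mono ?_)
  exact Set.iUnion₂_subset fun n _ => Set.subset_iUnion _ n

end Pool.Agent.Q295.LQG
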