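import Pool.Agent.Q295.LQG.Ends
import Pool.Agent.Y980.Tail

/-!
# Dyadic tilings: the good sets, infinite degree, the tiles at the origin
-/

set_option autoImplicit false

namespace Pool.Agent.Q295.LQG

open Pool.Agent.Y980 Pool.Agent.Y980.DSquare

/-- all the level-`N` squares of `[1,2] × [0,1]` on the level-`m` grid are below `u` -/
def LineLow (x : DSquare → ℝ) (u : ℝ) (m N : ℕ) : Prop :=
  ∀ i j : ℤ, InB N i j → Bd (N - m) i j → x ⟨N, i, j⟩ ≤ u

theorem LineLow.noAlive {x : DSquare → ℝ} {u u' : ℝ} {m N : ℕ} (h : LineLow x u m N)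
    (hu : u ≤ u') : NoAlive x u' m N := by
  intro i j hin hbd hal
  have h1 := hal 0
  rw [anc_zero] at h1
  linarith [h i j hin hbd]

/-- the good set of configurations -/
def GS (C δ : ℝ) (m N K : ℕ) : Set (DSquare → ℝ) :=
  {x | x ⟨0, 0, 0⟩ ≤ -C - 1 - δ ∧
    (∀ k : ℕ, 0 < k → -C + δ * (k + 1) < x ⟨-(k : ℤ), 0, 0⟩) ∧
    (∀ n, m ≤ n → K ≤ (surv D2 (C - δ) m n x).card) ∧
    LineLow x (-C - 1 - δ) m N ∧
    ∀ m' : ℕ, ∃ N', m' ≤ N' ∧ LineLow x (-C - 1 - δ) m' N'}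

theorem surv_le {D : ℕ → Finset (ℤ × ℤ)} {C C' e : ℝ} {m n : ℕ} (hD : ∀ s ∈ D n, InB n s.1 s.2)
    (hC : C + e ≤ C')
    {x y : DSquare → ℝ} (h : ∀ N i j, InB N i j → x ⟨N, i, j⟩ - e ≤ y ⟨N, i, j⟩) :
    surv D C m n x ⊆ surv D C' m n y := by
  intro v hv
  rw [mem_surv] at hv ⊢
  obtain ⟨hv, s, hs, h1, h2, h3⟩ := hv
  refine ⟨hv, s, hs, h1, h2, fun j hj => ?_⟩
  have h4 := h3 j hj
  have h5 : InB j (s.1 / 2 ^ (n - j)) (s.2 / 2 ^ (n - j)) := by
    apply InB.ediv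
    rw [show j + (n - j) = n by omega]
    exact hD s hs
  have h6 := h j _ _ h5
  unfold ans at h4 ⊢
  linarith

/-- perturbation of a good configuration -/
theorem GS.perturb {C δ δ' : ℝ} {m N K : ℕ} {x y : DSquare → ℝ} (hx : x ∈ GS C δ' m N K)
    (h0 : |x ⟨0, 0, 0⟩ - y ⟨0, 0, 0⟩| ≤ δ' - δ)
    (h1 : ∀ k : ℕ, |x ⟨-(k : ℤ), 0, 0⟩ - y ⟨-(k : ℤ), 0, 0⟩| ≤ (δ' - δ) * (k + 1))
    (h2 : ∀ N i j, InB N i j → |x ⟨N, i, j⟩ - y ⟨N, i, j⟩| ≤ δ' - δ) : y ∈ GS C δ m N K := by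
  obtain ⟨a1, a2, a3, a4, a5⟩ := hx
  have hll : ∀ m' N', LineLow x (-C - 1 - δ') m' N' → LineLow y (-C - 1 - δ) m' N' := by
    intro m' N' h i j hin hbd
    have := (abs_le.1 (h2 N' i j hin)).1
    linarith [h i j hin hbd]
  refine ⟨?_, ?_, ?_, hll _ _ a4, fun m' => ?_⟩
  · have := (abs_le.1 h0).1
    linarith
  · intro k hk
    have := (abs_le.1 (h1 k)).2
    linarith [a2 k hk]
  · intro n hn
    refine (a3 n hn).trans (Finset.card_le_card ?_)
    refine surv_le (e := δ' - δ) (fun s hs => mem_D2.1 hs) (by linarith) fun N i j hin => ?_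
    have := (abs_le.1 (h2 N i j hin)).2
    linarith
  · obtain ⟨N', hN', h⟩ := a5 m'
    exact ⟨N', hN', hll _ _ h⟩

/-- the far points -/
def Far {V : Type*} (G : SimpleGraph V) (r : V) (K M : ℕ) : Prop :=
  ∀ ρ : ℕ, M ≤ ρ → ∃ f : Fin K → V, ∀ i, G.Reachable r (f i) ∧ G.dist r (f i) = ρ ∧
    ∀ j, i ≠ j → 2 * (ρ - M) ≤ G.dist (f i) (f j)

theorem exists_chains {C : ℝ} {m K : ℕ} {x : DSquare → ℝ}
    (h : ∀ n, m ≤ n → K ≤ (surv D2 C m n x).card) :
    ∃ v : Fin K → ℤ × ℤ, Function.Injective v ∧ ∀ a, Chain x (-C) m (v a) := by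
  classical
  -- the minimal cardinality
  have hex : ∃ c, ∃ n, m ≤ n ∧ (surv D2 C m n x).card = c := ⟨_, m, le_refl _, rfl⟩
  obtain ⟨n₀, hn₀, hc⟩ := Nat.find_spec hex
  have hmin : ∀ n, n₀ ≤ n → surv D2 C m n x = surv D2 C m n₀ x := by
    intro n hn
    apply Finset.eq_of_subset_of_card_le (surv_anti fam_D2 hn₀ hn)
    rw [hc]
    exact Nat.find_min' hex ⟨n, hn₀.trans hn, rfl⟩
  have hall : ∀ v ∈ surv D2 C m n₀ x, ∀ n, m ≤ n → v ∈ surv D2 C m n x := by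
    intro v hv n hn
    rcases le_total n n₀ with h1 | h1
    · exact surv_anti fam_D2 hn h1 hv
    · rw [hmin n h1]; exact hv
  obtain ⟨t, ht, htc⟩ := Finset.exists_subset_card_eq (h n₀ hn₀)
  refine ⟨fun a => (t.equivFin.symm (Fin.cast htc.symm a)).1, ?_, ?_⟩
  · intro a b hab
    have h1 := Subtype.ext hab
    have h2 := t.equivFin.symm.injective h1
    exact Fin.cast_injective _ h2
  · intro a
    have hv := ht (t.equivFin.symm (Fin.cast htc.symm a)).2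
    refine ⟨mem_D2.1 (mem_surv.1 hv).1, fun n hn => ?_⟩
    obtain ⟨_, s, hs, h1, h2, h3⟩ := mem_surv.1 (hall _ hv n hn)
    exact ⟨s, mem_D2.1 hs, h1, h2, h3⟩

theorem root_of_low {x : DSquare → ℝ} {u : ℝ} (h0 : x ⟨0, 0, 0⟩ ≤ u)
    (h1 : ∀ k : ℕ, 0 < k → u < x ⟨-(k : ℤ), 0, 0⟩) : (⟨0, 0, 0⟩ : DSquare) ∈ tiles x u := by
  rw [mem_tiles]
  refine ⟨h0, fun k hk => ?_⟩
  rw [anc_quad (Or.inl rfl) (Or.inl rfl), zero_sub]
  exact h1 k hk

theorem GS.root {C : ℝ} {m N K : ℕ} {x : DSquare → ℝ} (hx : x ∈ GS C 0 m N K) {u : ℝ}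
    (hu1 : -C - 1 ≤ u) (hu2 : u ≤ -C) : (⟨0, 0, 0⟩ : DSquare) ∈ tiles x u := by
  obtain ⟨a1, a2, a3, a4, a5⟩ := hx
  refine root_of_low (by linarith) fun k hk => ?_
  have := a2 k hk
  linarith

theorem GS.far {C : ℝ} {m N K : ℕ} (hmN : m ≤ N) {x : DSquare → ℝ} (hx : x ∈ GS C 0 m N K)
    {u : ℝ} (hu1 : -C - 1 ≤ u) (hu2 : u ≤ -C) :
    Far (adjGraph (tiles x u)) ⟨_, GS.root hx hu1 hu2⟩ K (2 ^ (N + 1)) := by
  have hr := GS.root hx hu1 hu2
  obtain ⟨a1, a2, a3, a4, a5⟩ := hx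
  intro ρ hρ
  obtain ⟨v, hinj, hv⟩ := exists_chains a3
  refine ends_of_chains hr (fun m' => ?_) hmN (a4.noAlive (by linarith)) v hinj (fun a => ?_) ρ hρ
  · obtain ⟨N', hN', h⟩ := a5 m'
    exact ⟨N', hN', h.noAlive (by linarith)⟩
  · refine ⟨(hv a).1, fun n hn => ?_⟩
    obtain ⟨s, hs, h1, h2, h3⟩ := (hv a).2 n hn
    refine ⟨s, hs, h1, h2, fun j hj => ?_⟩
    have := h3 j hj
    linarith

/-! ### The measurability of the good set -/

theorem measurable_lineLow (u : ℝ) (m N : ℕ) : MeasurableSet {x : DSquare → ℝ | LineLow x u m N} := by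
  unfold LineLow
  refine measurableSet_setOfPred.2 ?_
  refine Measurable.forall fun i => Measurable.forall fun j => ?_
  refine Measurable.imp measurable_const (Measurable.imp measurable_const ?_)
  exact measurableSet_setOfPred.1 (measurableSet_le (measurable_pi_apply _) measurable_const)

theorem measurable_GS (C δ : ℝ) (m N K : ℕ) : MeasurableSet (GS C δ m N K) := by
  unfold GS
  refine measurableSet_setOfPred.2 ?_
  refine Measurable.and ?_ (Measurable.and ?_ (Measurable.and ?_ (Measurable.and ?_ ?_)))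
  · exact measurableSet_setOfPred.1 (measurableSet_le (measurable_pi_apply _) measurable_const)
  · refine Measurable.forall fun k => Measurable.imp measurable_const ?_
    exact measurableSet_setOfPred.1 (measurableSet_lt measurable_const (measurable_pi_apply _))
  · refine Measurable.forall fun n => Measurable.imp measurable_const ?_
    exact measurableSet_setOfPred.1 (measurable_surv D2 (C - δ) m n K)
  · exact measurableSet_setOfPred.1 (measurable_lineLow _ _ _)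
  · refine Measurable.forall fun m' => Measurable.exists fun N' =>
      Measurable.and measurable_const ?_
    exact measurableSet_setOfPred.1 (measurable_lineLow _ _ _)

/-! ### A root of infinite degree -/

theorem infinite_degree {x : DSquare → ℝ} {u : ℝ} (hroot : (⟨0, 0, 0⟩ : DSquare) ∈ tiles x u)
    {m : ℕ} (hch : ∀ n : ℕ, m ≤ n → ∃ s ∈ D1 n, ∀ j ≤ n, u < x (ans n s j))
    (hcorner : ∀ n : ℕ, ∀ s : ℤ, InB n (2 ^ n) s →
      ∃ N, n ≤ N ∧ x ⟨N, 2 ^ N, s * 2 ^ (N - n)⟩ ≤ u) :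
    {T | (adjGraph (tiles x u)).Adj ⟨_, hroot⟩ T}.Infinite := by
  have hanc : ∀ k, 0 < k → u < x (anc k ⟨0, 0, 0⟩) := (mem_tiles.1 hroot).2
  intro hfin
  obtain ⟨B, hB⟩ := (hfin.image (fun T => T.1.n)).bddAbove
  set n := max m B.toNat with hn
  obtain ⟨s, hsD, hs⟩ := hch n (le_max_left _ _)
  have hBn : B.toNat ≤ n := le_max_right _ _
  rw [mem_D1] at hsD
  obtain ⟨hs1, hin⟩ := hsD
  have hal := alive_of_chain hanc hin hs
  obtain ⟨N, hN, hlow⟩ := hcorner n s.2 (hs1 ▸ hin)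
  have hna : ¬ Alive x u ⟨N, 2 ^ N, s.2 * 2 ^ (N - n)⟩ := by
    intro h
    have h1 := h 0
    rw [anc_zero] at h1
    linarith
  have e1 : (2 : ℤ) ^ N / 2 ^ (N - n) = s.1 := by
    rw [hs1, show N = n + (N - n) by omega, pow_add, Nat.add_sub_cancel_left, ediv_mul_pow]
  have e2 : s.2 * 2 ^ (N - n) / 2 ^ (N - n) = s.2 := ediv_mul_pow _ _
  obtain ⟨k, hk, hk'⟩ := exists_tile_inside hanc hN hin hal e1 e2 hna
  have hinN : InB N (2 ^ N) (s.2 * 2 ^ (N - n)) := by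
    have := InB.of_ediv (N := n) (q := N - n) (i := 2 ^ N) (j := s.2 * 2 ^ (N - n))
      (by rw [e1, e2]; exact hin)
    rwa [show n + (N - n) = N by omega] at this
  have hj0 := inB_iff.1 hinN
  have h0 : (⟨_, hroot⟩ : tiles x u).1 = anc N ⟨N, 2 ^ N - 1, s.2 * 2 ^ (N - n)⟩ := by
    have hN : (0 : ℤ) < 2 ^ N := by positivity
    ext
    · simp [anc]
    · simp only [anc]
      rw [Int.ediv_eq_zero_of_lt (by omega) (by omega)]
    · simp only [anc]
      rw [Int.ediv_eq_zero_of_lt hj0.2.2.1 hj0.2.2.2]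
  have h1 : (⟨_, hk'⟩ : tiles x u).1 = anc k ⟨N, 2 ^ N - 1 + 1, s.2 * 2 ^ (N - n)⟩ := by
    simp
  rcases step_right h0 h1 with h | h
  · have h2 := congrArg (fun T : tiles x u => T.1.n) h
    simp only [anc] at h2
    omega
  · have h3 := hB ⟨_, h, rfl⟩
    simp only [anc] at h3
    omega

end Pool.Agent.Q295.LQG
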