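import Pool.Agent.Q295.LQG.Shift

/-!
# The whole-plane Gaussian free field seen at scale `2⁻ⁿ`
-/

set_option autoImplicit false

namespace Pool.Agent.Q295.LQG

open MeasureTheory ProbabilityTheory Real Pool.Agent.Y980 Pool.Agent.Y980.DSquare

variable {Ω : Type*} [MeasurableSpace Ω] {P : Measure Ω} {h : ℝ → ℂ → Ω → ℝ}

/-- `h (2⁻ⁿ ·) - h_{2⁻ⁿ}(0)` -/
noncomputable def hsc (n : ℕ) (h : ℝ → ℂ → Ω → ℝ) : ℝ → ℂ → Ω → ℝ :=
  fun r z ω => h ((2 : ℝ) ^ (-(n : ℤ)) * r) ((((2 : ℝ) ^ (-(n : ℤ)) : ℝ) : ℂ) * z) ω -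
    h ((2 : ℝ) ^ (-(n : ℤ))) 0 ω

theorem cov_gff (hh : IsGFF P h) {r s : ℝ} (hr : 0 < r) (hs : 0 < s) (z w : ℂ) :
    cov[h r z, h s w; P] = cN r z + cN s w - cA r z s w := by
  rw [hh.cov _ _ _ _ hr hs, double_avg hs]

theorem cA_symm (hh : IsGFF P h) {r s : ℝ} (hr : 0 < r) (hs : 0 < s) (z w : ℂ) :
    cA r z s w = cA s w r z := by
  have h1 := cov_gff hh hr hs z w
  have h2 := cov_gff hh hs hr w z
  rw [covariance_comm, h1] at h2
  linarith

theorem cA_one_zero (r : ℝ) (z : ℂ) : cA r z 1 0 = cN r z := by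
  unfold cA cN
  congr 1
  ext x
  rw [sub_zero, max_comm]

theorem gff_index (hh : IsGFF P h) {ι : Type*} (f : ι → ℝ × ℂ) (hf : ∀ i, 0 < (f i).1) :
    IsGaussianProcess (fun i => h (f i).1 (f i).2) P :=
  hh.gaussian.comp_right (fun i => (⟨⟨(f i).1, hf i⟩, (f i).2⟩ : Set.Ioi (0 : ℝ) × ℂ))

theorem memLp_gff (hh : IsGFF P h) {r : ℝ} (hr : 0 < r) (z : ℂ) : MemLp (h r z) 2 P :=
  (hh.gaussian.hasGaussianLaw_eval (⟨⟨r, hr⟩, z⟩ : Set.Ioi (0 : ℝ) × ℂ)).memLp_two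

theorem isGFF_hsc (hh : IsGFF P h) (n : ℕ) : IsGFF P (hsc n h) := by
  have hp := hh.gaussian.isProbabilityMeasure
  set c : ℝ := (2 : ℝ) ^ (-(n : ℤ)) with hc
  have hc0 : 0 < c := by positivity
  refine ⟨?_, ?_, ?_, ?_⟩
  · intro r z hr
    exact (hh.measurable _ _ (mul_pos hc0 hr)).sub (hh.measurable _ _ hc0)
  · have h1 := isGaussianProcess_lin hh.gaussian
    have h2 := h1.comp_right (fun p : Set.Ioi (0 : ℝ) × ℂ =>
      Finsupp.single ((⟨⟨c * p.1.1, mul_pos hc0 p.1.2⟩, (c : ℂ) * p.2⟩ : Set.Ioi (0 : ℝ) × ℂ)) (1 : ℝ)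
        + Finsupp.single ((⟨⟨c, hc0⟩, 0⟩ : Set.Ioi (0 : ℝ) × ℂ)) (-1 : ℝ))
    refine h2.congr fun p => ?_
    refine Filter.Eventually.of_forall fun ω => ?_
    simp only [Function.comp_apply]
    rw [lin_add, lin_single, lin_single]
    unfold hsc
    rw [← hc]
    ring
  · intro r z hr
    have i1 := (memLp_gff hh (mul_pos hc0 hr) ((c : ℂ) * z)).integrable (by norm_num)
    have i2 := (memLp_gff hh hc0 0).integrable (by norm_num)
    have e := integral_sub i1 i2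
    rw [hh.mean _ _ (mul_pos hc0 hr), hh.mean _ _ hc0, sub_zero] at e
    exact e
  · intro r z s w hr hs
    have m1 := memLp_gff hh (mul_pos hc0 hr) ((c : ℂ) * z)
    have m2 := memLp_gff hh (mul_pos hc0 hs) ((c : ℂ) * w)
    have m3 := memLp_gff hh hc0 0
    have e : cov[hsc n h r z, hsc n h s w; P] =
        cov[h (c * r) ((c : ℂ) * z), h (c * s) ((c : ℂ) * w); P] -
        cov[h (c * r) ((c : ℂ) * z), h c 0; P] - cov[h c 0, h (c * s) ((c : ℂ) * w); P] +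
        cov[h c 0, h c 0; P] := covariance_fun_sub_fun_sub m1 m3 m2 m3
    rw [e, cov_gff hh (mul_pos hc0 hr) (mul_pos hc0 hs), cov_gff hh (mul_pos hc0 hr) hc0,
      cov_gff hh hc0 (mul_pos hc0 hs), cov_gff hh hc0 hc0, double_avg hs]
    have e1 := cA_scale hc0 r s hs z w
    have e2 := cA_scale hc0 r 1 one_pos z 0
    have e3 := cA_scale hc0 1 s hs 0 w
    have e4 := cA_scale hc0 1 1 one_pos 0 0
    rw [mul_zero, mul_one] at e2 e3 e4
    rw [e1, e2, e3, e4, cA_self one_pos, log_one, cA_one_zero, cA_symm hh one_pos hs, cA_one_zero]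
    ring

/-- the drifted field at the origin -/
noncomputable def drift (Q : ℝ) (h : ℝ → ℂ → Ω → ℝ) (n : ℕ) (ω : Ω) : ℝ :=
  h ((2 : ℝ) ^ (-(n : ℤ))) 0 ω - Q * n * log 2

omit [MeasurableSpace Ω] in
theorem fld_hsc (Q : ℝ) (n : ℕ) (ω : Ω) (S : DSquare) :
    fld Q (hsc n h) ω S = fld Q h ω (down n S) - drift Q h n ω := by
  unfold fld sqv hsc drift
  rw [side_down, center_down]
  have e : (down n S).n = S.n + n := rfl
  rw [e]
  push_cast
  rw [mul_div_assoc]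
  ring

/-- `h_1(0) = 0` -/
theorem h_one_zero (hh : IsGFF P h) : h 1 0 =ᵐ[P] 0 := by
  have hp := hh.gaussian.isProbabilityMeasure
  have h1 : Var[h 1 0; P] = 0 := by
    rw [← covariance_self (hh.measurable _ _ one_pos).aemeasurable, cov_gff hh one_pos one_pos,
      ← cA_one_zero, cA_self one_pos, log_one]
    ring
  have h2 := (memLp_gff hh one_pos 0)
  have h3 := ae_eq_integral_of_variance_eq_zero h2 h1
  rw [hh.mean _ _ one_pos] at h3
  exact h3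

theorem drift_eq (hh : IsGFF P h) (Q : ℝ) (n : ℕ) :
    ∀ᵐ ω ∂P, drift Q h n ω = -(hsc n h ((2 : ℝ) ^ (n : ℤ)) 0 ω) - Q * n * log 2 := by
  filter_upwards [h_one_zero hh] with ω hω
  unfold drift hsc
  rw [← zpow_add₀ (by norm_num), neg_add_cancel, zpow_zero, mul_zero, hω]
  simp

end Pool.Agent.Q295.LQG
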