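import Pool.Agent.Q295.LQG.Root

/-!
# Dyadic tilings: scaling by a power of two, the tiles which contain the origin
-/

set_option autoImplicit false

namespace Pool.Agent.Q295.LQG

open Pool.Agent.Y980 Pool.Agent.Y980.DSquare

/-- the square `2⁻ⁿ S` -/
def down (n : ℤ) (S : DSquare) : DSquare := ⟨S.n + n, S.i, S.j⟩

theorem down_down (n m : ℤ) (S : DSquare) : down n (down m S) = down (m + n) S := by
  unfold down
  ext
  · simp only; ring
  · rfl
  · rfl

theorem down_zero (S : DSquare) : down 0 S = S := by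
  unfold down
  ext
  · simp
  · rfl
  · rfl

theorem anc_down (n : ℤ) (k : ℕ) (S : DSquare) : anc k (down n S) = down n (anc k S) := by
  unfold anc down
  ext
  · simp only; ring
  · rfl
  · rfl

theorem side_down (n : ℤ) (S : DSquare) : (down n S).side = 2 ^ (-n) * S.side := by
  unfold down side
  simp only
  rw [← zpow_add₀ (by norm_num)]
  congr 1
  ring

theorem center_down (n : ℤ) (S : DSquare) :
    (down n S).center = (((2 : ℝ) ^ (-n) : ℝ) : ℂ) * S.center := by
  unfold center
  apply Complex.ext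
  · rw [Complex.re_ofReal_mul]
    simp only
    rw [side_down]
    simp only [down]
    ring
  · rw [Complex.im_ofReal_mul]
    simp only
    rw [side_down]
    simp only [down]
    ring

theorem mem_down {n : ℤ} {S : DSquare} {z : ℂ} :
    (((2 : ℝ) ^ (-n) : ℝ) : ℂ) * z ∈ (down n S).toSet ↔ z ∈ S.toSet := by
  have h : (0 : ℝ) < 2 ^ (-n) := by positivity
  simp only [toSet, Set.mem_ofPred_eq, side_down, Complex.re_ofReal_mul, Complex.im_ofReal_mul]
  simp only [down]
  have e : ∀ a : ℝ, a * (2 ^ (-n) * S.side) = 2 ^ (-n) * (a * S.side) := fun a => by ring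
  rw [e, e, e, e, mul_le_mul_iff_right₀ h, mul_le_mul_iff_right₀ h, mul_le_mul_iff_right₀ h,
    mul_le_mul_iff_right₀ h]

theorem mem_tiles_down {x y : DSquare → ℝ} {u v : ℝ} {n : ℤ}
    (h : ∀ S, y S - v = x (down n S) - u) {S : DSquare} :
    S ∈ tiles y v ↔ down n S ∈ tiles x u := by
  rw [mem_tiles, mem_tiles]
  have h1 : y S ≤ v ↔ x (down n S) ≤ u := by
    have := h S
    constructor <;> intro _ <;> linarith
  have h2 : ∀ k, v < y (anc k S) ↔ u < x (anc k (down n S)) := by
    intro k
    rw [anc_down]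
    have := h (anc k S)
    constructor <;> intro _ <;> linarith
  simp only [h1, h2]

/-- the isomorphism of the two tilings -/
noncomputable def downEquiv {x y : DSquare → ℝ} {u v : ℝ} {n : ℤ}
    (h : ∀ S, y S - v = x (down n S) - u) : tiles y v ≃ tiles x u where
  toFun S := ⟨down n S.1, (mem_tiles_down h).1 S.2⟩
  invFun T := ⟨down (-n) T.1, (mem_tiles_down h).2 (by
    rw [down_down, neg_add_cancel, down_zero]; exact T.2)⟩
  left_inv S := Subtype.ext (by
    simp only
    rw [down_down, add_neg_cancel, down_zero])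
  right_inv T := Subtype.ext (by
    simp only
    rw [down_down, neg_add_cancel, down_zero])

theorem scale_segment {c : ℝ} {x y : ℂ} {s : Set ℂ} (hs : segment ℝ x y ⊆ {z | (c : ℂ) * z ∈ s}) :
    segment ℝ ((c : ℂ) * x) ((c : ℂ) * y) ⊆ s := by
  rintro z ⟨a, b, ha, hb, hab, rfl⟩
  have h1 := hs ⟨a, b, ha, hb, hab, rfl⟩
  simp only [Set.mem_ofPred_eq] at h1
  have e : a • ((c : ℂ) * x) + b • ((c : ℂ) * y) = (c : ℂ) * (a • x + b • y) := by
    simp only [Complex.real_smul]
    ring
  rw [e]
  exact h1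

theorem adj_down {x y : DSquare → ℝ} {u v : ℝ} {n : ℤ}
    (h : ∀ S, y S - v = x (down n S) - u) {S T : tiles y v} (hST : (adjGraph (tiles y v)).Adj S T) :
    (adjGraph (tiles x u)).Adj (downEquiv h S) (downEquiv h T) := by
  obtain ⟨hne, a, b, hab, hs⟩ := hST
  have hc : (((2 : ℝ) ^ (-n) : ℝ) : ℂ) ≠ 0 := by
    have : (0 : ℝ) < 2 ^ (-n) := by positivity
    exact_mod_cast this.ne'
  refine ⟨fun he => hne ((downEquiv h).injective he), (((2 : ℝ) ^ (-n) : ℝ) : ℂ) * a,
    (((2 : ℝ) ^ (-n) : ℝ) : ℂ) * b, fun he => hab (mul_left_cancel₀ hc he), ?_⟩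
  apply scale_segment
  intro z hz
  exact ⟨mem_down.2 (hs hz).1, mem_down.2 (hs hz).2⟩

theorem adj_down_iff {x y : DSquare → ℝ} {u v : ℝ} {n : ℤ}
    (h : ∀ S, y S - v = x (down n S) - u) {S T : tiles y v} :
    (adjGraph (tiles x u)).Adj (downEquiv h S) (downEquiv h T) ↔ (adjGraph (tiles y v)).Adj S T := by
  constructor
  · intro hA
    have h' : ∀ S, x S - u = y (down (-n) S) - v := by
      intro S
      rw [h, down_down, neg_add_cancel, down_zero]
    have := adj_down h' hA
    have e : ∀ S, downEquiv h' (downEquiv h S) = S := fun S => Subtype.ext (by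
      simp only [downEquiv, Equiv.coe_fn_mk]
      rw [down_down, add_neg_cancel, down_zero])
    rwa [e, e] at this
  · exact adj_down h

noncomputable def downIso {x y : DSquare → ℝ} {u v : ℝ} {n : ℤ}
    (h : ∀ S, y S - v = x (down n S) - u) :
    adjGraph (tiles y v) ≃g adjGraph (tiles x u) where
  toEquiv := downEquiv h
  map_rel_iff' := adj_down_iff h

theorem dist_iso {V W : Type*} {G : SimpleGraph V} {H : SimpleGraph W} (φ : G ≃g H) (a b : V) :
    H.dist (φ a) (φ b) = G.dist a b := by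
  by_cases h : G.Reachable a b
  · have h' : H.Reachable (φ a) (φ b) := h.map φ.toHom
    apply le_antisymm
    · obtain ⟨w, hw⟩ := h.exists_walk_length_eq_dist
      have := SimpleGraph.dist_le (w.map φ.toHom)
      rwa [SimpleGraph.Walk.length_map, hw] at this
    · obtain ⟨w, hw⟩ := h'.exists_walk_length_eq_dist
      have := SimpleGraph.dist_le (w.map φ.symm.toHom)
      rw [SimpleGraph.Walk.length_map, hw] at this
      simpa using this
  · have h' : ¬ H.Reachable (φ a) (φ b) := by
      intro h'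
      apply h
      have := h'.map φ.symm.toHom
      simpa using this
    rw [SimpleGraph.dist_eq_zero_of_not_reachable h, SimpleGraph.dist_eq_zero_of_not_reachable h']

theorem far_iso {V W : Type*} {G : SimpleGraph V} {H : SimpleGraph W} (φ : G ≃g H) {r : V}
    {K M : ℕ} (h : Far G r K M) : Far H (φ r) K M := by
  intro ρ hρ
  obtain ⟨f, hf⟩ := h ρ hρ
  refine ⟨fun i => φ (f i), fun i => ⟨?_, ?_, fun j hij => ?_⟩⟩
  · exact (hf i).1.map φ.toHom
  · have := (hf i).2.1
    rw [← this]
    exact dist_iso φ _ _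
  · have := (hf i).2.2 j hij
    rw [dist_iso φ]
    exact this

/-! ### The tiles which contain the origin -/

theorem zero_mem {S : DSquare} : (0 : ℂ) ∈ S.toSet ↔ Quad S.i ∧ Quad S.j := by
  have hs := S.side_pos
  have gen : ∀ a : ℤ, ((a : ℝ) * S.side ≤ 0 ∧ 0 ≤ ((a : ℝ) + 1) * S.side) ↔ Quad a := by
    intro a
    unfold Quad
    constructor
    · rintro ⟨h1, h2⟩
      have h3 : (a : ℝ) ≤ 0 := by
        by_contra h
        push Not at h
        nlinarith
      have h4 : (0 : ℝ) ≤ a + 1 := by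
        by_contra h
        push Not at h
        nlinarith
      have h3' : a ≤ 0 := by exact_mod_cast h3
      have h4' : 0 ≤ a + 1 := by exact_mod_cast h4
      omega
    · rintro (h | h)
      · subst h; simp; exact hs.le
      · subst h; simp; exact hs.le
  simp only [toSet, Set.mem_ofPred_eq, Complex.zero_re, Complex.zero_im]
  rw [← gen, ← gen]
  tauto

/-- a number between `0` and the end of a quadrant interval -/
theorem quad_len {a : ℤ} (ha : Quad a) {s t : ℝ} (ht : 0 < t) (hts : t ≤ s) :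
    (a : ℝ) * s ≤ (if a = 0 then t else -t) ∧ (if a = 0 then t else -t) ≤ ((a : ℝ) + 1) * s := by
  rcases ha with rfl | rfl
  · simp; exact ⟨ht.le, hts⟩
  · simp; exact ⟨hts, ht.le⟩

theorem quad_zero {a : ℤ} (ha : Quad a) {s : ℝ} (hs : 0 < s) :
    (a : ℝ) * s ≤ 0 ∧ 0 ≤ ((a : ℝ) + 1) * s := by
  rcases ha with rfl | rfl
  · simp; exact hs.le
  · simp; exact hs.le

theorem adj_quad {𝒯 : Set DSquare} {R R' : 𝒯} (h : R ≠ R') (h0 : (0 : ℂ) ∈ R.1.toSet)
    (h0' : (0 : ℂ) ∈ R'.1.toSet) (hij : R.1.i = R'.1.i ∨ R.1.j = R'.1.j) :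
    (adjGraph 𝒯).Adj R R' := by
  have hs := R.1.side_pos
  have hs' := R'.1.side_pos
  obtain ⟨q1, q2⟩ := zero_mem.1 h0
  obtain ⟨q1', q2'⟩ := zero_mem.1 h0'
  have hm : 0 < min R.1.side R'.1.side := lt_min hs hs'
  rcases hij with hij | hij
  · refine adj_of_two h (x := 0) (y := ⟨if R.1.i = 0 then min R.1.side R'.1.side else
      -min R.1.side R'.1.side, 0⟩) ?_ h0 ?_ h0' ?_
    · intro he
      have := congrArg Complex.re he
      simp only [Complex.zero_re] at this
      split_ifs at this <;> linarith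
    · simp only [toSet, Set.mem_ofPred_eq]
      exact ⟨(quad_len q1 hm (min_le_left _ _)).1, (quad_len q1 hm (min_le_left _ _)).2,
        (quad_zero q2 hs).1, (quad_zero q2 hs).2⟩
    · simp only [toSet, Set.mem_ofPred_eq]
      rw [hij]
      exact ⟨(quad_len q1' hm (min_le_right _ _)).1, (quad_len q1' hm (min_le_right _ _)).2,
        (quad_zero q2' hs').1, (quad_zero q2' hs').2⟩
  · refine adj_of_two h (x := 0) (y := ⟨0, if R.1.j = 0 then min R.1.side R'.1.side else
      -min R.1.side R'.1.side⟩) ?_ h0 ?_ h0' ?_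
    · intro he
      have := congrArg Complex.im he
      simp only [Complex.zero_im] at this
      split_ifs at this <;> linarith
    · simp only [toSet, Set.mem_ofPred_eq]
      exact ⟨(quad_zero q1 hs).1, (quad_zero q1 hs).2, (quad_len q2 hm (min_le_left _ _)).1,
        (quad_len q2 hm (min_le_left _ _)).2⟩
    · simp only [toSet, Set.mem_ofPred_eq]
      rw [hij]
      exact ⟨(quad_zero q1' hs').1, (quad_zero q1' hs').2, (quad_len q2' hm (min_le_right _ _)).1,
        (quad_len q2' hm (min_le_right _ _)).2⟩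

/-- there is a tile at the origin in every quadrant -/
def FourRoots (x : DSquare → ℝ) (u : ℝ) : Prop :=
  ∀ i j : ℤ, Quad i → Quad j → ∃ n : ℤ, (⟨n, i, j⟩ : DSquare) ∈ tiles x u

/-- the tiles at the origin have distance at most two -/
theorem roots_close {x : DSquare → ℝ} {u : ℝ} (hF : FourRoots x u) {R R' : tiles x u}
    (h0 : (0 : ℂ) ∈ R.1.toSet) (h0' : (0 : ℂ) ∈ R'.1.toSet) :
    ∃ w : (adjGraph (tiles x u)).Walk R R', w.length ≤ 2 := by
  by_cases h : R = R'
  · subst h
    exact ⟨SimpleGraph.Walk.nil, by simp⟩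
  by_cases hij : R.1.i = R'.1.i ∨ R.1.j = R'.1.j
  · exact ⟨SimpleGraph.Walk.cons (adj_quad h h0 h0' hij) SimpleGraph.Walk.nil, by simp⟩
  push Not at hij
  obtain ⟨n, hn⟩ := hF R.1.i R'.1.j (zero_mem.1 h0).1 (zero_mem.1 h0').2
  set T : tiles x u := ⟨_, hn⟩ with hT
  have hT0 : (0 : ℂ) ∈ T.1.toSet := zero_mem.2 ⟨(zero_mem.1 h0).1, (zero_mem.1 h0').2⟩
  have h1 : R ≠ T := by
    intro he
    have := congrArg (fun T : tiles x u => T.1.j) he
    exact hij.2 this
  have h2 : T ≠ R' := by
    intro he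
    have := congrArg (fun T : tiles x u => T.1.i) he
    exact hij.1 this
  exact ⟨SimpleGraph.Walk.cons (adj_quad h1 h0 hT0 (Or.inl rfl))
    (SimpleGraph.Walk.cons (adj_quad h2 hT0 h0' (Or.inr rfl)) SimpleGraph.Walk.nil), by simp⟩

end Pool.Agent.Q295.LQG
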